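import Mathlib

set_option autoImplicit false

open MeasureTheory Set Topology Filter

namespace Pool.Agent.Helper83

/-- The box of sequences whose first `n` terms are bounded by `b`. -/
def boxN (b : ℕ → ℕ) (n : ℕ) : Set (ℕ → ℕ) := {x | ∀ i < n, x i ≤ b i}

/-- The compact box of sequences all of whose terms are bounded by `b`. -/
def boxI (b : ℕ → ℕ) : Set (ℕ → ℕ) := {x | ∀ i, x i ≤ b i}

lemma isCompact_boxI (b : ℕ → ℕ) : IsCompact (boxI b) := by
  have : boxI b = Set.pi Set.univ (fun i => Set.Iic (b i)) := by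
    ext x; simp only [boxI, Set.mem_pi, mem_ofPred_eq, mem_univ, mem_Iic, true_implies]
  rw [this]
  exact isCompact_univ_pi (fun i => (Set.finite_Iic (b i)).isCompact)

lemma exists_boxN_subset {W : Set (ℕ → ℕ)} (hW : IsOpen W) (b : ℕ → ℕ) (h : boxI b ⊆ W) :
    ∃ n, boxN b n ⊆ W := by
  by_contra hcon
  push Not at hcon
  have hx : ∀ n, ∃ x, x ∈ boxN b n ∧ x ∉ W := by
    intro n
    have := hcon n
    rw [Set.not_subset] at this
    obtain ⟨x, hx1, hx2⟩ := this
    exact ⟨x, hx1, hx2⟩
  choose x hx1 hx2 using hx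
  let y : ℕ → ℕ → ℕ := fun n i => min (x n i) (b i)
  have hy : ∀ n, y n ∈ boxI b := fun n i => min_le_right _ _
  obtain ⟨z, hz, φ, hφ, hlim⟩ := (isCompact_boxI b).tendsto_subseq hy
  have hlim2 : Tendsto (fun n => x (φ n)) atTop (𝓝 z) := by
    rw [tendsto_pi_nhds] at hlim ⊢
    intro i
    have h1 := hlim i
    refine h1.congr' ?_
    filter_upwards [eventually_gt_atTop i] with n hn
    have : i < φ n := lt_of_lt_of_le hn (hφ.id_le n)
    have h2 := hx1 (φ n) i this
    simp [y, h2]
  have hzW : z ∈ W := h hz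
  have := hlim2.eventually (hW.mem_nhds hzW)
  obtain ⟨n, hn⟩ := this.exists
  exact hx2 _ hn

lemma exists_compact_subset_of_analytic {α : Type*} [TopologicalSpace α] [PolishSpace α]
    [MeasurableSpace α] [BorelSpace α] (μ : Measure α) [IsFiniteMeasure μ] {s : Set α}
    (hs : AnalyticSet s) {ε : ENNReal} (hε : ε ≠ 0) :
    ∃ K : Set α, IsCompact K ∧ K ⊆ s ∧ μ s ≤ μ K + ε := by
  rw [AnalyticSet] at hs
  rcases hs with hs | ⟨f, hf, hfs⟩
  · exact ⟨∅, isCompact_empty, by simp, by simp [hs]⟩
  obtain ⟨δ, hδpos, hδsum⟩ := ENNReal.exists_pos_sum_of_countable' hε ℕ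
  -- choose `b` recursively
  have step : ∀ (n : ℕ) (T : Set (ℕ → ℕ)), ∃ m : ℕ,
      μ (f '' T) ≤ μ (f '' (T ∩ {x | x n ≤ m})) + δ n := by
    intro n T
    have hmono : Monotone (fun m : ℕ => f '' (T ∩ {x | x n ≤ m})) := by
      intro m m' hmm
      apply Set.image_mono
      apply Set.inter_subset_inter_right
      intro x hx
      exact le_trans hx hmm
    have hun : f '' T = ⋃ m : ℕ, f '' (T ∩ {x | x n ≤ m}) := by
      rw [← Set.image_iUnion, ← Set.inter_iUnion]
      congr 1
      ext x
      simp only [mem_inter_iff, mem_iUnion, mem_ofPred_eq]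
      exact ⟨fun h => ⟨h, x n, le_rfl⟩, fun h => h.1⟩
    have hlim := tendsto_measure_iUnion_atTop (μ := μ) hmono
    rw [← hun] at hlim
    by_cases h0 : μ (f '' T) ≤ δ n
    · exact ⟨0, h0.trans le_add_self⟩
    · push Not at h0
      have hlt : μ (f '' T) - δ n < μ (f '' T) := by
        apply ENNReal.sub_lt_self (measure_ne_top _ _) _ (hδpos n).ne'
        exact (lt_of_le_of_lt zero_le h0).ne'
      obtain ⟨m, hm⟩ := (hlim.eventually (lt_mem_nhds hlt)).exists
      refine ⟨m, ?_⟩
      exact tsub_le_iff_right.mp hm.le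
  choose g hg using step
  -- the sequence of sets
  let T : ℕ → Set (ℕ → ℕ) := fun n => Nat.rec Set.univ (fun n T => T ∩ {x | x n ≤ g n T}) n
  have hT0 : T 0 = Set.univ := rfl
  have hTs : ∀ n, T (n+1) = T n ∩ {x | x n ≤ g n (T n)} := fun n => rfl
  let b : ℕ → ℕ := fun n => g n (T n)
  have hTb : ∀ n, T n = boxN b n := by
    intro n
    induction n with
    | zero => ext x; simp [hT0, boxN]
    | succ n ih =>
      ext x
      have hb : b n = g n (T n) := rfl
      rw [hTs, ← hb, ih]
      simp only [boxN, mem_inter_iff, mem_ofPred_eq]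
      constructor
      · rintro ⟨h1, h2⟩ i hi
        rcases Nat.lt_succ_iff_lt_or_eq.mp hi with h | h
        · exact h1 i h
        · subst h; exact h2
      · intro h
        exact ⟨fun i hi => h i (by omega), h n (by omega)⟩
  have hbound : ∀ n, μ s ≤ μ (f '' T n) + ∑ i ∈ Finset.range n, δ i := by
    intro n
    induction n with
    | zero => simp [hT0, hfs]
    | succ n ih =>
      rw [Finset.sum_range_succ]
      calc μ s ≤ μ (f '' T n) + ∑ i ∈ Finset.range n, δ i := ih
        _ ≤ (μ (f '' T (n+1)) + δ n) + ∑ i ∈ Finset.range n, δ i := by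
            gcongr
            exact hg n (T n)
        _ = μ (f '' T (n+1)) + (∑ i ∈ Finset.range n, δ i + δ n) := by
            rw [add_assoc, add_comm (δ n)]
  refine ⟨f '' boxI b, (isCompact_boxI b).image hf, ?_, ?_⟩
  · rw [← hfs]; exact Set.image_subset_range _ _
  · -- outer regularity
    let _ := TopologicalSpace.upgradeIsCompletelyMetrizable α
    rw [Set.measure_eq_iInf_isOpen (f '' boxI b) μ]
    rw [← tsub_le_iff_right]
    refine le_iInf fun U => le_iInf fun hU => le_iInf fun hUo => ?_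
    rw [tsub_le_iff_right]
    have hsub : boxI b ⊆ f ⁻¹' U := Set.image_subset_iff.mp hU
    obtain ⟨n, hn⟩ := exists_boxN_subset (hUo.preimage hf) b hsub
    have h1 : f '' T n ⊆ U := by
      rw [hTb]; exact Set.image_subset_iff.mpr hn
    calc μ s ≤ μ (f '' T n) + ∑ i ∈ Finset.range n, δ i := hbound n
      _ ≤ μ U + ∑' i, δ i := by
          gcongr
          exact ENNReal.sum_le_tsum _
      _ ≤ μ U + ε := by gcongr

/-- Analytic sets are null-measurable for finite measures. -/
theorem nullMeasurableSet_of_analytic_finite {α : Type*} [TopologicalSpace α] [PolishSpace α]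
    [MeasurableSpace α] [BorelSpace α] (μ : Measure α) [IsFiniteMeasure μ] {s : Set α}
    (hs : AnalyticSet s) : NullMeasurableSet s μ := by
  have hpos : ∀ n : ℕ, ((n : ENNReal) + 1)⁻¹ ≠ 0 := by
    intro n
    rw [ENNReal.inv_ne_zero]
    exact ENNReal.add_ne_top.mpr ⟨ENNReal.natCast_ne_top n, ENNReal.one_ne_top⟩
  have := fun n : ℕ => exists_compact_subset_of_analytic μ hs (hpos n)
  choose K hK hKs hKm using this
  have hKmeas : MeasurableSet (⋃ n, K n) := MeasurableSet.iUnion fun n => (hK n).measurableSet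
  have hKsub : (⋃ n, K n) ⊆ s := Set.iUnion_subset hKs
  have hle : μ s ≤ μ (⋃ n, K n) := by
    refine ENNReal.le_of_forall_pos_le_add ?_
    intro ε hε _
    have : Tendsto (fun n : ℕ => ((n : ENNReal) + 1)⁻¹) atTop (𝓝 0) := by
      have h1 := ENNReal.tendsto_inv_nat_nhds_zero
      have h2 := h1.comp (tendsto_add_atTop_nat 1)
      refine h2.congr fun n => ?_
      simp
    have hε' : (0 : ENNReal) < ε := by exact_mod_cast hε
    obtain ⟨n, hn⟩ := (this.eventually (gt_mem_nhds hε')).exists
    calc μ s ≤ μ (K n) + ((n : ENNReal) + 1)⁻¹ := hKm n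
      _ ≤ μ (⋃ n, K n) + ε := by
        gcongr
        exact Set.subset_iUnion K n
  have hT : MeasurableSet (toMeasurable μ s) := measurableSet_toMeasurable μ s
  have hdiff : μ (toMeasurable μ s \ ⋃ n, K n) = 0 := by
    rw [measure_sdiff (hKsub.trans (subset_toMeasurable μ s)) hKmeas.nullMeasurableSet
      (measure_ne_top _ _), measure_toMeasurable]
    exact tsub_eq_zero_of_le hle
  have hae : s =ᵐ[μ] (⋃ n, K n : Set α) := by
    refine ae_eq_set.mpr ⟨?_, ?_⟩
    · exact measure_mono_null (Set.sdiff_subset_sdiff_left (subset_toMeasurable μ s)) hdiff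
    · rw [Set.sdiff_eq_empty.mpr hKsub]; simp
  exact (hKmeas.nullMeasurableSet).congr hae.symm

/-- Analytic sets are null-measurable for s-finite measures. -/
theorem nullMeasurableSet_of_analytic {α : Type*} [TopologicalSpace α] [PolishSpace α]
    [MeasurableSpace α] [BorelSpace α] (μ : Measure α) [SFinite μ] {s : Set α}
    (hs : AnalyticSet s) : NullMeasurableSet s μ := by
  have h := nullMeasurableSet_of_analytic_finite μ.toFinite hs
  exact h.mono_ac (absolutelyContinuous_toFinite μ)

end Pool.Agent.Helper83
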