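import Pool.Agent.Helper83.Star

set_option autoImplicit false

open MeasureTheory Set Topology Filter

namespace Pool.Agent.Helper83

lemma mp_prodProdProdComm {A B C D : Type*} [MeasureSpace A] [MeasureSpace B] [MeasureSpace C]
    [MeasureSpace D] [SigmaFinite (volume : Measure A)] [SigmaFinite (volume : Measure B)]
    [SigmaFinite (volume : Measure C)] [SigmaFinite (volume : Measure D)] :
    MeasurePreserving (fun z : (A × B) × (C × D) => ((z.1.1, z.2.1), (z.1.2, z.2.2)))
      volume volume := by
  have h1 : MeasurePreserving (MeasurableEquiv.prodAssoc : (A × B) × (C × D) ≃ᵐ _)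
      volume volume := measurePreserving_prodAssoc volume volume volume
  have h2 : MeasurePreserving (Prod.map (id : A → A)
      ((MeasurableEquiv.prodAssoc : (B × C) × D ≃ᵐ _).symm)) volume volume :=
    (MeasurePreserving.id volume).prod
      ((measurePreserving_prodAssoc volume volume volume).symm MeasurableEquiv.prodAssoc)
  have h3 : MeasurePreserving (Prod.map (id : A → A)
      (Prod.map (Prod.swap : B × C → C × B) (id : D → D))) volume volume :=
    (MeasurePreserving.id volume).prod
      (Measure.measurePreserving_swap.prod (MeasurePreserving.id volume))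
  have h4 : MeasurePreserving (Prod.map (id : A → A)
      (MeasurableEquiv.prodAssoc : (C × B) × D ≃ᵐ _)) volume volume :=
    (MeasurePreserving.id volume).prod (measurePreserving_prodAssoc volume volume volume)
  have h5 : MeasurePreserving (MeasurableEquiv.prodAssoc : (A × C) × (B × D) ≃ᵐ _).symm
      volume volume := (measurePreserving_prodAssoc volume volume volume).symm _
  exact h5.comp (h4.comp (h3.comp (h2.comp h1)))

lemma mp_cons {A : Type} [MeasureSpace A] [SigmaFinite (volume : Measure A)] (n : ℕ) :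
    MeasurePreserving (fun z : A × (Fin n → A) => (Fin.cons z.1 z.2 : Fin (n+1) → A))
      volume volume := by
  have h := (volume_preserving_piFinSuccAbove (fun _ : Fin (n+1) => A) 0).symm
  have heq : (fun z : A × (Fin n → A) => (Fin.cons z.1 z.2 : Fin (n+1) → A)) =
      ⇑(MeasurableEquiv.piFinSuccAbove (fun _ : Fin (n+1) => A) 0).symm := by
    funext z
    simp [MeasurableEquiv.piFinSuccAbove, Fin.insertNthEquiv]
  rw [heq]
  exact h

/-- Points of `ℝ^d`. -/
abbrev Pt (d : ℕ) := Fin d → ℝ

/-- Chains of points and parameters. -/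
abbrev Om (d n : ℕ) := (Fin (n+1) → Pt d) × (Fin n → ℝ)

/-- Adding a point and a parameter to a chain. -/
def consMap (d n : ℕ) (z : Om d n × (Pt d × ℝ)) : Om d (n+1) :=
  (Fin.cons z.2.1 z.1.1, Fin.cons z.2.2 z.1.2)

lemma mp_consMap (d n : ℕ) : MeasurePreserving (consMap d n) volume volume := by
  have h1 : MeasurePreserving (Prod.swap : Om d n × (Pt d × ℝ) → (Pt d × ℝ) × Om d n)
      volume volume := Measure.measurePreserving_swap
  have h2 := mp_prodProdProdComm (A := Pt d) (B := ℝ) (C := Fin (n+1) → Pt d) (D := Fin n → ℝ)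
  have h3 : MeasurePreserving (Prod.map
      (fun z : Pt d × (Fin (n+1) → Pt d) => (Fin.cons z.1 z.2 : Fin (n+2) → Pt d))
      (fun z : ℝ × (Fin n → ℝ) => (Fin.cons z.1 z.2 : Fin (n+1) → ℝ))) volume volume :=
    (mp_cons (n+1)).prod (mp_cons n)
  exact h3.comp (h2.comp h1)

/-- The last point of a chain. -/
def chainPt {d : ℕ} : (n : ℕ) → (Fin (n+1) → Pt d) → (Fin n → ℝ) → Pt d
  | 0, P, _ => P 0
  | n+1, P, u => (1 - u 0) • chainPt n (Fin.tail P) (Fin.tail u) + u 0 • P 0

lemma measurable_chainPt (d n : ℕ) :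
    Measurable (fun z : Om d n => chainPt n z.1 z.2) := by
  induction n with
  | zero =>
    have : Measurable (fun z : Om d 0 => z.1 0) := by fun_prop
    exact this
  | succ n ih =>
    have h1 : Measurable (fun z : Om d (n+1) => ((Fin.tail z.1, Fin.tail z.2) : Om d n)) := by
      apply Measurable.prodMk
      · rw [measurable_pi_iff]; intro i
        have : Measurable (fun z : Om d (n+1) => z.1 i.succ) := by fun_prop
        exact this
      · rw [measurable_pi_iff]; intro i
        have : Measurable (fun z : Om d (n+1) => z.2 i.succ) := by fun_prop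
        exact this
    have h2 := ih.comp h1
    have h3 : Measurable (fun z : Om d (n+1) => z.2 0) := by fun_prop
    have h4 : Measurable (fun z : Om d (n+1) => z.1 0) := by fun_prop
    simp only [chainPt]
    exact ((measurable_const.sub h3).smul h2).add (h3.smul h4)

/-- Valid chains. -/
def chainSet {d : ℕ} (S T : Set (Pt d)) : (n : ℕ) → Set (Om d n)
  | 0 => {p | p.1 0 ∈ T}
  | n+1 => {p | ((Fin.tail p.1, Fin.tail p.2) : Om d n) ∈ chainSet S T n ∧ p.1 0 ∈ T ∧
      segment ℝ (chainPt n (Fin.tail p.1) (Fin.tail p.2)) (p.1 0) ⊆ S ∧ p.2 0 ∈ Icc (0:ℝ) (1/2)}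

lemma mem_chainSet_cons {d n : ℕ} (S T : Set (Pt d)) (z : Om d n × (Pt d × ℝ)) :
    consMap d n z ∈ chainSet S T (n+1) ↔ z.1 ∈ chainSet S T n ∧ z.2.1 ∈ T ∧
      segment ℝ (chainPt n z.1.1 z.1.2) z.2.1 ⊆ S ∧ z.2.2 ∈ Icc (0:ℝ) (1/2) := by
  simp [consMap, chainSet]

lemma chainPt_cons {d n : ℕ} (z : Om d n × (Pt d × ℝ)) :
    chainPt (n+1) (consMap d n z).1 (consMap d n z).2 =
      (1 - z.2.2) • chainPt n z.1.1 z.1.2 + z.2.2 • z.2.1 := by
  simp [consMap, chainPt]

lemma chainPt_mem {d n : ℕ} {S T : Set (Pt d)} (hTS : T ⊆ S) (z : Om d n)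
    (hz : z ∈ chainSet S T n) : chainPt n z.1 z.2 ∈ S := by
  cases n with
  | zero => exact hTS hz
  | succ n =>
    obtain ⟨_, _, h3, h4⟩ := hz
    apply h3
    refine ⟨1 - z.2 0, z.2 0, by linarith [h4.2], h4.1, by ring, rfl⟩

lemma um_chainSet {d : ℕ} {S T : Set (Pt d)} (hS : MeasurableSet S) (hT : MeasurableSet T)
    (n : ℕ) : UM (chainSet S T n) := by
  induction n with
  | zero =>
    have : Measurable (fun z : Om d 0 => z.1 0) := by fun_prop
    exact (UM.of_measurable hT).preimage this
  | succ n ih =>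
    have h1 : Measurable (fun z : Om d (n+1) => ((Fin.tail z.1, Fin.tail z.2) : Om d n)) := by
      apply Measurable.prodMk
      · rw [measurable_pi_iff]; intro i
        have : Measurable (fun z : Om d (n+1) => z.1 i.succ) := by fun_prop
        exact this
      · rw [measurable_pi_iff]; intro i
        have : Measurable (fun z : Om d (n+1) => z.2 i.succ) := by fun_prop
        exact this
    have h2 : Measurable (fun z : Om d (n+1) => z.1 0) := by fun_prop
    have h3 : Measurable (fun z : Om d (n+1) => z.2 0) := by fun_prop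
    have h4 : Measurable (fun z : Om d (n+1) => (chainPt n (Fin.tail z.1) (Fin.tail z.2), z.1 0)) :=
      ((measurable_chainPt d n).comp h1).prodMk h2
    exact (ih.preimage h1).inter (((UM.of_measurable hT).preimage h2).inter
      (((um_vis hS).preimage h4).inter ((UM.of_measurable measurableSet_Icc).preimage h3)))

/-- The amount of `T` visible from a point. -/
noncomputable def visN {d : ℕ} (S T : Set (Pt d)) (x : Pt d) : ENNReal :=
  volume {Q | Q ∈ T ∧ segment ℝ x Q ⊆ S}

lemma aemeasurable_section {α β : Type*} [MeasurableSpace α] [MeasurableSpace β] (μ : Measure α)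
    (ν : Measure β) [SFinite μ] [SFinite ν] {W : Set (α × β)} (hW : UM W) :
    AEMeasurable (fun x => ν (Prod.mk x ⁻¹' W)) μ := by
  obtain ⟨t, hts, htm, hae⟩ := (hW (μ.prod ν)).exists_measurable_superset_ae_eq
  refine ⟨fun x => ν (Prod.mk x ⁻¹' t), measurable_measure_prodMk_left htm, ?_⟩
  have h1 : ∀ᵐ x ∂μ, ∀ᵐ y ∂ν, (x, y) ∈ t ↔ (x, y) ∈ W := by
    have := Measure.ae_ae_of_ae_prod (μ := μ) (ν := ν) (p := fun z => z ∈ t ↔ z ∈ W)
      (by filter_upwards [hae] with z hz; exact iff_of_eq hz)
    exact this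
  filter_upwards [h1] with x hx
  apply measure_congr
  filter_upwards [hx] with y hy
  exact propext hy.symm

lemma um_section_lt {α β : Type*} [MeasurableSpace α] [MeasurableSpace β]
    (ν : Measure β) [SFinite ν] {W : Set (α × β)} (hW : UM W) (t : ENNReal) :
    UM {x | ν (Prod.mk x ⁻¹' W) < t} := by
  intro μ _
  exact (aemeasurable_section μ ν hW).nullMeasurable measurableSet_Iio

lemma um_visRel {d : ℕ} {S T : Set (Pt d)} (hS : MeasurableSet S) (hT : MeasurableSet T) :
    UM {p : Pt d × Pt d | p.2 ∈ T ∧ segment ℝ p.1 p.2 ⊆ S} :=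
  ((UM.of_measurable hT).preimage measurable_snd).inter (um_vis hS)

lemma um_visN_lt {d : ℕ} {S T : Set (Pt d)} (hS : MeasurableSet S) (hT : MeasurableSet T)
    (t : ENNReal) : UM {x : Pt d | visN S T x < t} :=
  um_section_lt volume (um_visRel hS hT) t

end Pool.Agent.Helper83
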