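import Pool.Agent.Helper83.Chain1

set_option autoImplicit false

open MeasureTheory Set Topology Filter

namespace Pool.Agent.Helper83

lemma hom_vol {d : ℕ} {s : ℝ} (hs : s ∈ Icc (0:ℝ) (1/2)) (Q : Pt d) (B : Set (Pt d)) :
    volume {x : Pt d | (1 - s) • x + s • Q ∈ B} ≤ 2 ^ d * volume B := by
  have h0 : (1 - s) ≠ 0 := by linarith [hs.2]
  have hset : {x : Pt d | (1 - s) • x + s • Q ∈ B} =
      (fun x => (1 - s) • x) ⁻¹' ((fun x => x + s • Q) ⁻¹' B) := rfl
  rw [hset, Measure.addHaar_preimage_smul _ h0, measure_preimage_add_right]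
  gcongr
  rw [Module.finrank_fin_fun]
  have h1 : (1:ℝ)/2 ≤ 1 - s := by linarith [hs.2]
  have h2 : |((1 - s) ^ d)⁻¹| ≤ 2 ^ d := by
    rw [abs_of_nonneg (by positivity), ← inv_pow]
    gcongr
    rw [inv_le_comm₀ (by linarith) (by norm_num)]
    linarith
  calc ENNReal.ofReal |((1 - s) ^ d)⁻¹| ≤ ENNReal.ofReal (2 ^ d) := ENNReal.ofReal_le_ofReal h2
    _ = 2 ^ d := by rw [ENNReal.ofReal_pow (by norm_num)]; simp

instance isProb_pi_zero : IsProbabilityMeasure (volume : Measure (Fin 0 → ℝ)) := by
  constructor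
  rw [volume_pi, Measure.pi_of_empty]
  simp

lemma mp_head (d : ℕ) : MeasurePreserving (fun z : Om d 0 => z.1 0) volume volume := by
  have h1 : MeasurePreserving (Prod.fst : Om d 0 → (Fin 1 → Pt d)) volume volume :=
    measurePreserving_fst
  have h2 := volume_preserving_funUnique (Fin 1) (Pt d)
  exact h2.comp h1

lemma chain_density {d : ℕ} {S T : Set (Pt d)} (hS : MeasurableSet S) (hT : MeasurableSet T)
    (hT1 : volume T ≤ 1) (n : ℕ) (B : Set (Pt d)) :
    volume (chainSet S T n ∩ {z | chainPt n z.1 z.2 ∈ B}) ≤ (2 ^ d) ^ n * volume B := by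
  induction n generalizing B with
  | zero =>
    have h1 : chainSet S T 0 ∩ {z : Om d 0 | chainPt 0 z.1 z.2 ∈ B} ⊆
        (fun z : Om d 0 => z.1 0) ⁻¹' (toMeasurable volume B) := by
      rintro z ⟨_, hz⟩
      exact subset_toMeasurable volume B hz
    refine (measure_mono h1).trans ?_
    rw [(mp_head d).measure_preimage (measurableSet_toMeasurable _ _).nullMeasurableSet,
      measure_toMeasurable]
    simp
  | succ n ih =>
    -- reduce to measurable `B`
    wlog hB : MeasurableSet B with H
    · have := H hS hT hT1 n ih (toMeasurable volume B) (measurableSet_toMeasurable _ _)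
      rw [measure_toMeasurable] at this
      refine le_trans (measure_mono ?_) this
      exact inter_subset_inter_right _ (fun z hz => subset_toMeasurable volume B hz)
    set A := chainSet S T (n+1) ∩ {z : Om d (n+1) | chainPt (n+1) z.1 z.2 ∈ B} with hA
    have hAum : UM A := (um_chainSet hS hT (n+1)).inter
      ((UM.of_measurable hB).preimage (measurable_chainPt d (n+1)))
    rw [← (mp_consMap d n).measure_preimage (hAum volume)]
    have hum2 : UM (consMap d n ⁻¹' A) := hAum.preimage (mp_consMap d n).measurable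
    have hprod : (volume : Measure (Om d n × (Pt d × ℝ))) = (volume : Measure (Om d n)).prod volume := rfl
    rw [hprod, prod_apply_symm_um _ _ (hum2 _)]
    have hbound : ∀ y : Pt d × ℝ, volume ((fun x => (x, y)) ⁻¹' (consMap d n ⁻¹' A)) ≤
        (T ×ˢ Icc (0:ℝ) (1/2)).indicator (fun _ => (2 ^ d) ^ (n+1) * volume B) y := by
      intro y
      by_cases hy : y ∈ T ×ˢ Icc (0:ℝ) (1/2)
      · rw [indicator_of_mem hy]
        have hsub : ((fun x => (x, y)) ⁻¹' (consMap d n ⁻¹' A)) ⊆
            chainSet S T n ∩ {z | chainPt n z.1 z.2 ∈ {x | (1 - y.2) • x + y.2 • y.1 ∈ B}} := by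
          intro w hw
          have h1 := (mem_chainSet_cons S T (w, y)).mp hw.1
          refine ⟨h1.1, ?_⟩
          have h2 : chainPt (n+1) (consMap d n (w, y)).1 (consMap d n (w, y)).2 ∈ B := hw.2
          rw [chainPt_cons] at h2
          exact h2
        refine (measure_mono hsub).trans ((ih _).trans ?_)
        rw [pow_succ, mul_assoc]
        gcongr
        exact hom_vol hy.2 _ _
      · rw [indicator_of_notMem hy]
        have hempty : ((fun x => (x, y)) ⁻¹' (consMap d n ⁻¹' A)) = ∅ := by
          rw [Set.eq_empty_iff_forall_notMem]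
          intro w hw
          have h1 := (mem_chainSet_cons S T (w, y)).mp hw.1
          exact hy ⟨h1.2.1, h1.2.2.2⟩
        rw [hempty]; simp
    calc ∫⁻ y, volume ((fun x => (x, y)) ⁻¹' (consMap d n ⁻¹' A))
        ≤ ∫⁻ y, (T ×ˢ Icc (0:ℝ) (1/2)).indicator (fun _ => (2 ^ d) ^ (n+1) * volume B) y :=
          lintegral_mono hbound
      _ = ((2 ^ d) ^ (n+1) * volume B) * volume (T ×ˢ Icc (0:ℝ) (1/2)) := by
          rw [lintegral_indicator_const (hT.prod measurableSet_Icc)]
      _ ≤ ((2 ^ d) ^ (n+1) * volume B) * 1 := by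
          gcongr
          have : (volume : Measure (Pt d × ℝ)) = (volume : Measure (Pt d)).prod volume := rfl
          rw [this, Measure.prod_prod, Real.volume_Icc]
          calc volume T * ENNReal.ofReal (1/2 - 0) ≤ 1 * 1 := by
                gcongr
                rw [ENNReal.ofReal_le_one]; norm_num
            _ = 1 := one_mul 1
      _ = (2 ^ d) ^ (n+1) * volume B := mul_one _

lemma chain_lowN {d : ℕ} {S T : Set (Pt d)} (hS : MeasurableSet S) (hT : MeasurableSet T)
    (hS1 : volume S ≤ 1) (hTS : T ⊆ S) (n : ℕ) (t : ENNReal) :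
    volume (chainSet S T (n+1) ∩ {z | visN S T (chainPt (n+1) z.1 z.2) < t}) ≤
      (2 ^ d) ^ (n+1) * t := by
  have hT1 : volume T ≤ 1 := (measure_mono hTS).trans hS1
  set A := chainSet S T (n+1) ∩ {z : Om d (n+1) | visN S T (chainPt (n+1) z.1 z.2) < t} with hA
  have hAum : UM A := (um_chainSet hS hT (n+1)).inter
    ((um_visN_lt hS hT t).preimage (measurable_chainPt d (n+1)))
  rw [← (mp_consMap d n).measure_preimage (hAum volume)]
  have hum2 : UM (consMap d n ⁻¹' A) := hAum.preimage (mp_consMap d n).measurable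
  have hprod : (volume : Measure (Om d n × (Pt d × ℝ))) = (volume : Measure (Om d n)).prod volume := rfl
  rw [hprod, prod_apply_symm_um _ _ (hum2 _)]
  set W : Set (Pt d × Pt d) := {p | (p.2 ∈ T ∧ segment ℝ p.1 p.2 ⊆ S) ∧ visN S T p.1 < t} with hW
  have hWum : UM W := (um_visRel hS hT).inter ((um_visN_lt hS hT t).preimage measurable_fst)
  have hbound : ∀ y : Pt d × ℝ, volume ((fun x => (x, y)) ⁻¹' (consMap d n ⁻¹' A)) ≤
      ((2 ^ d) ^ (n+1) * volume ((fun z => (z, y.1)) ⁻¹' W)) *
        (Icc (0:ℝ) (1/2)).indicator (fun _ => (1 : ENNReal)) y.2 := by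
    intro y
    by_cases hy : y.1 ∈ T ∧ y.2 ∈ Icc (0:ℝ) (1/2)
    · rw [indicator_of_mem hy.2, mul_one]
      have hsub : ((fun x => (x, y)) ⁻¹' (consMap d n ⁻¹' A)) ⊆
          chainSet S T n ∩ {z | chainPt n z.1 z.2 ∈ {x | (1 - y.2) • x + y.2 • y.1 ∈
            ((fun z => (z, y.1)) ⁻¹' W)}} := by
        intro w hw
        have h1 := (mem_chainSet_cons S T (w, y)).mp hw.1
        refine ⟨h1.1, ?_⟩
        have h2 : visN S T (chainPt (n+1) (consMap d n (w, y)).1 (consMap d n (w, y)).2) < t := hw.2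
        rw [chainPt_cons] at h2
        refine ⟨⟨hy.1, ?_⟩, h2⟩
        refine Set.Subset.trans ?_ h1.2.2.1
        apply (convex_segment _ _).segment_subset
        · refine ⟨1 - y.2, y.2, by linarith [hy.2.2], hy.2.1, by ring, rfl⟩
        · exact right_mem_segment _ _ _
      refine (measure_mono hsub).trans ((chain_density hS hT hT1 n _).trans ?_)
      rw [pow_succ, mul_assoc]
      gcongr
      exact hom_vol hy.2 _ _
    · have hempty : ((fun x => (x, y)) ⁻¹' (consMap d n ⁻¹' A)) = ∅ := by
        rw [Set.eq_empty_iff_forall_notMem]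
        intro w hw
        have h1 := (mem_chainSet_cons S T (w, y)).mp hw.1
        exact hy ⟨h1.2.1, h1.2.2.2⟩
      rw [hempty]; simp
  have hWm : AEMeasurable (fun Q : Pt d => volume ((fun z => (z, Q)) ⁻¹' W)) volume := by
    have := aemeasurable_section (volume : Measure (Pt d)) (volume : Measure (Pt d))
      (hWum.preimage (measurable_swap (α := Pt d) (β := Pt d)))
    exact this
  have hW1 : ∫⁻ Q : Pt d, volume ((fun z => (z, Q)) ⁻¹' W) ≤ t := by
    rw [← prod_apply_symm_um _ _ (hWum _), prod_apply_um _ _ (hWum _)]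
    calc ∫⁻ z, volume (Prod.mk z ⁻¹' W) ≤ ∫⁻ z, S.indicator (fun _ => t) z := by
          apply lintegral_mono
          intro z
          show volume (Prod.mk z ⁻¹' W) ≤ S.indicator (fun _ => t) z
          by_cases hz : (Prod.mk z ⁻¹' W).Nonempty
          · obtain ⟨Q, hQ⟩ := hz
            have hzS : z ∈ S := hQ.1.2 (left_mem_segment _ _ _)
            rw [indicator_of_mem hzS]
            refine le_trans (measure_mono ?_) hQ.2.le
            intro Q' hQ'
            exact hQ'.1
          · rw [Set.not_nonempty_iff_eq_empty.mp hz]; simp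
      _ = t * volume S := by rw [lintegral_indicator_const hS]
      _ ≤ t * 1 := by gcongr
      _ = t := mul_one t
  calc ∫⁻ y, volume ((fun x => (x, y)) ⁻¹' (consMap d n ⁻¹' A))
      ≤ ∫⁻ y : Pt d × ℝ, ((2 ^ d) ^ (n+1) * volume ((fun z => (z, y.1)) ⁻¹' W)) *
        (Icc (0:ℝ) (1/2)).indicator (fun _ => (1 : ENNReal)) y.2 := lintegral_mono hbound
    _ = (∫⁻ Q : Pt d, (2 ^ d) ^ (n+1) * volume ((fun z => (z, Q)) ⁻¹' W)) *
        (∫⁻ s : ℝ, (Icc (0:ℝ) (1/2)).indicator (fun _ => (1 : ENNReal)) s) := by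
        exact lintegral_prod_mul (hWm.const_mul _)
          ((measurable_const.indicator measurableSet_Icc).aemeasurable)
    _ ≤ ((2 ^ d) ^ (n+1) * t) * 1 := by
        gcongr
        · rw [lintegral_const_mul'' _ hWm]
          gcongr
        · rw [lintegral_indicator_const measurableSet_Icc, Real.volume_Icc, one_mul,
            ENNReal.ofReal_le_one]
          norm_num
    _ = (2 ^ d) ^ (n+1) * t := mul_one _

lemma chain_mass_step {d : ℕ} {S T : Set (Pt d)} (hS : MeasurableSet S) (hT : MeasurableSet T)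
    (n : ℕ) (t : ENNReal) :
    t / 2 * volume (chainSet S T n ∩ {z | t ≤ visN S T (chainPt n z.1 z.2)}) ≤
      volume (chainSet S T (n+1)) := by
  have hAum : UM (chainSet S T (n+1)) := um_chainSet hS hT (n+1)
  rw [← (mp_consMap d n).measure_preimage (hAum volume)]
  have hum2 : UM (consMap d n ⁻¹' (chainSet S T (n+1))) := hAum.preimage (mp_consMap d n).measurable
  have hprod : (volume : Measure (Om d n × (Pt d × ℝ))) = (volume : Measure (Om d n)).prod volume := rfl
  rw [hprod, prod_apply_um _ _ (hum2 _)]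
  have hA' : UM (chainSet S T n ∩ {z | t ≤ visN S T (chainPt n z.1 z.2)}) := by
    have : {z : Om d n | t ≤ visN S T (chainPt n z.1 z.2)} =
        ((fun z : Om d n => chainPt n z.1 z.2) ⁻¹' {x | visN S T x < t})ᶜ := by
      ext z; simp
    rw [this]
    exact (um_chainSet hS hT n).inter ((um_visN_lt hS hT t).preimage (measurable_chainPt d n)).compl
  rw [← lintegral_indicator_const₀ (hA' volume)]
  apply lintegral_mono
  intro w
  show (chainSet S T n ∩ {z | t ≤ visN S T (chainPt n z.1 z.2)}).indicator (fun _ => t / 2) w ≤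
    volume (Prod.mk w ⁻¹' (consMap d n ⁻¹' (chainSet S T (n+1))))
  by_cases hw : w ∈ chainSet S T n ∩ {z | t ≤ visN S T (chainPt n z.1 z.2)}
  · rw [indicator_of_mem hw]
    have hset : (Prod.mk w ⁻¹' (consMap d n ⁻¹' (chainSet S T (n+1)))) =
        {Q | Q ∈ T ∧ segment ℝ (chainPt n w.1 w.2) Q ⊆ S} ×ˢ Icc (0:ℝ) (1/2) := by
      ext y
      have := mem_chainSet_cons S T (w, y)
      simp only [mem_preimage, mem_prod, mem_ofPred_eq]
      rw [this]
      simp only [hw.1, true_and, and_assoc]
    rw [hset]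
    have : (volume : Measure (Pt d × ℝ)) = (volume : Measure (Pt d)).prod volume := rfl
    rw [this, Measure.prod_prod, Real.volume_Icc]
    have h2 : ENNReal.ofReal (1/2 - 0) = 1/2 := by
      rw [sub_zero, ENNReal.ofReal_div_of_pos (by norm_num)]; simp
    rw [h2, div_eq_mul_one_div t 2]
    gcongr
    exact hw.2
  · rw [indicator_of_notMem hw]; exact zero_le

end Pool.Agent.Helper83
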