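import Pool.Agent.Helper83.Chain2

set_option autoImplicit false

open MeasureTheory Set Topology Filter

namespace Pool.Agent.Helper83

lemma enn_half_le {m x : ENNReal} (hm : m ≠ ⊤) (h : m ≤ m / 2 + x) : m / 2 ≤ x := by
  have h1 : m / 2 ≠ ⊤ := (ENNReal.div_lt_top hm (by norm_num)).ne
  have h2 : m / 2 + m / 2 ≤ m / 2 + x := by rwa [ENNReal.add_halves]
  exact (ENNReal.add_le_add_iff_left h1).mp h2

/-- Lower bound for the mass of valid chains. -/
lemma chain_mass (d : ℕ) (e : ENNReal) (he : e ≠ 0) (he1 : e ≠ ⊤) (n : ℕ) :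
    ∃ m : ENNReal, m ≠ 0 ∧ m ≠ ⊤ ∧ ∀ S T : Set (Pt d), MeasurableSet S → MeasurableSet T →
      T ⊆ S → volume S ≤ 1 →
      e ≤ volume {p : Pt d × Pt d | p.1 ∈ T ∧ (p.2 ∈ T ∧ segment ℝ p.1 p.2 ⊆ S)} →
      m ≤ volume (chainSet S T (n+1)) := by
  induction n with
  | zero =>
    have he2 : e / 2 ≠ 0 := ENNReal.div_ne_zero.mpr ⟨he, by norm_num⟩
    have he3 : e / 2 ≠ ⊤ := (ENNReal.div_lt_top he1 (by norm_num)).ne
    have he4 : e / 2 / 2 ≠ 0 := ENNReal.div_ne_zero.mpr ⟨he2, by norm_num⟩
    have he5 : e / 2 / 2 ≠ ⊤ := (ENNReal.div_lt_top he3 (by norm_num)).ne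
    refine ⟨e / 2 / 2 * (e / 2), mul_ne_zero he4 he2, ENNReal.mul_ne_top he5 he3, ?_⟩
    intro S T hS hT hTS hS1 hG
    refine le_trans ?_ (chain_mass_step hS hT 0 (e / 2))
    gcongr
    have hT1 : volume T ≤ 1 := (measure_mono hTS).trans hS1
    have hWum : UM {p : Pt d × Pt d | p.1 ∈ T ∧ (p.2 ∈ T ∧ segment ℝ p.1 p.2 ⊆ S)} :=
      ((UM.of_measurable hT).preimage measurable_fst).inter (um_visRel hS hT)
    have hprod : (volume : Measure (Pt d × Pt d)) = (volume : Measure (Pt d)).prod volume := rfl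
    rw [hprod, prod_apply_um _ _ (hWum _)] at hG
    have hAum : UM (T ∩ {x | e / 2 ≤ visN S T x}) := by
      have : {x : Pt d | e / 2 ≤ visN S T x} = {x | visN S T x < e / 2}ᶜ := by
        ext z; simp
      rw [this]
      exact (UM.of_measurable hT).inter (um_visN_lt hS hT _).compl
    have hset : chainSet S T 0 ∩ {z : Om d 0 | e / 2 ≤ visN S T (chainPt 0 z.1 z.2)} =
        (fun z : Om d 0 => z.1 0) ⁻¹' (T ∩ {x | e / 2 ≤ visN S T x}) := rfl
    rw [hset, (mp_head d).measure_preimage (hAum volume)]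
    apply enn_half_le he1
    calc e ≤ _ := hG
      _ ≤ ∫⁻ x : Pt d, (T.indicator (fun _ => e / 2) x +
            (T ∩ {x | e / 2 ≤ visN S T x}).indicator (fun _ => (1 : ENNReal)) x) := by
          apply lintegral_mono
          intro x
          show volume (Prod.mk x ⁻¹' {p : Pt d × Pt d | p.1 ∈ T ∧ (p.2 ∈ T ∧ segment ℝ p.1 p.2 ⊆ S)}) ≤
            T.indicator (fun _ => e / 2) x +
            (T ∩ {x | e / 2 ≤ visN S T x}).indicator (fun _ => (1 : ENNReal)) x
          by_cases hx : x ∈ T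
          · rw [indicator_of_mem hx]
            have h1 : (Prod.mk x ⁻¹' {p : Pt d × Pt d | p.1 ∈ T ∧ (p.2 ∈ T ∧ segment ℝ p.1 p.2 ⊆ S)})
              = {Q | Q ∈ T ∧ segment ℝ x Q ⊆ S} := by
              ext Q; simp [hx]
            rw [h1]
            by_cases hx2 : e / 2 ≤ visN S T x
            · rw [indicator_of_mem (show x ∈ T ∩ {x | e / 2 ≤ visN S T x} from ⟨hx, hx2⟩)]
              refine le_trans ?_ le_add_self
              refine le_trans (measure_mono ?_) hT1
              intro Q hQ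
              exact hQ.1
            · rw [indicator_of_notMem (show x ∉ T ∩ {x | e / 2 ≤ visN S T x} from fun h => hx2 h.2),
                add_zero]
              push Not at hx2
              exact hx2.le
          · have h1 : (Prod.mk x ⁻¹' {p : Pt d × Pt d | p.1 ∈ T ∧ (p.2 ∈ T ∧ segment ℝ p.1 p.2 ⊆ S)})
              = ∅ := by
              ext Q; simp [hx]
            rw [h1]; simp
      _ = e / 2 * volume T + 1 * volume (T ∩ {x | e / 2 ≤ visN S T x}) := by
          rw [lintegral_add_left (measurable_const.indicator hT), lintegral_indicator_const hT,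
            lintegral_indicator_const₀ (hAum volume)]
      _ ≤ e / 2 * 1 + 1 * volume (T ∩ {x | e / 2 ≤ visN S T x}) := by gcongr
      _ = e / 2 + volume (T ∩ {x | e / 2 ≤ visN S T x}) := by rw [mul_one, one_mul]
  | succ n ih =>
    obtain ⟨m, hm0, hmt, hm⟩ := ih
    set C : ENNReal := (2 ^ d) ^ (n+1) with hC
    have hC0 : C ≠ 0 := by positivity
    have hCt : C ≠ ⊤ := by
      rw [hC, ← pow_mul]; exact ENNReal.pow_ne_top (by norm_num)
    have hm2 : m / 2 ≠ 0 := ENNReal.div_ne_zero.mpr ⟨hm0, by norm_num⟩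
    have hm3 : m / 2 ≠ ⊤ := (ENNReal.div_lt_top hmt (by norm_num)).ne
    have ht0 : m / 2 / C ≠ 0 := ENNReal.div_ne_zero.mpr ⟨hm2, hCt⟩
    have htt : m / 2 / C ≠ ⊤ := (ENNReal.div_lt_top hm3 hC0).ne
    refine ⟨m / 2 / C / 2 * (m / 2), mul_ne_zero (ENNReal.div_ne_zero.mpr ⟨ht0, by norm_num⟩) hm2,
      ENNReal.mul_ne_top (ENNReal.div_lt_top htt (by norm_num)).ne hm3, ?_⟩
    intro S T hS hT hTS hS1 hG
    refine le_trans ?_ (chain_mass_step hS hT (n+1) (m / 2 / C))
    gcongr
    apply enn_half_le hmt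
    have h1 := hm S T hS hT hTS hS1 hG
    have h2 := chain_lowN hS hT hS1 hTS n (m / 2 / C)
    calc m ≤ volume (chainSet S T (n+1)) := h1
      _ ≤ volume ((chainSet S T (n+1) ∩ {z | visN S T (chainPt (n+1) z.1 z.2) < m / 2 / C}) ∪
            (chainSet S T (n+1) ∩ {z | m / 2 / C ≤ visN S T (chainPt (n+1) z.1 z.2)})) := by
          apply measure_mono
          intro z hz
          rcases lt_or_ge (visN S T (chainPt (n+1) z.1 z.2)) (m / 2 / C) with h | h
          · exact Or.inl ⟨hz, h⟩
          · exact Or.inr ⟨hz, h⟩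
      _ ≤ _ := measure_union_le _ _
      _ ≤ m / 2 + volume (chainSet S T (n+1) ∩ {z | m / 2 / C ≤ visN S T (chainPt (n+1) z.1 z.2)}) := by
          gcongr
          refine h2.trans ?_
          rw [ENNReal.mul_div_cancel hC0 hCt]

/-- The coefficients of the earlier points in a chain point. -/
def chainCoef : (n : ℕ) → (Fin n → ℝ) → (Fin n → ℝ)
  | 0, _ => fun i => i.elim0
  | n+1, u => Fin.cons (u 0) (fun i => (1 - u 0) * chainCoef n (Fin.tail u) i)

lemma measurable_chainCoef (n : ℕ) : Measurable (chainCoef n) := by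
  induction n with
  | zero => exact measurable_const
  | succ n ih =>
    rw [measurable_pi_iff]
    intro i
    refine Fin.cases ?_ (fun j => ?_) i
    · simp only [chainCoef, Fin.cons_zero]; fun_prop
    · simp only [chainCoef, Fin.cons_succ]
      have h1 : Measurable (fun u : Fin (n+1) → ℝ => Fin.tail u) := by
        rw [measurable_pi_iff]; intro k
        have : Measurable (fun z : Fin (n+1) → ℝ => z k.succ) := by fun_prop
        exact this
      have h2 := (measurable_pi_iff.mp (ih.comp h1)) j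
      simp only [Function.comp_def] at h2
      have h3 : Measurable (fun z : Fin (n+1) → ℝ => z 0) := by fun_prop
      exact (measurable_const.sub h3).mul h2

lemma chainPt_eq_coef {d : ℕ} (n : ℕ) (P : Fin (n+1) → Pt d) (u : Fin n → ℝ) :
    chainPt n P u = P (Fin.last n) + ∑ j : Fin n, chainCoef n u j • (P j.castSucc - P (Fin.last n)) := by
  induction n with
  | zero => simp [chainPt]
  | succ n ih =>
    rw [chainPt, ih, Fin.sum_univ_succ]
    simp only [chainCoef, Fin.cons_zero, Fin.cons_succ, Fin.tail]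
    have h1 : (Fin.last n).succ = Fin.last (n+1) := rfl
    have h2 : ∀ j : Fin n, (Fin.castSucc j).succ = (Fin.succ j).castSucc := fun j => rfl
    simp only [h1, h2, Fin.castSucc_zero, mul_smul, ← Finset.smul_sum]
    rw [smul_add, smul_sub, sub_smul, one_smul]
    abel

lemma swept_coef (n : ℕ) {B : Set (Fin n → ℝ)} (hB : MeasurableSet B) :
    volume {u : Fin n → ℝ | (∀ i, u i ∈ Icc (0:ℝ) (1/2)) ∧ chainCoef n u ∈ B} ≤
      2 ^ (n * n) * volume B := by
  induction n with
  | zero =>
    simp only [mul_zero, pow_zero, one_mul]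
    apply measure_mono
    rintro u ⟨_, hu⟩
    have : u = chainCoef 0 u := Subsingleton.elim _ _
    rw [this]; exact hu
  | succ n ih =>
    set A := {u : Fin (n+1) → ℝ | (∀ i, u i ∈ Icc (0:ℝ) (1/2)) ∧ chainCoef (n+1) u ∈ B} with hA
    have hAm : MeasurableSet A := by
      apply MeasurableSet.inter
      · have : {u : Fin (n+1) → ℝ | ∀ i, u i ∈ Icc (0:ℝ) (1/2)} = Set.pi univ (fun _ => Icc (0:ℝ) (1/2)) := by
          ext u; simp only [Set.mem_pi, mem_univ, true_implies, mem_ofPred_eq]
        change MeasurableSet {u : Fin (n+1) → ℝ | ∀ i, u i ∈ Icc (0:ℝ) (1/2)}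
        rw [this]
        exact MeasurableSet.univ_pi (fun _ => measurableSet_Icc)
      · exact measurable_chainCoef (n+1) hB
    rw [← (mp_cons (A := ℝ) n).measure_preimage hAm.nullMeasurableSet]
    have hprod : (volume : Measure (ℝ × (Fin n → ℝ))) = (volume : Measure ℝ).prod volume := rfl
    have hcm := (mp_cons (A := ℝ) n).measurable
    rw [hprod, Measure.prod_apply (hcm hAm)]
    have hBm' : MeasurableSet ((fun z : ℝ × (Fin n → ℝ) => (Fin.cons z.1 z.2 : Fin (n+1) → ℝ)) ⁻¹' B) :=
      hcm hB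
    calc ∫⁻ s : ℝ, volume (Prod.mk s ⁻¹' ((fun z : ℝ × (Fin n → ℝ) => (Fin.cons z.1 z.2 : Fin (n+1) → ℝ)) ⁻¹' A))
        ≤ ∫⁻ s : ℝ, 2 ^ (n * n) * (2 ^ n * volume (Prod.mk s ⁻¹'
            ((fun z : ℝ × (Fin n → ℝ) => (Fin.cons z.1 z.2 : Fin (n+1) → ℝ)) ⁻¹' B))) := by
          apply lintegral_mono
          intro s
          show volume (Prod.mk s ⁻¹' ((fun z : ℝ × (Fin n → ℝ) => (Fin.cons z.1 z.2 : Fin (n+1) → ℝ)) ⁻¹' A))
            ≤ 2 ^ (n * n) * (2 ^ n * volume (Prod.mk s ⁻¹'
            ((fun z : ℝ × (Fin n → ℝ) => (Fin.cons z.1 z.2 : Fin (n+1) → ℝ)) ⁻¹' B)))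
          by_cases hs : s ∈ Icc (0:ℝ) (1/2)
          · set Bs : Set (Fin n → ℝ) := {y | (Fin.cons s y : Fin (n+1) → ℝ) ∈ B} with hBs
            have hBsm : MeasurableSet Bs := by
              have : Measurable (fun y : Fin n → ℝ => (s, y)) := by fun_prop
              exact this hBm'
            have hsub : (Prod.mk s ⁻¹' ((fun z : ℝ × (Fin n → ℝ) => (Fin.cons z.1 z.2 : Fin (n+1) → ℝ)) ⁻¹' A))
              ⊆ {u : Fin n → ℝ | (∀ i, u i ∈ Icc (0:ℝ) (1/2)) ∧ chainCoef n u ∈
                  {x : Pt n | (1 - s) • x + s • (0 : Pt n) ∈ Bs}} := by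
              intro u hu
              have hu1 : ∀ i, (Fin.cons s u : Fin (n+1) → ℝ) i ∈ Icc (0:ℝ) (1/2) := hu.1
              have hu2 : chainCoef (n+1) (Fin.cons s u) ∈ B := hu.2
              refine ⟨fun i => by simpa using hu1 i.succ, ?_⟩
              simp only [chainCoef, Fin.cons_zero, Fin.tail_cons] at hu2
              simp only [smul_zero, add_zero, hBs, mem_ofPred_eq]
              exact hu2
            refine (measure_mono hsub).trans ((ih ?_).trans ?_)
            · have : Measurable (fun x : Pt n => (1 - s) • x + s • (0 : Pt n)) := by fun_prop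
              exact this hBsm
            · gcongr
              exact hom_vol hs 0 Bs
          · have hempty : (Prod.mk s ⁻¹' ((fun z : ℝ × (Fin n → ℝ) => (Fin.cons z.1 z.2 : Fin (n+1) → ℝ)) ⁻¹' A)) = ∅ := by
              rw [Set.eq_empty_iff_forall_notMem]
              intro u hu
              have hu1 : ∀ i, (Fin.cons s u : Fin (n+1) → ℝ) i ∈ Icc (0:ℝ) (1/2) := hu.1
              exact hs (by simpa using hu1 0)
            rw [hempty]; simp
      _ = 2 ^ (n * n) * (2 ^ n * volume B) := by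
          rw [lintegral_const_mul _ (by
            apply Measurable.const_mul
            exact measurable_measure_prodMk_left hBm'), lintegral_const_mul _ (measurable_measure_prodMk_left hBm'),
            ← Measure.prod_apply hBm', ← hprod,
            (mp_cons (A := ℝ) n).measure_preimage hB.nullMeasurableSet]
      _ ≤ 2 ^ ((n+1) * (n+1)) * volume B := by
          rw [← mul_assoc, ← pow_add]
          gcongr
          · norm_num
          · nlinarith

end Pool.Agent.Helper83
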