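import Pool.Agent.Helper83.Chain3

set_option autoImplicit false

open MeasureTheory Set Topology Filter

namespace Pool.Agent.Helper83

lemma chainSet_param {d n : ℕ} {S T : Set (Pt d)} {z : Om d n} (hz : z ∈ chainSet S T n) :
    (∀ i, z.2 i ∈ Icc (0:ℝ) (1/2)) ∧ (∀ i, z.1 i ∈ T) := by
  induction n with
  | zero =>
    refine ⟨fun i => i.elim0, fun i => ?_⟩
    have : i = 0 := Fin.ext (by omega)
    rw [this]; exact hz
  | succ n ih =>
    obtain ⟨h1, h2, _, h4⟩ := hz
    have := ih h1
    refine ⟨fun i => ?_, fun i => ?_⟩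
    · refine Fin.cases h4 (fun j => this.1 j) i
    · refine Fin.cases h2 (fun j => this.2 j) i

/-- The matrix of difference vectors. -/
def diffMat {d : ℕ} (P : Fin (d+1) → Pt d) : Matrix (Fin d) (Fin d) ℝ :=
  Matrix.of fun j => P j.castSucc - P (Fin.last d)

lemma swept_chain {d : ℕ} {S T : Set (Pt d)} (hS : MeasurableSet S) (hS1 : volume S ≤ 1)
    (hTS : T ⊆ S) (P : Fin (d+1) → Pt d) :
    volume {u : Fin d → ℝ | ((P, u) : Om d d) ∈ chainSet S T d} * ENNReal.ofReal |(diffMat P).det| ≤
      2 ^ (d * d) := by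
  by_cases hdet : (diffMat P).det = 0
  · rw [hdet]; simp
  let L : Pt d →ₗ[ℝ] Pt d := Matrix.toLin' (diffMat P).transpose
  have hL : LinearMap.det L = (diffMat P).det := by
    simp [L, LinearMap.det_toLin', Matrix.det_transpose]
  have hLdet : LinearMap.det L ≠ 0 := by rw [hL]; exact hdet
  set S' : Set (Pt d) := (fun x => x + P (Fin.last d)) ⁻¹' S with hS'
  have hS'm : MeasurableSet S' := by
    have : Measurable (fun x : Pt d => x + P (Fin.last d)) := by fun_prop
    exact this hS
  set B : Set (Pt d) := L ⁻¹' S' with hB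
  have hLc : Continuous L := L.continuous_of_finiteDimensional
  have hBm : MeasurableSet B := hLc.measurable hS'm
  have hvolB : volume B = ENNReal.ofReal |(diffMat P).det⁻¹| * volume S := by
    rw [hB, Measure.addHaar_preimage_linearMap _ hLdet, hL, hS', measure_preimage_add_right]
  have hsub : {u : Fin d → ℝ | ((P, u) : Om d d) ∈ chainSet S T d} ⊆
      {u : Fin d → ℝ | (∀ i, u i ∈ Icc (0:ℝ) (1/2)) ∧ chainCoef d u ∈ B} := by
    intro u hu
    refine ⟨(chainSet_param hu).1, ?_⟩
    have h1 := chainPt_mem hTS _ hu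
    simp only at h1
    rw [chainPt_eq_coef] at h1
    show L (chainCoef d u) + P (Fin.last d) ∈ S
    have h2 : L (chainCoef d u) = ∑ j : Fin d, chainCoef d u j • (P j.castSucc - P (Fin.last d)) := by
      ext i
      simp [L, Matrix.toLin'_apply, Matrix.mulVec, dotProduct, diffMat, Matrix.transpose_apply,
        Finset.sum_apply, mul_comm]
    rw [h2, add_comm]
    exact h1
  calc volume {u : Fin d → ℝ | ((P, u) : Om d d) ∈ chainSet S T d} * ENNReal.ofReal |(diffMat P).det|
      ≤ (2 ^ (d * d) * volume B) * ENNReal.ofReal |(diffMat P).det| := by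
        gcongr
        exact (measure_mono hsub).trans (swept_coef d hBm)
    _ = 2 ^ (d * d) * (ENNReal.ofReal |(diffMat P).det⁻¹| * ENNReal.ofReal |(diffMat P).det|) *
        volume S := by rw [hvolB]; ring
    _ = 2 ^ (d * d) * volume S := by
        rw [← ENNReal.ofReal_mul (abs_nonneg _), ← abs_mul, inv_mul_cancel₀ hdet]
        simp
    _ ≤ 2 ^ (d * d) * 1 := by gcongr
    _ = 2 ^ (d * d) := mul_one _

lemma measurable_diffMat_det (d : ℕ) : Measurable (fun P : Fin (d+1) → Pt d => (diffMat P).det) := by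
  have : Continuous (fun P : Fin (d+1) → Pt d => (diffMat P).det) := by
    apply Continuous.matrix_det
    apply continuous_pi; intro j
    apply continuous_pi; intro i
    simp only [diffMat, Matrix.of_apply, Pi.sub_apply]
    fun_prop
  exact this.measurable

/-- Many tuples of good points have small determinant. -/
lemma chain_det (n : ℕ) (e : ENNReal) (he : e ≠ 0) (he1 : e ≠ ⊤) :
    ∃ m : ENNReal, m ≠ 0 ∧ m ≠ ⊤ ∧ ∃ V : ℝ, 0 < V ∧ ∀ S T : Set (Pt (n+1)), MeasurableSet S →
      MeasurableSet T → T ⊆ S → volume S ≤ 1 →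
      e ≤ volume {p : Pt (n+1) × Pt (n+1) | p.1 ∈ T ∧ (p.2 ∈ T ∧ segment ℝ p.1 p.2 ⊆ S)} →
      m ≤ volume {P : Fin (n+1+1) → Pt (n+1) | (∀ i, P i ∈ T) ∧ |(diffMat P).det| ≤ V} := by
  obtain ⟨m, hm0, hmt, hm⟩ := chain_mass (n+1) e he he1 n
  have hm2 : m / 2 ≠ 0 := ENNReal.div_ne_zero.mpr ⟨hm0, by norm_num⟩
  have hm3 : m / 2 ≠ ⊤ := (ENNReal.div_lt_top hmt (by norm_num)).ne
  set D : ENNReal := 2 ^ ((n+1) * (n+1)) with hD
  have hD0 : D ≠ 0 := by positivity
  have hDt : D ≠ ⊤ := ENNReal.pow_ne_top (by norm_num)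
  have hV0 : D / (m / 2) ≠ 0 := ENNReal.div_ne_zero.mpr ⟨hD0, hm3⟩
  have hVt : D / (m / 2) ≠ ⊤ := (ENNReal.div_lt_top hDt hm2).ne
  set V : ℝ := (D / (m / 2)).toReal with hV
  have hVpos : 0 < V := ENNReal.toReal_pos hV0 hVt
  refine ⟨m / 2, hm2, hm3, V, hVpos, ?_⟩
  intro S T hS hT hTS hS1 hG
  have h1 := hm S T hS hT hTS hS1 hG
  have hT1 : volume T ≤ 1 := (measure_mono hTS).trans hS1
  have hTpi : MeasurableSet {P : Fin (n+1+1) → Pt (n+1) | ∀ i, P i ∈ T} := by
    have : {P : Fin (n+1+1) → Pt (n+1) | ∀ i, P i ∈ T} = Set.pi univ (fun _ => T) := by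
      ext P; simp only [Set.mem_pi, mem_univ, true_implies, mem_ofPred_eq]
    rw [this]; exact MeasurableSet.univ_pi (fun _ => hT)
  have hTvol : volume {P : Fin (n+1+1) → Pt (n+1) | ∀ i, P i ∈ T} ≤ 1 := by
    have : {P : Fin (n+1+1) → Pt (n+1) | ∀ i, P i ∈ T} = Set.pi univ (fun _ => T) := by
      ext P; simp only [Set.mem_pi, mem_univ, true_implies, mem_ofPred_eq]
    rw [this, volume_pi_pi]
    exact Finset.prod_le_one' (fun _ _ => hT1)
  set G : Set (Fin (n+1+1) → Pt (n+1)) := {P | (∀ i, P i ∈ T) ∧ |(diffMat P).det| ≤ V} with hGdef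
  have hGm : MeasurableSet G := hTpi.inter
    (measurableSet_le ((measurable_diffMat_det (n+1)).abs) measurable_const)
  have hum : UM (chainSet S T (n+1)) := um_chainSet hS hT (n+1)
  have hprod : (volume : Measure (Om (n+1) (n+1))) =
    (volume : Measure (Fin (n+1+1) → Pt (n+1))).prod (volume : Measure (Fin (n+1) → ℝ)) := rfl
  rw [hprod, prod_apply_um _ _ (hum _)] at h1
  apply enn_half_le hmt
  calc m ≤ _ := h1
    _ ≤ ∫⁻ P, ({P : Fin (n+1+1) → Pt (n+1) | ∀ i, P i ∈ T}.indicator (fun _ => m / 2) P +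
          G.indicator (fun _ => (1 : ENNReal)) P) := by
        apply lintegral_mono
        intro P
        show volume (Prod.mk P ⁻¹' (chainSet S T (n+1))) ≤
          {P : Fin (n+1+1) → Pt (n+1) | ∀ i, P i ∈ T}.indicator (fun _ => m / 2) P +
          G.indicator (fun _ => (1 : ENNReal)) P
        by_cases hP : ∀ i, P i ∈ T
        · rw [indicator_of_mem (show P ∈ {P : Fin (n+1+1) → Pt (n+1) | ∀ i, P i ∈ T} from hP)]
          by_cases hP2 : |(diffMat P).det| ≤ V
          · rw [indicator_of_mem (show P ∈ G from ⟨hP, hP2⟩)]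
            refine le_trans ?_ le_add_self
            have hsub : (Prod.mk P ⁻¹' (chainSet S T (n+1))) ⊆
              Set.pi univ (fun _ : Fin (n+1) => Icc (0:ℝ) (1/2)) := by
              intro u hu i _
              exact (chainSet_param hu).1 i
            refine (measure_mono hsub).trans ?_
            rw [volume_pi_pi]
            apply Finset.prod_le_one'
            intro i _
            rw [Real.volume_Icc, ENNReal.ofReal_le_one]; norm_num
          · rw [indicator_of_notMem (show P ∉ G from fun h => hP2 h.2), add_zero]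
            push Not at hP2
            have hsw := swept_chain hS hS1 hTS P
            have hVle : D / (m / 2) ≤ ENNReal.ofReal |(diffMat P).det| := by
              rw [← ENNReal.ofReal_toReal hVt]
              exact ENNReal.ofReal_le_ofReal hP2.le
            have h3 : volume (Prod.mk P ⁻¹' (chainSet S T (n+1))) * (D / (m / 2)) ≤ D :=
              le_trans (by gcongr; exact le_rfl) hsw
            have h4 : volume (Prod.mk P ⁻¹' (chainSet S T (n+1))) ≤ D / (D / (m / 2)) := by
              rw [ENNReal.le_div_iff_mul_le (Or.inl hV0) (Or.inl hVt)]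
              exact h3
            refine h4.trans (le_of_eq ?_)
            rw [ENNReal.div_eq_inv_mul (a := D) (b := D / (m / 2)), ENNReal.inv_div (Or.inl hm3) (Or.inl hm2),
              ENNReal.div_mul_cancel hD0 hDt]
        · have hempty : (Prod.mk P ⁻¹' (chainSet S T (n+1))) = ∅ := by
            rw [Set.eq_empty_iff_forall_notMem]
            intro u hu
            exact hP (chainSet_param hu).2
          rw [hempty]; simp
    _ = m / 2 * volume {P : Fin (n+1+1) → Pt (n+1) | ∀ i, P i ∈ T} + 1 * volume G := by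
        rw [lintegral_add_left (measurable_const.indicator hTpi), lintegral_indicator_const hTpi,
          lintegral_indicator_const hGm]
    _ ≤ m / 2 * 1 + 1 * volume G := by gcongr
    _ = m / 2 + volume G := by rw [mul_one, one_mul]

end Pool.Agent.Helper83
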