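import Pool.Agent.Helper83.ThmB

set_option autoImplicit false

open MeasureTheory Set Topology Filter

namespace Pool.Agent.Helper83

/-- A map that scales volume by a constant. -/
structure Scales {X Y : Type} [MeasureSpace X] [MeasureSpace Y] (f : X → Y) (a : ENNReal) : Prop where
  meas : Measurable f
  map_eq : (volume : Measure X).map f = a • (volume : Measure Y)

lemma Scales.preimage {X Y : Type} [MeasureSpace X] [MeasureSpace Y]
    [SFinite (volume : Measure X)] [SFinite (volume : Measure Y)] {f : X → Y} {a : ENNReal}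
    (h : Scales f a) {D : Set Y} (hD : UM D) : volume (f ⁻¹' D) = a * volume D := by
  rw [← Measure.map_apply₀ h.meas.aemeasurable (hD _), h.map_eq]
  simp

lemma Scales.pi {X Y : Type} [MeasureSpace X] [MeasureSpace Y]
    [SigmaFinite (volume : Measure X)] [SigmaFinite (volume : Measure Y)] {f : X → Y} {a : ENNReal}
    (ha : a ≠ ⊤) (h : Scales f a) (n : ℕ) :
    Scales (fun (x : Fin n → X) (i : Fin n) => f (x i)) (a ^ n) := by
  refine ⟨?_, ?_⟩
  · rw [measurable_pi_iff]; intro i
    exact h.meas.comp (measurable_pi_apply i)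
  · have hsf : SigmaFinite ((volume : Measure X).map f) := by
      rw [h.map_eq]
      lift a to NNReal using ha
      change SigmaFinite (a • (volume : Measure Y))
      infer_instance
    have h1 := Measure.pi_map_pi (μ := fun _ : Fin n => (volume : Measure X)) (f := fun _ => f)
      (fun _ => h.meas.aemeasurable)
    rw [volume_pi, h1]
    have : (fun _ : Fin n => (volume : Measure X).map f) = fun _ : Fin n => a • (volume : Measure Y) := by
      funext _; exact h.map_eq
    simp only [h.map_eq]
    have hsf2 : SigmaFinite (a • (volume : Measure Y)) := by rw [← h.map_eq]; exact hsf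
    apply Measure.pi_eq
    intro s hs
    rw [Measure.smul_apply, volume_pi, Measure.pi_pi]
    simp only [Measure.smul_apply, smul_eq_mul]
    rw [Finset.prod_mul_distrib]
    simp

/-- The conclusion of the theorem. -/
def Concl {V : Type} [AddCommGroup V] [Module ℝ V] [MeasureSpace V] (N k : ℕ) (S : Set V)
    (δ : ENNReal) : Prop :=
  ∃ X : Fin N → V, AffineIndependent ℝ X ∧ δ ≤ volume (convexHull ℝ (Set.range X)) ∧
    ∀ I : Finset (Fin N), I.card = k + 1 → convexHull ℝ (X '' (I : Set (Fin N))) ⊆ S

lemma Concl.transfer {V W : Type} [NormedAddCommGroup V] [NormedSpace ℝ V] [MeasureSpace V]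
    [NormedAddCommGroup W] [NormedSpace ℝ W] [MeasureSpace W] [BorelSpace W]
    [SFinite (volume : Measure V)] [SFinite (volume : Measure W)]
    {N k : ℕ} {S : Set V} {δ : ENNReal} {a : ENNReal} (f : V ≃ᵃ[ℝ] W) (hf : Scales f a)
    (h : Concl N k (f.symm ⁻¹' S) δ) : Concl N k S (a * δ) := by
  obtain ⟨X, hX1, hX2, hX3⟩ := h
  refine ⟨f.symm ∘ X, ?_, ?_, ?_⟩
  · exact hX1.map' f.symm.toAffineMap f.symm.injective
  · have h1 : convexHull ℝ (Set.range (f.symm ∘ X)) = f ⁻¹' (convexHull ℝ (Set.range X)) := by
      rw [Set.range_comp]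
      have := AffineMap.image_convexHull (f.symm.toAffineMap) (Set.range X)
      have h2 : (f.symm.toAffineMap : W → V) = f.symm := rfl
      rw [h2] at this
      rw [← this]
      ext x
      constructor
      · rintro ⟨y, hy, rfl⟩
        simpa using hy
      · intro hx
        exact ⟨f x, hx, by simp⟩
    have hcomp : IsCompact (convexHull ℝ (Set.range X)) := (Set.finite_range _).isCompact_convexHull (𝕜 := ℝ)
    rw [h1, hf.preimage (UM.of_measurable hcomp.measurableSet)]
    gcongr
  · intro I hI
    rw [Set.image_comp]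
    have := AffineMap.image_convexHull (f.symm.toAffineMap) (X '' (I : Set (Fin N)))
    have h2 : (f.symm.toAffineMap : W → V) = f.symm := rfl
    rw [h2] at this
    rw [← this, Set.image_subset_iff]
    exact hX3 I hI

lemma scales_linear {d : ℕ} {ι : Type} [Fintype ι] (e : ι ≃ Fin d) (A : Matrix (Fin d) (Fin d) ℝ)
    (hA : A.det ≠ 0) (p : Pt d) :
    ∃ f : Pt d ≃ᵃ[ℝ] (ι → ℝ), (∀ Q i, f Q i = (A.mulVec (Q - p)) (e i)) ∧
      Scales f (ENNReal.ofReal |A.det|⁻¹) := by
  have hu : IsUnit A.det := isUnit_iff_ne_zero.mpr hA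
  let L : Pt d ≃ₗ[ℝ] Pt d := Matrix.toLinearEquiv' A (Matrix.invertibleOfIsUnitDet A hu)
  have hL : ∀ x, L x = A.mulVec x := by
    intro x
    have := Matrix.toLinearEquiv'_apply A (Matrix.invertibleOfIsUnitDet A hu)
    have h2 := LinearMap.congr_fun this x
    rw [Matrix.toLin'_apply] at h2
    exact h2
  let T : Pt d ≃ᵃ[ℝ] Pt d := AffineEquiv.constVAdd ℝ (Pt d) (-p)
  let Re : Pt d ≃ₗ[ℝ] (ι → ℝ) := LinearEquiv.funCongrLeft ℝ ℝ e
  let f : Pt d ≃ᵃ[ℝ] (ι → ℝ) := (T.trans L.toAffineEquiv).trans Re.toAffineEquiv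
  have hf : ∀ Q i, f Q i = (A.mulVec (Q - p)) (e i) := by
    intro Q i
    have h1 : f Q = Re (L (-p + Q)) := rfl
    rw [h1, hL]
    have h2 : ∀ (x : Pt d), Re x i = x (e i) := fun x => rfl
    rw [h2]
    have h4 : -p + Q = Q - p := by rw [sub_eq_add_neg, add_comm]
    rw [h4]
  refine ⟨f, hf, ?_⟩
  have hfcont : Continuous f := by
    have : (f : Pt d → (ι → ℝ)) = fun Q i => (A.mulVec (Q - p)) (e i) := by
      funext Q i; exact hf Q i
    rw [this]
    fun_prop
  refine ⟨hfcont.measurable, ?_⟩
  -- compute the pushforward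
  have h1 : (volume : Measure (Pt d)).map (fun Q => Q - p) = volume := by
    have : (fun Q : Pt d => Q - p) = fun Q => Q + (-p) := by funext Q; exact sub_eq_add_neg _ _
    rw [this]
    exact (measurePreserving_add_right volume (-p)).map_eq
  have h2 : (volume : Measure (Pt d)).map (Matrix.toLin' A) = ENNReal.ofReal |A.det⁻¹| • (volume : Measure (Pt d)) := by
    have := Measure.map_linearMap_addHaar_eq_smul_addHaar (volume : Measure (Pt d)) (f := Matrix.toLin' A)
      (by rw [LinearMap.det_toLin']; exact hA)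
    rw [LinearMap.det_toLin'] at this
    exact this
  have h3 : (volume : Measure (Pt d)).map (fun x : Pt d => fun i => x (e i)) = (volume : Measure (ι → ℝ)) := by
    have := (volume_measurePreserving_piCongrLeft (fun _ : Fin d => ℝ) e).symm
    exact this.map_eq
  have hcomp : (f : Pt d → (ι → ℝ)) = (fun x : Pt d => fun i => x (e i)) ∘ (Matrix.toLin' A) ∘ (fun Q => Q - p) := by
    funext Q i
    rw [hf]
    rfl
  have hm1 : Measurable (fun Q : Pt d => Q - p) := by fun_prop
  have hm2 : Measurable (Matrix.toLin' A : Pt d → Pt d) := (Matrix.toLin' A).continuous_of_finiteDimensional.measurable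
  have hm3 : Measurable (fun x : Pt d => fun i => x (e i)) := by fun_prop
  rw [hcomp, ← Measure.map_map hm3 (hm2.comp hm1), ← Measure.map_map hm2 hm1, h1, h2, Measure.map_smul, h3, abs_inv]

end Pool.Agent.Helper83
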