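import Pool.Agent.Helper83.Final1

set_option autoImplicit false

open MeasureTheory Set Topology Filter

namespace Pool.Agent.Helper83

lemma Concl.mono {V : Type} [AddCommGroup V] [Module ℝ V] [MeasureSpace V] {N k : ℕ} {S : Set V}
    {δ δ' : ENNReal} (h : Concl N k S δ) (hle : δ' ≤ δ) : Concl N k S δ' := by
  obtain ⟨X, h1, h2, h3⟩ := h
  exact ⟨X, h1, hle.trans h2, h3⟩

lemma hull_preimage_iff {V W : Type} [AddCommGroup V] [Module ℝ V] [AddCommGroup W] [Module ℝ W]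
    (f : V ≃ᵃ[ℝ] W) (S : Set V) {ι : Type} (x : ι → V) :
    convexHull ℝ (Set.range (fun i => f (x i))) ⊆ f.symm ⁻¹' S ↔ convexHull ℝ (Set.range x) ⊆ S := by
  have h1 : Set.range (fun i => f (x i)) = f.toAffineMap '' (Set.range x) := by
    rw [← Set.range_comp]; rfl
  rw [h1, ← AffineMap.image_convexHull, Set.image_subset_iff]
  have h2 : (f.toAffineMap : V → W) ⁻¹' ((f.symm : W → V) ⁻¹' S) = S := by
    ext y
    simp
  rw [h2]

theorem thmC (hDHJ : DHJStatement) (k m : ℕ) (e : ENNReal) (he : e ≠ 0) (he1 : e ≠ ⊤) :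
    ∃ δ : ENNReal, δ ≠ 0 ∧ ∀ S : Set (Pt (k+m+1)), MeasurableSet S → volume S ≤ 1 →
      e ≤ volume (cvx (k+1) S) → Concl (k+m+1+1) (k+1) S δ := by
  obtain ⟨c0, hc00, V, W, hV, hW, hnorm⟩ := normalize (k+m) k e he he1
  -- make the constant finite
  set c : ENNReal := min c0 1 with hcdef
  have hc0 : c ≠ 0 := by
    rw [hcdef]
    exact (lt_min (pos_iff_ne_zero.mpr hc00) one_pos).ne'
  have hct : c ≠ ⊤ := ne_top_of_le_ne_top ENNReal.one_ne_top (min_le_right _ _)
  set c' : ENNReal := c / (ENNReal.ofReal V) ^ (k+1+1) with hc'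
  have hVe : (ENNReal.ofReal V) ^ (k+1+1) ≠ ⊤ := ENNReal.pow_ne_top ENNReal.ofReal_ne_top
  have hVe0 : (ENNReal.ofReal V) ^ (k+1+1) ≠ 0 := pow_ne_zero _ (by simpa using hV)
  have hc'0 : c' ≠ 0 := ENNReal.div_ne_zero.mpr ⟨hc0, hVe⟩
  have hc't : c' ≠ ⊤ := (ENNReal.div_lt_top hct hVe0).ne
  obtain ⟨δB, hδB, hB⟩ := thmB hDHJ (k+1) m 1 zero_le_one c' hc'0 hc't
  refine ⟨ENNReal.ofReal W⁻¹ * ENNReal.ofReal δB, ?_, ?_⟩
  · apply mul_ne_zero
    · simpa using hW
    · simpa using hδB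
  intro S hS hS1 hC
  obtain ⟨A, p, hAV, hAW, hAc⟩ := hnorm S hS hS1 hC
  have hAdet : A.det ≠ 0 := by
    intro h; rw [h] at hAV; simp at hAV; linarith
  have hApos : 0 < |A.det| := abs_pos.mpr hAdet
  let e0 : Fin (k+1) ⊕ Fin m ≃ Fin (k+m+1) := finSumFinEquiv.trans (finCongr (by omega))
  obtain ⟨f, hf, hfs⟩ := scales_linear e0 A hAdet p
  set a : ENNReal := ENNReal.ofReal |A.det|⁻¹ with ha
  have hat : a ≠ ⊤ := ENNReal.ofReal_ne_top
  set S' : Set (Sp (k+1) m) := f.symm ⁻¹' S with hS'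
  have hS'm : MeasurableSet S' := by
    have : Continuous f.symm := f.symm.toAffineMap.continuous_of_finiteDimensional
    exact this.measurable hS
  set D' : Set (Fin (k+1+1) → Sp (k+1) m) :=
    {x | convexHull ℝ (Set.range x) ⊆ S' ∧ ∀ j i, |x j i| ≤ 1} with hD'
  have hD'um : UM D' := by
    apply UM.inter (um_conv hS'm)
    have : {x : Fin (k+1+1) → Sp (k+1) m | ∀ j i, |x j i| ≤ 1} =
      ⋂ j, ⋂ i, {x : Fin (k+1+1) → Sp (k+1) m | |x j i| ≤ 1} := by ext x; simp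
    change UM {x : Fin (k+1+1) → Sp (k+1) m | ∀ j i, |x j i| ≤ 1}
    rw [this]
    apply UM.iInter; intro j
    apply UM.iInter; intro i
    apply UM.of_measurable
    apply measurableSet_le _ measurable_const
    have : Continuous fun x : Fin (k+1+1) → Sp (k+1) m => |x j i| := by fun_prop
    exact this.measurable
  have hpre : (fun (x : Fin (k+1+1) → Pt (k+m+1)) (i : Fin (k+1+1)) => f (x i)) ⁻¹' D' =
      {x | x ∈ cvx (k+1) S ∧ ∀ j i, |(A.mulVec (x j - p)) i| ≤ 1} := by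
    ext x
    simp only [mem_preimage, hD', mem_ofPred_eq, cvx, hS', hull_preimage_iff]
    refine and_congr Iff.rfl ?_
    constructor
    · intro h j i
      have := h j (e0.symm i)
      rwa [hf, Equiv.apply_symm_apply] at this
    · intro h j i
      rw [hf]; exact h j _
  have hvol := (hfs.pi hat (k+1+1)).preimage hD'um
  rw [hpre] at hvol
  have haV : a ≤ ENNReal.ofReal V := by
    apply ENNReal.ofReal_le_ofReal
    rw [inv_le_iff_one_le_mul₀ hApos, mul_comm]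
    exact hAV
  have hc'le : c' ≤ volume D' := by
    rw [hc', ENNReal.div_le_iff_le_mul (Or.inl hVe0) (Or.inl hVe), mul_comm]
    calc c ≤ c0 := min_le_left _ _
      _ ≤ _ := hAc
      _ = a ^ (k+1+1) * volume D' := hvol
      _ ≤ (ENNReal.ofReal V) ^ (k+1+1) * volume D' := by gcongr
  have hconcl : Concl (k+1+m+1) (k+1) S' (ENNReal.ofReal δB) := hB S' hS'm hc'le
  have hconcl2 : Concl (k+m+1+1) (k+1) S' (ENNReal.ofReal δB) := by
    have : k+1+m+1 = k+m+1+1 := by omega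
    rw [← this]; exact hconcl
  have hconcl3 := Concl.transfer f hfs hconcl2
  refine hconcl3.mono ?_
  gcongr
  apply ENNReal.ofReal_le_ofReal
  gcongr

/-- The scaling map from Euclidean space. -/
lemma scales_euclid {d : ℕ} (hd : 0 < d) (r : ℝ) (hr : 0 < r) :
    ∃ f : EuclideanSpace ℝ (Fin d) ≃ᵃ[ℝ] Pt d, Continuous f ∧ Continuous f.symm ∧
      Scales f (ENNReal.ofReal (r ^ d)⁻¹) := by
  let E1 : EuclideanSpace ℝ (Fin d) ≃L[ℝ] Pt d := EuclideanSpace.equiv (Fin d) ℝ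
  let E2 : Pt d ≃ₗ[ℝ] Pt d := LinearEquiv.smulOfNeZero ℝ (Pt d) r hr.ne'
  let f : EuclideanSpace ℝ (Fin d) ≃ᵃ[ℝ] Pt d := (E1.toLinearEquiv.trans E2).toAffineEquiv
  have hfc : Continuous f := f.toAffineMap.continuous_of_finiteDimensional
  have hfsc : Continuous f.symm := f.symm.toAffineMap.continuous_of_finiteDimensional
  refine ⟨f, hfc, hfsc, hfc.measurable, ?_⟩
  have h1 : (volume : Measure (EuclideanSpace ℝ (Fin d))).map E1 = (volume : Measure (Pt d)) := by
    exact (PiLp.volume_preserving_ofLp (Fin d)).map_eq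
  have h2 : (volume : Measure (Pt d)).map (fun x => r • x) = ENNReal.ofReal (r ^ d)⁻¹ • (volume : Measure (Pt d)) := by
    have := Measure.map_addHaar_smul (volume : Measure (Pt d)) hr.ne'
    rw [Module.finrank_fin_fun, abs_of_nonneg (by positivity)] at this
    exact this
  have hcomp : (f : EuclideanSpace ℝ (Fin d) → Pt d) = (fun x : Pt d => r • x) ∘ E1 := rfl
  rw [hcomp, ← Measure.map_map (by fun_prop) E1.continuous.measurable, h1, h2]

theorem main_of_DHJ (hDHJ : DHJStatement) :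
    ∀ k d : ℕ, 1 ≤ k → k ≤ d → ∀ ε : ℝ, 0 < ε → ∃ δ : ℝ, 0 < δ ∧
      ∀ S : Set (EuclideanSpace ℝ (Fin d)), MeasurableSet S → 0 < volume S → volume S < ⊤ →
        ε ≤ (volume {x : Fin (k + 1) → EuclideanSpace ℝ (Fin d) |
                (∀ i, x i ∈ S) ∧ convexHull ℝ (Set.range x) ⊆ S}).toReal
              / (volume S).toReal ^ (k + 1) →
        ∃ X : Fin (d + 1) → EuclideanSpace ℝ (Fin d),
          AffineIndependent ℝ X ∧
          δ * (volume S).toReal ≤ (volume (convexHull ℝ (Set.range X))).toReal ∧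
          ∀ s : Finset (Fin (d + 1)), s.card = k + 1 →
            convexHull ℝ (X '' (s : Set (Fin (d + 1)))) ⊆ S := by
  intro k' d hk hkd ε hε
  obtain ⟨k, rfl⟩ : ∃ k, k' = k + 1 := ⟨k' - 1, by omega⟩
  obtain ⟨m, rfl⟩ : ∃ m, d = k + m + 1 := ⟨d - (k+1), by omega⟩
  obtain ⟨δC, hδC0, hC⟩ := thmC hDHJ k m (ENNReal.ofReal ε) (by simpa using hε) ENNReal.ofReal_ne_top
  set δ1 : ENNReal := min δC 1 with hδ1
  have hδ10 : δ1 ≠ 0 := (lt_min (pos_iff_ne_zero.mpr hδC0) one_pos).ne'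
  have hδ1t : δ1 ≠ ⊤ := ne_top_of_le_ne_top ENNReal.one_ne_top (min_le_right _ _)
  refine ⟨δ1.toReal, ENNReal.toReal_pos hδ10 hδ1t, ?_⟩
  intro S hS hS0 hSt hε2
  set v : ℝ := (volume S).toReal with hv
  have hvpos : 0 < v := ENNReal.toReal_pos hS0.ne' hSt.ne
  have hvol : volume S = ENNReal.ofReal v := (ENNReal.ofReal_toReal hSt.ne).symm
  have hdpos : 0 < k + m + 1 := by omega
  set r : ℝ := (v⁻¹) ^ (((k + m + 1 : ℕ) : ℝ)⁻¹) with hr
  have hrpos : 0 < r := Real.rpow_pos_of_pos (inv_pos.mpr hvpos) _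
  have hrd : r ^ (k + m + 1) = v⁻¹ := by
    rw [hr, Real.rpow_inv_natCast_pow (inv_pos.mpr hvpos).le hdpos.ne']
  obtain ⟨f, hfc, hfsc, hfs⟩ := scales_euclid hdpos r hrpos
  rw [hrd, inv_inv, ← hvol] at hfs
  set S2 : Set (Pt (k + m + 1)) := f.symm ⁻¹' S with hS2
  have hS2m : MeasurableSet S2 := hfsc.measurable hS
  have hS2v : volume S2 = 1 := by
    have h1 := hfs.preimage (UM.of_measurable hS2m)
    have h2 : f ⁻¹' S2 = S := by
      ext x; simp [hS2]
    rw [h2] at h1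
    have h3 : volume S * volume S2 = volume S * 1 := by rw [mul_one]; exact h1.symm
    exact (ENNReal.mul_right_inj hS0.ne' hSt.ne).mp h3
  have hF := hfs.pi hSt.ne (k+1+1)
  have hpre : (fun (x : Fin (k+1+1) → EuclideanSpace ℝ (Fin (k + m + 1))) (i : Fin (k+1+1)) => f (x i)) ⁻¹' (cvx (k+1) S2)
      = {x : Fin (k+1+1) → EuclideanSpace ℝ (Fin (k + m + 1)) | (∀ i, x i ∈ S) ∧ convexHull ℝ (Set.range x) ⊆ S} := by
    ext x
    simp only [mem_preimage, cvx, mem_ofPred_eq, hS2, hull_preimage_iff]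
    constructor
    · intro h
      exact ⟨fun i => h (subset_convexHull ℝ _ (mem_range_self i)), h⟩
    · exact fun h => h.2
  have hvolC := hF.preimage (um_cvx (k+1) hS2m)
  rw [hpre] at hvolC
  have hle : ENNReal.ofReal ε ≤ volume (cvx (k+1) S2) := by
    by_cases htop : volume (cvx (k+1) S2) = ⊤
    · rw [htop]; exact le_top
    rw [hvolC, ENNReal.toReal_mul, ENNReal.toReal_pow] at hε2
    rw [← hv] at hε2
    rw [mul_div_cancel_left₀ _ (by positivity)] at hε2
    rw [← ENNReal.ofReal_toReal htop]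
    exact ENNReal.ofReal_le_ofReal hε2
  have hconcl := Concl.transfer f hfs (hC S2 hS2m hS2v.le hle)
  obtain ⟨X, hX1, hX2, hX3⟩ := hconcl
  refine ⟨X, hX1, ?_, hX3⟩
  have hcomp : IsCompact (convexHull ℝ (Set.range X)) := (Set.finite_range _).isCompact_convexHull (𝕜 := ℝ)
  have h5 : volume S * δ1 ≤ volume (convexHull ℝ (Set.range X)) := by
    refine le_trans ?_ hX2
    gcongr
    exact min_le_left _ _
  have h6 := ENNReal.toReal_mono hcomp.measure_lt_top.ne h5
  rw [ENNReal.toReal_mul, mul_comm] at h6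
  exact h6

end Pool.Agent.Helper83
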