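import Mathlib

set_option autoImplicit false

open MeasureTheory Set Topology Filter

namespace Pool.Agent.Helper83

/-- The statement of the density Hales-Jewett theorem. -/
def DHJStatement : Prop :=
  ∀ (α : Type) [Fintype α] [Nonempty α] (δ : ℝ), 0 < δ →
    ∃ (ι : Type) (_ : Fintype ι), ∀ A : Set (ι → α),
      δ * (Fintype.card α : ℝ) ^ (Fintype.card ι) ≤ (A.ncard : ℝ) →
      ∃ l : Combinatorics.Line α ι, ∀ a : α, l a ∈ A

lemma homothetic (hDHJ : DHJStatement) {G : Type} [NormedAddCommGroup G] [NormedSpace ℝ G]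
    [ProperSpace G] [MeasurableSpace G] [BorelSpace G] (μ : Measure G) [μ.IsAddHaarMeasure]
    (α : Type) [Fintype α] [Nonempty α] (v : α → G) (R : ℝ) (c : ENNReal) (hc : c ≠ 0)
    (hct : c ≠ ⊤) :
    ∃ s0 : ℝ, 0 < s0 ∧ ∀ M : Set G, NullMeasurableSet M μ → M ⊆ Metric.closedBall 0 R → c ≤ μ M →
      ∃ (y : G) (s : ℝ), s0 ≤ s ∧ ∀ a, y + s • v a ∈ M := by
  classical
  set B : Set G := Metric.closedBall (0 : G) (R + 1) with hB
  set β : ENNReal := μ B with hβ
  have hβt : β ≠ ⊤ := (isCompact_closedBall (0:G) (R+1)).measure_lt_top.ne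
  by_cases hβ0 : β = 0
  · refine ⟨1, one_pos, ?_⟩
    intro M _ hMR hcM
    exfalso
    apply hc
    have : μ M ≤ 0 := by
      rw [← hβ0]
      exact measure_mono (hMR.trans (Metric.closedBall_subset_closedBall (by linarith)))
    exact le_antisymm (hcM.trans this) zero_le
  have h2β0 : 2 * β ≠ 0 := mul_ne_zero (by norm_num) hβ0
  have h2βt : 2 * β ≠ ⊤ := ENNReal.mul_ne_top (by norm_num) hβt
  have hq0 : c / (2 * β) ≠ 0 := ENNReal.div_ne_zero.mpr ⟨hc, h2βt⟩
  have hqt : c / (2 * β) ≠ ⊤ := (ENNReal.div_lt_top hct h2β0).ne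
  have hδ : 0 < (c / (2 * β)).toReal := ENNReal.toReal_pos hq0 hqt
  obtain ⟨ι, _, hι⟩ := hDHJ α (c / (2 * β)).toReal hδ
  obtain ⟨L, hL⟩ : ∃ L : ℝ, ∀ a, ‖v a‖ ≤ L := by
    obtain ⟨L, hL⟩ := (Set.finite_range (fun a => ‖v a‖)).bddAbove
    exact ⟨L, fun a => hL (mem_range_self a)⟩
  have hL0 : 0 ≤ L := (norm_nonneg _).trans (hL (Classical.arbitrary α))
  set n := Fintype.card ι with hn
  set s1 : ℝ := 1 / (n * L + 1) with hs1
  have hnL : 0 < (n:ℝ) * L + 1 := by positivity
  have hs1pos : 0 < s1 := by positivity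
  refine ⟨s1, hs1pos, ?_⟩
  intro M hM hMR hcM
  let τ : (ι → α) → G := fun w => s1 • ∑ i, v (w i)
  have hτ : ∀ w, ‖τ w‖ ≤ 1 := by
    intro w
    simp only [τ]
    rw [norm_smul, Real.norm_of_nonneg hs1pos.le]
    have h1 : ‖∑ i, v (w i)‖ ≤ n * L := by
      refine (norm_sum_le _ _).trans ?_
      refine (Finset.sum_le_sum (fun i _ => hL (w i))).trans ?_
      simp [hn]
    calc s1 * ‖∑ i, v (w i)‖ ≤ s1 * (n * L) := by gcongr
      _ ≤ 1 := by
        rw [hs1, one_div, inv_mul_le_iff₀ hnL]; linarith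
  let A : G → Set (ι → α) := fun y => {w | y + τ w ∈ M}
  have hcount : ∀ y, ((A y).ncard : ENNReal) = ∑ w : ι → α, ((fun x => x + τ w) ⁻¹' M).indicator (fun _ => (1 : ENNReal)) y := by
    intro y
    rw [Set.ncard_eq_toFinset_card']
    simp only [A, Set.indicator_apply, mem_preimage]
    rw [Finset.sum_boole]
    congr 2
    ext w
    simp
  have hMpre : ∀ w, NullMeasurableSet ((fun x => x + τ w) ⁻¹' M) μ := by
    intro w
    exact hM.preimage (measurePreserving_add_right μ (τ w)).quasiMeasurePreserving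
  have hex : ∃ y, (Fintype.card α : ENNReal) ^ n * (c / (2 * β)) ≤ ((A y).ncard : ENNReal) := by
    by_contra hcon
    push Not at hcon
    have h1 : ∫⁻ y in B, ((A y).ncard : ENNReal) ∂μ = (Fintype.card α : ENNReal) ^ n * μ M := by
      simp_rw [hcount]
      rw [lintegral_finsetSum']
      · have : ∀ w : ι → α, ∫⁻ y in B, ((fun x => x + τ w) ⁻¹' M).indicator (fun _ => (1 : ENNReal)) y ∂μ = μ M := by
          intro w
          rw [lintegral_indicator_const₀ ((hMpre w).mono_ac (Measure.absolutelyContinuous_of_le Measure.restrict_le_self))]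
          rw [one_mul, Measure.restrict_apply₀ ((hMpre w).mono_ac (Measure.absolutelyContinuous_of_le Measure.restrict_le_self))]
          have hsub : ((fun x => x + τ w) ⁻¹' M) ⊆ B := by
            intro y hy
            have h2 := hMR hy
            rw [mem_closedBall_zero_iff] at h2
            rw [hB, mem_closedBall_zero_iff]
            calc ‖y‖ = ‖(y + τ w) - τ w‖ := by rw [add_sub_cancel_right]
              _ ≤ ‖y + τ w‖ + ‖τ w‖ := norm_sub_le _ _
              _ ≤ R + 1 := add_le_add h2 (hτ w)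
          rw [inter_eq_self_of_subset_left hsub, measure_preimage_add_right]
        simp_rw [this]
        rw [Finset.sum_const, Finset.card_univ, Fintype.card_fun, nsmul_eq_mul]
        push_cast
        rfl
      · intro w _
        exact (measurable_const.aemeasurable).indicator₀ ((hMpre w).mono_ac (Measure.absolutelyContinuous_of_le Measure.restrict_le_self))
    have h2 : ∫⁻ y in B, ((A y).ncard : ENNReal) ∂μ ≤ (Fintype.card α : ENNReal) ^ n * (c / 2) := by
      calc ∫⁻ y in B, ((A y).ncard : ENNReal) ∂μ ≤ ∫⁻ y in B, (Fintype.card α : ENNReal) ^ n * (c / (2 * β)) ∂μ := by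
            apply lintegral_mono
            intro y; exact (hcon y).le
        _ = (Fintype.card α : ENNReal) ^ n * (c / (2 * β)) * β := by
            rw [lintegral_const, Measure.restrict_apply_univ]
        _ = (Fintype.card α : ENNReal) ^ n * (c / 2) := by
            rw [mul_assoc]
            congr 1
            rw [ENNReal.div_eq_inv_mul, ENNReal.div_eq_inv_mul, ENNReal.mul_inv (Or.inl (by norm_num)) (Or.inl (by norm_num))]
            calc 2⁻¹ * β⁻¹ * c * β = 2⁻¹ * c * (β⁻¹ * β) := by ring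
              _ = 2⁻¹ * c := by rw [ENNReal.inv_mul_cancel hβ0 hβt, mul_one]
    rw [h1] at h2
    have hcard0 : (Fintype.card α : ENNReal) ^ n ≠ 0 := pow_ne_zero _ (by exact_mod_cast Fintype.card_ne_zero)
    have hcardt : (Fintype.card α : ENNReal) ^ n ≠ ⊤ := ENNReal.pow_ne_top (ENNReal.natCast_ne_top _)
    have h3 : μ M ≤ c / 2 := (ENNReal.mul_le_mul_iff_right hcard0 hcardt).mp h2
    exact absurd (ENNReal.half_lt_self hc hct) (not_lt.mpr (hcM.trans h3))
  obtain ⟨y, hy⟩ := hex
  have hy' : (c / (2 * β)).toReal * (Fintype.card α : ℝ) ^ (Fintype.card ι) ≤ ((A y).ncard : ℝ) := by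
    have := ENNReal.toReal_mono (ENNReal.natCast_ne_top _) hy
    rw [ENNReal.toReal_mul, ENNReal.toReal_pow, ENNReal.toReal_natCast, ENNReal.toReal_natCast] at this
    linarith
  obtain ⟨l, hl⟩ := hι (A y) hy'
  set N : ℕ := (Finset.univ.filter (fun i => l.idxFun i = none)).card with hN
  have hNpos : 1 ≤ N := by
    obtain ⟨i, hi⟩ := l.proper
    exact Finset.card_pos.mpr ⟨i, by simp [hi]⟩
  refine ⟨y + s1 • ∑ i ∈ Finset.univ.filter (fun i => ¬ l.idxFun i = none), v ((l.idxFun i).getD (Classical.arbitrary α)),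
    s1 * N, ?_, ?_⟩
  · have : (1:ℝ) ≤ N := by exact_mod_cast hNpos
    nlinarith
  · intro a
    have h1 : y + τ (l a) ∈ M := hl a
    have h2 : τ (l a) = s1 • ∑ i ∈ Finset.univ.filter (fun i => ¬ l.idxFun i = none), v ((l.idxFun i).getD (Classical.arbitrary α))
        + (s1 * N) • v a := by
      simp only [τ]
      rw [← Finset.sum_filter_add_sum_filter_not Finset.univ (fun i => l.idxFun i = none)]
      rw [smul_add, add_comm]
      congr 1
      · congr 1
        apply Finset.sum_congr rfl
        intro i hi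
        simp only [Finset.mem_filter, Finset.mem_univ, true_and] at hi
        obtain ⟨b, hb⟩ := Option.ne_none_iff_exists'.mp hi
        simp [Combinatorics.Line.coe_apply, hb]
      · rw [mul_smul]
        congr 1
        rw [Finset.sum_congr rfl (g := fun _ => v a)]
        · rw [Finset.sum_const, ← Nat.cast_smul_eq_nsmul ℝ]
        · intro i hi
          simp only [Finset.mem_filter, Finset.mem_univ, true_and] at hi
          simp [Combinatorics.Line.coe_apply, hi]
    rw [add_assoc, ← h2]
    exact h1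

end Pool.Agent.Helper83
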