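import Pool.Agent.Helper83.Norm3
import Pool.Agent.Helper83.Homo

set_option autoImplicit false

open MeasureTheory Set Topology Filter

namespace Pool.Agent.Helper83

/-- The ambient space, split in horizontal and vertical coordinates. -/
abbrev Sp (k m : ℕ) := Fin k ⊕ Fin m → ℝ

/-- Nodes. -/
noncomputable def tn {N : ℕ} (i : Fin N) : ℝ := (i : ℝ) + 1

lemma tn_pos {N : ℕ} (i : Fin N) : 0 < tn i := by unfold tn; positivity

lemma tn_inj {N : ℕ} : Function.Injective (tn : Fin N → ℝ) := by
  intro i j h
  unfold tn at h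
  have : (i : ℝ) = j := by linarith
  exact Fin.ext (by exact_mod_cast this)

/-- The normalising factor. -/
noncomputable def sg (k : ℕ) {N : ℕ} (i : Fin N) : ℝ := ∑ j : Fin (k+1), tn i ^ (j : ℕ)

lemma sg_pos (k : ℕ) {N : ℕ} (i : Fin N) : 0 < sg k i := by
  unfold sg
  exact Finset.sum_pos (fun j _ => pow_pos (tn_pos i) _) Finset.univ_nonempty

/-- Barycentric coordinates. -/
noncomputable def bc (k m : ℕ) (i : Fin (k+m+1)) (j : Fin (k+1)) : ℝ := tn i ^ (j : ℕ) / sg k i

/-- Heights. -/
noncomputable def ht (k m : ℕ) (i : Fin (k+m+1)) (l : Fin m) : ℝ := tn i ^ (k + 1 + (l : ℕ)) / sg k i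

lemma bc_nonneg (k m : ℕ) (i : Fin (k+m+1)) (j : Fin (k+1)) : 0 ≤ bc k m i j :=
  div_nonneg (pow_nonneg (tn_pos i).le _) (sg_pos k i).le

lemma bc_sum (k m : ℕ) (i : Fin (k+m+1)) : ∑ j, bc k m i j = 1 := by
  unfold bc
  rw [← Finset.sum_div]
  exact div_self (sg_pos k i).ne'

/-- The shifts. -/
noncomputable def shft (k m : ℕ) (I : Finset (Fin (k+m+1))) : Fin (k+1) → Fin m → ℝ :=
  fun j l => (Lagrange.interpolate I tn (fun i => tn i ^ (k + 1 + (l : ℕ)))).coeff (j : ℕ)

lemma shft_spec (k m : ℕ) (I : Finset (Fin (k+m+1))) (hI : I.card = k + 1) (i : Fin (k+m+1))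
    (hi : i ∈ I) (l : Fin m) : ∑ j, bc k m i j * shft k m I j l = ht k m i l := by
  set p := Lagrange.interpolate I tn (fun i => tn i ^ (k + 1 + (l : ℕ))) with hp
  have hinj : Set.InjOn (tn : Fin (k+m+1) → ℝ) I := tn_inj.injOn
  have h1 : p.eval (tn i) = tn i ^ (k + 1 + (l : ℕ)) := Lagrange.eval_interpolate_at_node _ hinj hi
  have hdeg : p.degree < (k + 1 : ℕ) := by
    have := Lagrange.degree_interpolate_lt (fun i => tn i ^ (k + 1 + (l : ℕ))) hinj
    rwa [hI] at this
  have hnat : p.natDegree < k + 1 := by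
    by_cases h0 : p = 0
    · rw [h0]; simp
    · exact (Polynomial.natDegree_lt_iff_degree_lt h0).mpr hdeg
  have h2 := Polynomial.eval_eq_sum_range' hnat (tn i)
  rw [h1] at h2
  unfold bc ht shft
  rw [h2, Finset.sum_range, Finset.sum_div]
  apply Finset.sum_congr rfl
  intro j _
  ring

/-- The reference points. -/
noncomputable def refPt (k m : ℕ) (i : Fin (k+m+1)) : Sp k m :=
  Sum.elim (fun c : Fin k => bc k m i c.succ) (ht k m i)

lemma refPt_affineIndependent (k m : ℕ) : AffineIndependent ℝ (refPt k m) := by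
  rw [affineIndependent_iff_of_fintype]
  intro w hw hw2
  have hw3 : ∀ x : Fin k ⊕ Fin m, ∑ i, w i * refPt k m i x = 0 := by
    intro x
    have h1 := hw2
    rw [Finset.weightedVSub_eq_linear_combination Finset.univ hw] at h1
    have h2 := congrFun h1 x
    simpa [Finset.sum_apply] using h2
  have h0 : ∀ j : Fin (k+1), ∑ i, w i * bc k m i j = 0 := by
    have hs : ∀ c : Fin k, ∑ i, w i * bc k m i c.succ = 0 := fun c => hw3 (Sum.inl c)
    intro j
    refine Fin.cases ?_ hs j
    have h1 : ∑ i, w i * ∑ j, bc k m i j = 0 := by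
      simp only [bc_sum, mul_one]; exact hw
    have h2 : ∀ i, w i * ∑ j, bc k m i j = w i * bc k m i 0 + ∑ c : Fin k, w i * bc k m i c.succ := by
      intro i
      rw [Fin.sum_univ_succ, mul_add, Finset.mul_sum]
    simp only [h2] at h1
    rw [Finset.sum_add_distrib, Finset.sum_comm] at h1
    simp only [hs, Finset.sum_const_zero, add_zero] at h1
    exact h1
  have hz : ∀ l : Fin m, ∑ i, w i * ht k m i l = 0 := fun l => hw3 (Sum.inr l)
  -- Vandermonde
  have hv : ∀ p : Fin (k+m+1), ∑ i, (w i / sg k i) * tn i ^ (p : ℕ) = 0 := by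
    intro p
    by_cases hp : (p : ℕ) < k + 1
    · have := h0 ⟨p, hp⟩
      rw [← this]
      apply Finset.sum_congr rfl
      intro i _
      unfold bc
      simp only
      ring
    · have hl : (p : ℕ) - (k+1) < m := by omega
      have := hz ⟨(p : ℕ) - (k+1), hl⟩
      rw [← this]
      apply Finset.sum_congr rfl
      intro i _
      unfold ht
      simp only
      have : k + 1 + ((p : ℕ) - (k+1)) = p := by omega
      rw [this]
      ring
  have hvec : Matrix.vecMul (fun i => w i / sg k i) (Matrix.vandermonde (tn : Fin (k+m+1) → ℝ)) = 0 := by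
    ext p
    simp only [Matrix.vecMul, dotProduct, Matrix.vandermonde_apply, Pi.zero_apply]
    exact hv p
  have hdet : (Matrix.vandermonde (tn : Fin (k+m+1) → ℝ)).det ≠ 0 :=
    Matrix.det_vandermonde_ne_zero_iff.mpr tn_inj
  have h4 := Matrix.eq_zero_of_vecMul_eq_zero hdet hvec
  intro i
  have h5 := congrFun h4 i
  simp only [Pi.zero_apply] at h5
  rcases div_eq_zero_iff.mp h5 with h | h
  · exact h
  · exact absurd h (sg_pos k i).ne'

lemma refPt_hull_pos (k m : ℕ) : 0 < volume (convexHull ℝ (Set.range (refPt k m))) := by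
  have h1 : (interior (convexHull ℝ (Set.range (refPt k m)))).Nonempty := by
    rw [interior_convexHull_nonempty_iff_affineSpan_eq_top]
    rw [(refPt_affineIndependent k m).affineSpan_eq_top_iff_card_eq_finrank_add_one]
    simp
  exact Measure.measure_pos_of_nonempty_interior _ h1

/-- Almost every tuple of `j ≤ k` vectors in `ℝ^k` is linearly independent. -/
lemma ae_linInd (k : ℕ) : ∀ j, j ≤ k → ∀ᵐ a : Fin j → Pt k, LinearIndependent ℝ a := by
  intro j
  induction j with
  | zero => intro _; exact Filter.Eventually.of_forall fun a => linearIndependent_empty_type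
  | succ j ih =>
    intro hj
    have ih' := ih (by omega)
    have hopen : IsOpen {a : Fin (j+1) → Pt k | LinearIndependent ℝ a} := isOpen_setOfPred_linearIndependent
    have hmp := mp_cons (A := Pt k) j
    have hgoal : ∀ᵐ z : Pt k × (Fin j → Pt k), LinearIndependent ℝ (Fin.cons z.1 z.2 : Fin (j+1) → Pt k) := by
      have hm : MeasurableSet {z : Pt k × (Fin j → Pt k) | LinearIndependent ℝ (Fin.cons z.1 z.2 : Fin (j+1) → Pt k)} :=
        hmp.measurable hopen.measurableSet
      have hprod : (volume : Measure (Pt k × (Fin j → Pt k))) = (volume : Measure (Pt k)).prod volume := rfl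
      rw [ae_iff]
      change volume {z : Pt k × (Fin j → Pt k) | LinearIndependent ℝ (Fin.cons z.1 z.2 : Fin (j+1) → Pt k)}ᶜ = 0
      rw [hprod, Measure.prod_apply_symm hm.compl, lintegral_eq_zero_iff (measurable_measure_prodMk_right hm.compl)]
      filter_upwards [ih'] with b hb
      show volume ((fun x => (x, b)) ⁻¹' {z : Pt k × (Fin j → Pt k) | LinearIndependent ℝ (Fin.cons z.1 z.2 : Fin (j+1) → Pt k)}ᶜ) = 0
      have hsub : ((fun x => (x, b)) ⁻¹' {z : Pt k × (Fin j → Pt k) | LinearIndependent ℝ (Fin.cons z.1 z.2 : Fin (j+1) → Pt k)}ᶜ) ⊆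
          (Submodule.span ℝ (Set.range b) : Set (Pt k)) := by
        intro x hx
        by_contra hcon
        apply hx
        show LinearIndependent ℝ (Fin.cons x b : Fin (j+1) → Pt k)
        rw [linearIndependent_finCons]
        exact ⟨hb, hcon⟩
      refine measure_mono_null hsub ?_
      apply Measure.addHaar_submodule
      intro htop
      have h1 := finrank_span_eq_card hb
      rw [htop] at h1
      simp at h1
      omega
    rw [ae_iff] at hgoal ⊢
    change volume {a : Fin (j+1) → Pt k | LinearIndependent ℝ a}ᶜ = 0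
    rw [← hmp.measure_preimage hopen.measurableSet.compl.nullMeasurableSet]
    exact hgoal

lemma ae_det (k : ℕ) : ∀ᵐ u : Fin (k+1) → Pt k, Matrix.det (Matrix.of fun j : Fin k => u j.succ - u 0) ≠ 0 := by
  have h := ae_linInd k k le_rfl
  have hdet : ∀ᵐ a : Fin k → Pt k, Matrix.det (Matrix.of a) ≠ 0 := by
    filter_upwards [h] with a ha
    have h1 := (Matrix.linearIndependent_rows_iff_isUnit (A := Matrix.of a)).mp ha
    exact ((Matrix.isUnit_iff_isUnit_det _).mp h1).ne_zero
  have hmp := mp_cons (A := Pt k) k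
  have hcont : Continuous fun u : Fin (k+1) → Pt k => Matrix.det (Matrix.of fun j : Fin k => u j.succ - u 0) := by
    apply Continuous.matrix_det
    apply continuous_pi; intro j
    apply continuous_pi; intro c
    simp only [Matrix.of_apply, Pi.sub_apply]
    fun_prop
  have hm : MeasurableSet {u : Fin (k+1) → Pt k | Matrix.det (Matrix.of fun j : Fin k => u j.succ - u 0) = 0} :=
    hcont.measurable (measurableSet_singleton 0)
  rw [ae_iff]
  simp only [ne_eq, not_not]
  rw [← hmp.measure_preimage hm.nullMeasurableSet]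
  have hprod : (volume : Measure (Pt k × (Fin k → Pt k))) = (volume : Measure (Pt k)).prod volume := rfl
  have hm' := hmp.measurable hm
  rw [hprod, Measure.prod_apply hm', lintegral_eq_zero_iff (measurable_measure_prodMk_left hm')]
  filter_upwards with p
  show volume (Prod.mk p ⁻¹' ((fun z : Pt k × (Fin k → Pt k) => (Fin.cons z.1 z.2 : Fin (k+1) → Pt k)) ⁻¹' _)) = 0
  rw [← measure_preimage_add_right (volume : Measure (Fin k → Pt k)) (fun _ => p)]
  rw [ae_iff] at hdet
  simp only [ne_eq, not_not] at hdet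
  refine measure_mono_null ?_ hdet
  intro a ha
  simp only [mem_preimage, mem_ofPred_eq, Fin.cons_succ, Fin.cons_zero, Pi.add_apply,
    add_sub_cancel_right] at ha
  exact ha

end Pool.Agent.Helper83
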