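import Pool.Agent.Helper83.Pivot

set_option autoImplicit false

open MeasureTheory Set Topology Filter

namespace Pool.Agent.Helper83

/-- Tuples whose convex hull lies in `S`. -/
def cvx {d : ℕ} (k : ℕ) (S : Set (Pt d)) : Set (Fin (k+1) → Pt d) :=
  {x | convexHull ℝ (Set.range x) ⊆ S}

lemma um_cvx {d : ℕ} (k : ℕ) {S : Set (Pt d)} (hS : MeasurableSet S) : UM (cvx k S) := um_conv hS

lemma cvx_mem {d k : ℕ} {S : Set (Pt d)} {x : Fin (k+1) → Pt d} (hx : x ∈ cvx k S) (i : Fin (k+1)) :
    x i ∈ S := hx (subset_convexHull ℝ _ (mem_range_self i))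

lemma cvx_segment {d k : ℕ} {S : Set (Pt d)} {x : Fin (k+1) → Pt d} (hx : x ∈ cvx k S)
    (i j : Fin (k+1)) : segment ℝ (x i) (x j) ⊆ S := by
  refine Set.Subset.trans ?_ hx
  exact (convex_convexHull ℝ _).segment_subset (subset_convexHull ℝ _ (mem_range_self i))
    (subset_convexHull ℝ _ (mem_range_self j))

lemma fiber_bound {d k : ℕ} {S : Set (Pt d)} (hS : MeasurableSet S) (hS1 : volume S ≤ 1)
    {R : Set (Pt d × Pt d)} (hR : UM R) (j : Fin k) :
    volume {x : Fin (k+1) → Pt d | (x 0, x j.succ) ∈ R ∧ ∀ l, x l ∈ S} ≤ volume R := by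
  set A := {x : Fin (k+1) → Pt d | (x 0, x j.succ) ∈ R ∧ ∀ l, x l ∈ S} with hA
  have hAum : UM A := by
    apply UM.inter
    · exact hR.preimage (f := fun x : Fin (k+1) → Pt d => (x 0, x j.succ)) (by fun_prop)
    · have : {x : Fin (k+1) → Pt d | ∀ l, x l ∈ S} = ⋂ l, {x : Fin (k+1) → Pt d | x l ∈ S} := by
        ext x; simp
      change UM {x : Fin (k+1) → Pt d | ∀ l, x l ∈ S}
      rw [this]
      apply UM.iInter
      intro l
      exact (UM.of_measurable hS).preimage (f := fun x : Fin (k+1) → Pt d => x l) (by fun_prop)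
  rw [← (mp_cons (A := Pt d) k).measure_preimage (hAum volume)]
  have hprod : (volume : Measure (Pt d × (Fin k → Pt d))) = (volume : Measure (Pt d)).prod volume := rfl
  have hprod2 : (volume : Measure (Pt d × Pt d)) = (volume : Measure (Pt d)).prod volume := rfl
  rw [hprod, prod_apply_um _ _ ((hAum.preimage (mp_cons (A := Pt d) k).measurable) _), hprod2,
    prod_apply_um _ _ (hR _)]
  apply lintegral_mono
  intro P
  have hsub : (Prod.mk P ⁻¹' ((fun z : Pt d × (Fin k → Pt d) => (Fin.cons z.1 z.2 : Fin (k+1) → Pt d)) ⁻¹' A)) ⊆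
      Set.pi univ (fun l : Fin k => if l = j then Prod.mk P ⁻¹' R else S) := by
    intro x hx l _
    have h1 : ((Fin.cons P x : Fin (k+1) → Pt d) 0, (Fin.cons P x : Fin (k+1) → Pt d) j.succ) ∈ R := hx.1
    have h2 : ∀ l, (Fin.cons P x : Fin (k+1) → Pt d) l ∈ S := hx.2
    show x l ∈ (if l = j then Prod.mk P ⁻¹' R else S)
    split_ifs with hl
    · subst hl; simpa using h1
    · simpa using h2 l.succ
  refine (measure_mono hsub).trans ?_
  rw [volume_pi_pi]
  rw [← Finset.mul_prod_erase Finset.univ _ (Finset.mem_univ j)]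
  simp only [if_true]
  calc volume (Prod.mk P ⁻¹' R) * ∏ x ∈ Finset.univ.erase j, volume (if x = j then Prod.mk P ⁻¹' R else S)
      ≤ volume (Prod.mk P ⁻¹' R) * 1 := by
        gcongr
        apply Finset.prod_le_one'
        intro l hl
        rw [if_neg (Finset.ne_of_mem_erase hl)]
        exact hS1
    _ = volume (Prod.mk P ⁻¹' R) := mul_one _

/-- Existence of a good set of points. -/
lemma good_points {d : ℕ} (k : ℕ) {S : Set (Pt d)} (hS : MeasurableSet S) (hS1 : volume S ≤ 1)
    {e : ENNReal} (he : e ≠ ⊤) (h : e ≤ volume (cvx (k+1) S)) :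
    ∃ T : Set (Pt d), MeasurableSet T ∧ T ⊆ S ∧
      (∀ P ∈ T, e / 4 ≤ volume {x : Fin (k+1) → Pt d | (Fin.cons P x : Fin (k+1+1) → Pt d) ∈ cvx (k+1) S}) ∧
      e / 2 ≤ volume {p : Pt d × Pt d | p.1 ∈ T ∧ (p.2 ∈ T ∧ segment ℝ p.1 p.2 ⊆ S)} := by
  have hCum : UM (cvx (k+1) S) := um_cvx (k+1) hS
  set W : Set (Pt d × (Fin (k+1) → Pt d)) :=
    (fun z : Pt d × (Fin (k+1) → Pt d) => (Fin.cons z.1 z.2 : Fin (k+1+1) → Pt d)) ⁻¹' (cvx (k+1) S) with hW
  have hWum : UM W := hCum.preimage (mp_cons (A := Pt d) (k+1)).measurable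
  set S0 : Set (Pt d) := {P | e / 4 ≤ volume (Prod.mk P ⁻¹' W)} ∩ S with hS0
  have hS0um : UM S0 := by
    have : {P | e / 4 ≤ volume (Prod.mk P ⁻¹' W)} = {P | volume (Prod.mk P ⁻¹' W) < e / 4}ᶜ := by
      ext P; simp
    rw [hS0, this]
    exact (um_section_lt volume hWum _).compl.inter (UM.of_measurable hS)
  obtain ⟨T, hTS0, hTm, hTae⟩ := (hS0um volume).exists_measurable_subset_ae_eq
  have hTS : T ⊆ S := hTS0.trans inter_subset_right
  refine ⟨T, hTm, hTS, ?_, ?_⟩
  · intro P hP
    exact (hTS0 hP).1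
  · have hT1 : volume T ≤ 1 := (measure_mono hTS).trans hS1
    -- mass with first coordinate bad
    have hbad0 : volume (cvx (k+1) S ∩ {x | x 0 ∉ T}) ≤ e / 4 := by
      have hAum : UM (cvx (k+1) S ∩ {x | x 0 ∉ T}) := by
        apply hCum.inter
        exact (UM.of_measurable hTm.compl).preimage (f := fun x : Fin (k+1+1) → Pt d => x 0) (by fun_prop)
      rw [← (mp_cons (A := Pt d) (k+1)).measure_preimage (hAum volume)]
      have hprod : (volume : Measure (Pt d × (Fin (k+1) → Pt d))) = (volume : Measure (Pt d)).prod volume := rfl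
      rw [hprod, prod_apply_um _ _ ((hAum.preimage (mp_cons (A := Pt d) (k+1)).measurable) _)]
      have hae : ∀ᵐ P ∂(volume : Measure (Pt d)), P ∈ T ↔ P ∈ S0 := by
        filter_upwards [hTae] with P hP
        exact iff_of_eq hP
      calc _ ≤ ∫⁻ P : Pt d, S.indicator (fun _ => e / 4) P := by
            apply lintegral_mono_ae
            filter_upwards [hae] with P hP
            by_cases hPS : P ∈ S
            · rw [indicator_of_mem hPS]
              by_cases hPT : P ∈ T
              · have : (Prod.mk P ⁻¹' ((fun z : Pt d × (Fin (k+1) → Pt d) => (Fin.cons z.1 z.2 : Fin (k+1+1) → Pt d)) ⁻¹' (cvx (k+1) S ∩ {x | x 0 ∉ T}))) = ∅ := by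
                  ext x; simp [hPT]
                rw [this]; simp
              · have hP0 : P ∉ S0 := fun h => hPT (hP.mpr h)
                have hlt : volume (Prod.mk P ⁻¹' W) < e / 4 := by
                  by_contra hcon
                  push Not at hcon
                  exact hP0 ⟨hcon, hPS⟩
                refine le_trans (measure_mono ?_) hlt.le
                intro x hx
                exact hx.1
            · rw [indicator_of_notMem hPS]
              have : (Prod.mk P ⁻¹' ((fun z : Pt d × (Fin (k+1) → Pt d) => (Fin.cons z.1 z.2 : Fin (k+1+1) → Pt d)) ⁻¹' (cvx (k+1) S ∩ {x | x 0 ∉ T}))) = ∅ := by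
                rw [Set.eq_empty_iff_forall_notMem]
                intro x hx
                have h1 : (Fin.cons P x : Fin (k+1+1) → Pt d) ∈ cvx (k+1) S := hx.1
                exact hPS (by simpa using cvx_mem h1 0)
              rw [this]; simp
        _ = e / 4 * volume S := by rw [lintegral_indicator_const hS]
        _ ≤ e / 4 * 1 := by gcongr
        _ = e / 4 := mul_one _
    have hbad1 : volume (cvx (k+1) S ∩ {x | x 1 ∉ T}) ≤ e / 4 := by
      have hmp := mp_comp_equiv (volume : Measure (Pt d)) (Equiv.swap (0 : Fin (k+1+1)) 1)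
      have hAum : UM (cvx (k+1) S ∩ {x | x 0 ∉ T}) := by
        apply hCum.inter
        exact (UM.of_measurable hTm.compl).preimage (f := fun x : Fin (k+1+1) → Pt d => x 0) (by fun_prop)
      have h1 := hmp.measure_preimage (hAum (Measure.pi fun _ => volume))
      have h2 : (fun a : Fin (k+1+1) → Pt d => a ∘ (Equiv.swap (0 : Fin (k+1+1)) 1)) ⁻¹'
          (cvx (k+1) S ∩ {x | x 0 ∉ T}) = (cvx (k+1) S ∩ {x | x 1 ∉ T}) := by
        ext x
        simp only [mem_preimage, mem_inter_iff, mem_ofPred_eq, Function.comp_apply,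
          Equiv.swap_apply_left, cvx]
        rw [(Equiv.swap (0 : Fin (k+1+1)) 1).surjective.range_comp]
      rw [h2] at h1
      exact le_trans (le_of_eq h1) hbad0
    have hsplit : e ≤ e / 2 + volume (cvx (k+1) S ∩ {x | x 0 ∈ T ∧ x 1 ∈ T}) := by
      calc e ≤ volume (cvx (k+1) S) := h
        _ ≤ volume (((cvx (k+1) S ∩ {x | x 0 ∉ T}) ∪ (cvx (k+1) S ∩ {x | x 1 ∉ T})) ∪
              (cvx (k+1) S ∩ {x | x 0 ∈ T ∧ x 1 ∈ T})) := by
            apply measure_mono
            intro x hx
            by_cases h0 : x 0 ∈ T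
            · by_cases h1 : x 1 ∈ T
              · exact Or.inr ⟨hx, h0, h1⟩
              · exact Or.inl (Or.inr ⟨hx, h1⟩)
            · exact Or.inl (Or.inl ⟨hx, h0⟩)
        _ ≤ volume ((cvx (k+1) S ∩ {x | x 0 ∉ T}) ∪ (cvx (k+1) S ∩ {x | x 1 ∉ T})) +
              volume (cvx (k+1) S ∩ {x | x 0 ∈ T ∧ x 1 ∈ T}) := measure_union_le _ _
        _ ≤ (volume (cvx (k+1) S ∩ {x | x 0 ∉ T}) + volume (cvx (k+1) S ∩ {x | x 1 ∉ T})) +
              volume (cvx (k+1) S ∩ {x | x 0 ∈ T ∧ x 1 ∈ T}) := by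
            gcongr; exact measure_union_le _ _
        _ ≤ (e / 4 + e / 4) + volume (cvx (k+1) S ∩ {x | x 0 ∈ T ∧ x 1 ∈ T}) := by gcongr
        _ = e / 2 + volume (cvx (k+1) S ∩ {x | x 0 ∈ T ∧ x 1 ∈ T}) := by
            congr 1
            have : e / 4 = e / 2 / 2 := by
              rw [ENNReal.div_eq_inv_mul, ENNReal.div_eq_inv_mul, ENNReal.div_eq_inv_mul, ← mul_assoc]
              congr 1
              rw [← ENNReal.mul_inv (Or.inl (by norm_num)) (Or.inl (by norm_num))]
              norm_num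
            rw [this, ENNReal.add_halves]
    refine (enn_half_le he hsplit).trans ?_
    have hRum : UM {p : Pt d × Pt d | p.1 ∈ T ∧ (p.2 ∈ T ∧ segment ℝ p.1 p.2 ⊆ S)} :=
      ((UM.of_measurable hTm).preimage measurable_fst).inter (um_visRel hS hTm)
    refine le_trans (measure_mono ?_) (fiber_bound (k := k+1) hS hS1 hRum 0)
    rintro x ⟨hx, h0, h1⟩
    refine ⟨⟨h0, ?_, ?_⟩, cvx_mem hx⟩
    · exact h1
    · exact cvx_segment hx 0 1

end Pool.Agent.Helper83
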