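import Pool.Agent.Helper83.Norm1

set_option autoImplicit false

open MeasureTheory Set Topology Filter

namespace Pool.Agent.Helper83

lemma mp_snoc {A : Type} [MeasureSpace A] [SigmaFinite (volume : Measure A)] (n : ℕ) :
    MeasurePreserving (fun z : A × (Fin n → A) => (Fin.snoc z.2 z.1 : Fin (n+1) → A))
      volume volume := by
  have h := (volume_preserving_piFinSuccAbove (fun _ : Fin (n+1) => A) (Fin.last n)).symm
  have heq : (fun z : A × (Fin n → A) => (Fin.snoc z.2 z.1 : Fin (n+1) → A)) =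
      ⇑(MeasurableEquiv.piFinSuccAbove (fun _ : Fin (n+1) => A) (Fin.last n)).symm := by
    funext z
    simp [MeasurableEquiv.piFinSuccAbove, Fin.insertNthEquiv]
  rw [heq]
  exact h

lemma box_exists (n : ℕ) (e : ENNReal) (he : e ≠ 0) (he1 : e ≠ ⊤) :
    ∃ c : ENNReal, c ≠ 0 ∧ c ≠ ⊤ ∧ ∃ V : ℝ, 0 < V ∧ ∀ S T : Set (Pt (n+1)), MeasurableSet S →
      MeasurableSet T → T ⊆ S → volume S ≤ 1 →
      e ≤ volume {p : Pt (n+1) × Pt (n+1) | p.1 ∈ T ∧ (p.2 ∈ T ∧ segment ℝ p.1 p.2 ⊆ S)} →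
      ∃ (A : Matrix (Fin (n+1)) (Fin (n+1)) ℝ) (p : Pt (n+1)), 1 ≤ |A.det| * V ∧
        c ≤ volume {Q | Q ∈ T ∧ ∀ i, |(A.mulVec (Q - p)) i| ≤ 1} := by
  obtain ⟨m, hm0, hmt, V, hV, hm⟩ := chain_det n e he he1
  obtain ⟨K, hK0, hKt, hK⟩ := pivot n
  have hm2 : m / 2 ≠ 0 := ENNReal.div_ne_zero.mpr ⟨hm0, by norm_num⟩
  have hm3 : m / 2 ≠ ⊤ := (ENNReal.div_lt_top hmt (by norm_num)).ne
  refine ⟨m / 2 / K, ENNReal.div_ne_zero.mpr ⟨hm2, hKt⟩, (ENNReal.div_lt_top hm3 hK0).ne, V, hV, ?_⟩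
  intro S T hS hT hTS hS1 hG
  have h1 := hm S T hS hT hTS hS1 hG
  have hT1 : volume T ≤ 1 := (measure_mono hTS).trans hS1
  set G : Set (Fin (n+1+1) → Pt (n+1)) := {P | (∀ i, P i ∈ T) ∧ |(diffMat P).det| ≤ V} with hGdef
  have hGm : MeasurableSet G := by
    apply MeasurableSet.inter
    · have : {P : Fin (n+1+1) → Pt (n+1) | ∀ i, P i ∈ T} = Set.pi univ (fun _ => T) := by
        ext P; simp only [Set.mem_pi, mem_univ, true_implies, mem_ofPred_eq]
      change MeasurableSet {P : Fin (n+1+1) → Pt (n+1) | ∀ i, P i ∈ T}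
      rw [this]; exact MeasurableSet.univ_pi (fun _ => hT)
    · exact measurableSet_le ((measurable_diffMat_det (n+1)).abs) measurable_const
  rw [← (mp_snoc (A := Pt (n+1)) (n+1)).measure_preimage hGm.nullMeasurableSet] at h1
  have hprod : (volume : Measure (Pt (n+1) × (Fin (n+1) → Pt (n+1)))) =
    (volume : Measure (Pt (n+1))).prod volume := rfl
  have hGm' := (mp_snoc (A := Pt (n+1)) (n+1)).measurable hGm
  rw [hprod, Measure.prod_apply hGm'] at h1
  have hex : ∃ p : Pt (n+1), m / 2 < volume (Prod.mk p ⁻¹'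
      ((fun z : Pt (n+1) × (Fin (n+1) → Pt (n+1)) => (Fin.snoc z.2 z.1 : Fin (n+1+1) → Pt (n+1))) ⁻¹' G)) := by
    by_contra hcon
    push Not at hcon
    have h2 : m ≤ m / 2 := by
      calc m ≤ _ := h1
        _ ≤ ∫⁻ p : Pt (n+1), T.indicator (fun _ => m / 2) p := by
          apply lintegral_mono
          intro p
          by_cases hp : p ∈ T
          · rw [indicator_of_mem hp]; exact hcon p
          · rw [indicator_of_notMem hp]
            have : (Prod.mk p ⁻¹' ((fun z : Pt (n+1) × (Fin (n+1) → Pt (n+1)) => (Fin.snoc z.2 z.1 : Fin (n+1+1) → Pt (n+1))) ⁻¹' G)) = ∅ := by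
              rw [Set.eq_empty_iff_forall_notMem]
              intro x hx
              have h3 : ∀ i, (Fin.snoc x p : Fin (n+1+1) → Pt (n+1)) i ∈ T := hx.1
              exact hp (by simpa using h3 (Fin.last (n+1)))
            show volume (Prod.mk p ⁻¹' ((fun z : Pt (n+1) × (Fin (n+1) → Pt (n+1)) => (Fin.snoc z.2 z.1 : Fin (n+1+1) → Pt (n+1))) ⁻¹' G)) ≤ 0
            rw [this]; simp
        _ = m / 2 * volume T := by rw [lintegral_indicator_const hT]
        _ ≤ m / 2 * 1 := by gcongr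
        _ = m / 2 := mul_one _
    exact absurd (ENNReal.half_lt_self hm0 hmt) (not_lt.mpr h2)
  obtain ⟨p, hp⟩ := hex
  set T' : Set (Pt (n+1)) := (fun x => x + p) ⁻¹' T with hT'
  have hT'm : MeasurableSet T' := by
    have : Measurable (fun x : Pt (n+1) => x + p) := by fun_prop
    exact this hT
  set ν : Measure (Pt (n+1)) := volume.restrict T' with hν
  have hνac : ν ≪ volume := Measure.absolutelyContinuous_of_le Measure.restrict_le_self
  have hν1 : ν univ ≤ 1 := by
    rw [hν, Measure.restrict_apply_univ, hT', measure_preimage_add_right]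
    exact hT1
  have hfin : IsFiniteMeasure ν := ⟨lt_of_le_of_lt hν1 ENNReal.one_lt_top⟩
  have hcdet : Continuous fun a : Fin (n+1) → Pt (n+1) => |Matrix.det (Matrix.of a)| := by
    apply Continuous.abs
    apply Continuous.matrix_det
    fun_prop
  have hDm : MeasurableSet {a : Fin (n+1) → Pt (n+1) | |Matrix.det (Matrix.of a)| ≤ V} :=
    measurableSet_le hcdet.measurable measurable_const
  have hle : m / 2 ≤ (Measure.pi (fun _ : Fin (n+1) => ν)) {a | |Matrix.det (Matrix.of a)| ≤ V} := by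
    refine hp.le.trans ?_
    rw [hν, ← Measure.restrict_pi_pi, Measure.restrict_apply hDm]
    rw [← measure_preimage_add_right (volume : Measure (Fin (n+1) → Pt (n+1))) (fun _ => p)
      (Prod.mk p ⁻¹' ((fun z : Pt (n+1) × (Fin (n+1) → Pt (n+1)) => (Fin.snoc z.2 z.1 : Fin (n+1+1) → Pt (n+1))) ⁻¹' G))]
    apply measure_mono
    intro a ha
    have h2 : ∀ i, (Fin.snoc (a + fun _ => p) p : Fin (n+1+1) → Pt (n+1)) i ∈ T := ha.1
    have h3 : |(diffMat (Fin.snoc (a + fun _ => p) p : Fin (n+1+1) → Pt (n+1))).det| ≤ V := ha.2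
    have h4 : diffMat (Fin.snoc (a + fun _ => p) p : Fin (n+1+1) → Pt (n+1)) = Matrix.of a := by
      ext i j
      simp [diffMat]
    rw [h4] at h3
    refine ⟨h3, ?_⟩
    intro i _
    have := h2 i.castSucc
    simpa [hT'] using this
  obtain ⟨A, hAdet, hA⟩ := hK ν hνac hν1 V hV (m / 2) hm2 hle
  refine ⟨A, p, hAdet, ?_⟩
  have hbox : MeasurableSet {x : Pt (n+1) | ∀ i, |(A.mulVec x) i| ≤ 1} := by
    have : {x : Pt (n+1) | ∀ i, |(A.mulVec x) i| ≤ 1} =
      ⋂ i, {x : Pt (n+1) | |(A.mulVec x) i| ≤ 1} := by ext x; simp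
    rw [this]
    apply MeasurableSet.iInter
    intro i
    apply measurableSet_le _ measurable_const
    have : Continuous fun x : Pt (n+1) => (A.mulVec x) := by fun_prop
    exact (((continuous_apply i).comp this).abs).measurable
  rw [hν, Measure.restrict_apply hbox] at hA
  have hA2 : m / 2 / K ≤ volume ({x : Pt (n+1) | ∀ i, |(A.mulVec x) i| ≤ 1} ∩ T') := by
    rw [ENNReal.div_le_iff_le_mul (Or.inl hK0) (Or.inl hKt), mul_comm]
    exact hA
  refine hA2.trans (le_of_eq ?_)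
  rw [← measure_preimage_add_right (volume : Measure (Pt (n+1))) p
    {Q | Q ∈ T ∧ ∀ i, |(A.mulVec (Q - p)) i| ≤ 1}]
  congr 1
  ext x
  simp only [hT', mem_inter_iff, mem_ofPred_eq, mem_preimage, add_sub_cancel_right]
  exact and_comm

end Pool.Agent.Helper83
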