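import Pool.Agent.Helper83.Norm2

set_option autoImplicit false

open MeasureTheory Set Topology Filter

namespace Pool.Agent.Helper83

lemma box_vol {d : ℕ} (A : Matrix (Fin d) (Fin d) ℝ) (hA : A.det ≠ 0) (p : Pt d) :
    volume {Q : Pt d | ∀ i, |(A.mulVec (Q - p)) i| ≤ 1} = ENNReal.ofReal (|A.det|⁻¹ * 2 ^ d) := by
  have h1 : {Q : Pt d | ∀ i, |(A.mulVec (Q - p)) i| ≤ 1} =
      (fun Q => Q + (-p)) ⁻¹' ((Matrix.toLin' A) ⁻¹' (Set.pi univ (fun _ => Icc (-1:ℝ) 1))) := by
    ext Q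
    simp only [mem_ofPred_eq, mem_preimage, Set.mem_pi, mem_univ, true_implies, mem_Icc,
      Matrix.toLin'_apply, ← sub_eq_add_neg, abs_le]
  have hdet : LinearMap.det (Matrix.toLin' A) = A.det := by simp [LinearMap.det_toLin']
  rw [h1, measure_preimage_add_right, Measure.addHaar_preimage_linearMap _ (by rw [hdet]; exact hA),
    hdet, volume_pi_pi]
  simp only [Real.volume_Icc, Finset.prod_const, Finset.card_univ, Fintype.card_fin]
  rw [ENNReal.ofReal_mul (by positivity), abs_inv]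
  congr 1
  rw [← ENNReal.ofReal_pow (by norm_num)]
  norm_num

theorem normalize (n k : ℕ) (e : ENNReal) (he : e ≠ 0) (he1 : e ≠ ⊤) :
    ∃ c : ENNReal, c ≠ 0 ∧ ∃ V W : ℝ, 0 < V ∧ 0 < W ∧ ∀ S : Set (Pt (n+1)), MeasurableSet S →
      volume S ≤ 1 → e ≤ volume (cvx (k+1) S) →
      ∃ (A : Matrix (Fin (n+1)) (Fin (n+1)) ℝ) (p : Pt (n+1)), 1 ≤ |A.det| * V ∧ |A.det| ≤ W ∧
        c ≤ volume {x | x ∈ cvx (k+1) S ∧ ∀ j i, |(A.mulVec (x j - p)) i| ≤ 1} := by
  have he2 : e / 2 ≠ 0 := ENNReal.div_ne_zero.mpr ⟨he, by norm_num⟩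
  have he3 : e / 2 ≠ ⊤ := (ENNReal.div_lt_top he1 (by norm_num)).ne
  obtain ⟨c1, hc10, hc1t, V0, hV0, hbox⟩ := box_exists n (e / 2) he2 he3
  have he4 : e / 4 ≠ 0 := ENNReal.div_ne_zero.mpr ⟨he, by norm_num⟩
  have he5 : e / 4 ≠ ⊤ := (ENNReal.div_lt_top he1 (by norm_num)).ne
  set c2 : ENNReal := c1 * (e / 4) with hc2
  have hc20 : c2 ≠ 0 := mul_ne_zero hc10 he4
  have hc2t : c2 ≠ ⊤ := ENNReal.mul_ne_top hc1t he5
  have hc3 : c2 / 2 ≠ 0 := ENNReal.div_ne_zero.mpr ⟨hc20, by norm_num⟩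
  have hc3t : c2 / 2 ≠ ⊤ := (ENNReal.div_lt_top hc2t (by norm_num)).ne
  set D : ENNReal := ((k+1 : ℕ) : ENNReal) * ((n+1 : ℕ) : ENNReal) * 2 ^ (n+1) with hD
  have hDt : D ≠ ⊤ := by
    refine ENNReal.mul_ne_top (ENNReal.mul_ne_top (ENNReal.natCast_ne_top _) (ENNReal.natCast_ne_top _)) ?_
    exact ENNReal.pow_ne_top (by norm_num)
  obtain ⟨J, hJ⟩ := ENNReal.exists_nat_mul_gt hc3 hDt
  have hJ0 : 0 < J := by
    rcases Nat.eq_zero_or_pos J with h | h
    · subst h; simp at hJ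
    · exact h
  have hJr : (1 : ℝ) ≤ J := by exact_mod_cast hJ0
  have hJe : (J : ENNReal) ≠ 0 := by exact_mod_cast hJ0.ne'
  have hJt : (J : ENNReal) ≠ ⊤ := ENNReal.natCast_ne_top J
  refine ⟨c2 / 2, hc3, V0 * (4 * J) ^ (n+1), c1.toReal⁻¹ * 2 ^ (n+1), by positivity,
    mul_pos (inv_pos.mpr (ENNReal.toReal_pos hc10 hc1t)) (by positivity), ?_⟩
  intro S hS hS1 hC
  obtain ⟨T, hT, hTS, hTsec, hTpair⟩ := good_points k hS hS1 he1 hC
  obtain ⟨A0, p, hA0det, hA0⟩ := hbox S T hS hT hTS hS1 hTpair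
  have hA0ne : A0.det ≠ 0 := by
    intro h
    rw [h] at hA0det
    simp at hA0det
    linarith
  let g : Fin (n+1) → Pt (n+1) → ℝ := fun i Q => (A0.mulVec (Q - p)) i
  have hgc : ∀ i, Continuous (g i) := by
    intro i
    have : Continuous fun Q : Pt (n+1) => (A0.mulVec (Q - p)) := by fun_prop
    exact (continuous_apply i).comp this
  have hgaff : ∀ i (a : ℝ) (P Q : Pt (n+1)), g i ((1 - a) • P + a • Q) = (1 - a) * g i P + a * g i Q := by
    intro i a P Q
    simp only [g]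
    have : (1 - a) • P + a • Q - p = (1 - a) • (P - p) + a • (Q - p) := by
      ext j; simp; ring
    rw [this, Matrix.mulVec_add, Matrix.mulVec_smul, Matrix.mulVec_smul]
    simp
  have hCum : UM (cvx (k+1) S) := um_cvx (k+1) hS
  -- mass of tuples with first point in the box
  have hBm : MeasurableSet {Q : Pt (n+1) | Q ∈ T ∧ ∀ i, |g i Q| ≤ 1} := by
    apply hT.inter
    have : {Q : Pt (n+1) | ∀ i, |g i Q| ≤ 1} = ⋂ i, {Q : Pt (n+1) | |g i Q| ≤ 1} := by ext x; simp
    change MeasurableSet {Q : Pt (n+1) | ∀ i, |g i Q| ≤ 1}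
    rw [this]
    apply MeasurableSet.iInter
    intro i
    exact measurableSet_le ((hgc i).abs).measurable measurable_const
  have hmass : c2 ≤ volume {x : Fin (k+1+1) → Pt (n+1) | x ∈ cvx (k+1) S ∧ ∀ i, |g i (x 0)| ≤ 1} := by
    have hAum : UM {x : Fin (k+1+1) → Pt (n+1) | x ∈ cvx (k+1) S ∧ ∀ i, |g i (x 0)| ≤ 1} := by
      apply hCum.inter
      have : {x : Fin (k+1+1) → Pt (n+1) | ∀ i, |g i (x 0)| ≤ 1} =
        ⋂ i, {x : Fin (k+1+1) → Pt (n+1) | |g i (x 0)| ≤ 1} := by ext x; simp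
      change UM {x : Fin (k+1+1) → Pt (n+1) | ∀ i, |g i (x 0)| ≤ 1}
      rw [this]
      apply UM.iInter
      intro i
      apply UM.of_measurable
      apply measurableSet_le _ measurable_const
      have : Continuous fun x : Fin (k+1+1) → Pt (n+1) => |g i (x 0)| :=
        ((hgc i).comp (continuous_apply 0)).abs
      exact this.measurable
    rw [← (mp_cons (A := Pt (n+1)) (k+1)).measure_preimage (hAum volume)]
    have hprod : (volume : Measure (Pt (n+1) × (Fin (k+1) → Pt (n+1)))) =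
      (volume : Measure (Pt (n+1))).prod volume := rfl
    rw [hprod, prod_apply_um _ _ ((hAum.preimage (mp_cons (A := Pt (n+1)) (k+1)).measurable) _)]
    calc c2 = c1 * (e / 4) := rfl
      _ ≤ volume {Q : Pt (n+1) | Q ∈ T ∧ ∀ i, |g i Q| ≤ 1} * (e / 4) := by gcongr
      _ = ∫⁻ P, {Q : Pt (n+1) | Q ∈ T ∧ ∀ i, |g i Q| ≤ 1}.indicator (fun _ => e / 4) P := by
          rw [lintegral_indicator_const hBm, mul_comm]
      _ ≤ _ := by
          apply lintegral_mono
          intro P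
          by_cases hP : P ∈ {Q : Pt (n+1) | Q ∈ T ∧ ∀ i, |g i Q| ≤ 1}
          · rw [indicator_of_mem hP]
            refine (hTsec P hP.1).trans (measure_mono ?_)
            intro x hx
            refine ⟨hx, ?_⟩
            simpa using hP.2
          · rw [indicator_of_notMem hP]; exact zero_le
  -- bad sets
  let R : Fin (n+1) → Set (Pt (n+1) × Pt (n+1)) := fun i =>
    {z | (|g i z.1| ≤ 1 ∧ 4 * (J:ℝ) < |g i z.2|) ∧ segment ℝ z.1 z.2 ⊆ S}
  have hRum : ∀ i, UM (R i) := by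
    intro i
    apply UM.inter
    · apply UM.of_measurable
      apply MeasurableSet.inter
      · exact measurableSet_le (((hgc i).comp continuous_fst).abs).measurable measurable_const
      · exact measurableSet_lt measurable_const (((hgc i).comp continuous_snd).abs).measurable
    · exact um_vis hS
  have hRvol : ∀ i, (J : ENNReal) * volume (R i) ≤ 2 ^ (n+1) := by
    intro i
    have hprod2 : (volume : Measure (Pt (n+1) × Pt (n+1))) = (volume : Measure (Pt (n+1))).prod volume := rfl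
    have haem : AEMeasurable (fun Q : Pt (n+1) => volume ((fun x => (x, Q)) ⁻¹' (R i))) volume :=
      aemeasurable_section (volume : Measure (Pt (n+1))) volume ((hRum i).preimage measurable_swap)
    rw [hprod2, prod_apply_symm_um _ _ (hRum i _), ← lintegral_const_mul'' _ haem]
    calc ∫⁻ Q, (J : ENNReal) * volume ((fun x => (x, Q)) ⁻¹' (R i))
        ≤ ∫⁻ Q, S.indicator (fun _ => (2 : ENNReal) ^ (n+1)) Q := by
          apply lintegral_mono
          intro Q
          show (J : ENNReal) * volume ((fun x => (x, Q)) ⁻¹' (R i)) ≤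
            S.indicator (fun _ => (2 : ENNReal) ^ (n+1)) Q
          by_cases hQ : ((fun x => (x, Q)) ⁻¹' (R i)).Nonempty
          · obtain ⟨P, hP⟩ := hQ
            have hQS : Q ∈ S := hP.2 (right_mem_segment _ _ _)
            rw [indicator_of_mem hQS]
            have hQbig : 4 * (J:ℝ) < |g i Q| := hP.1.2
            refine le_trans ?_ (star_slab hS hS1 (g i) (hgc i).measurable (hgaff i) hJ0 Q hQbig)
            gcongr
            intro P' hP'
            exact ⟨hP'.1.1, hP'.2⟩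
          · rw [Set.not_nonempty_iff_eq_empty.mp hQ]; simp
      _ = 2 ^ (n+1) * volume S := by rw [lintegral_indicator_const hS]
      _ ≤ 2 ^ (n+1) * 1 := by gcongr
      _ = 2 ^ (n+1) := mul_one _
  have hbad : ∀ (j : Fin (k+1)) (i : Fin (n+1)),
      volume {x : Fin (k+1+1) → Pt (n+1) | (x 0, x j.succ) ∈ R i ∧ ∀ l, x l ∈ S} ≤ 2 ^ (n+1) / J := by
    intro j i
    refine (fiber_bound hS hS1 (hRum i) j).trans ?_
    rw [ENNReal.le_div_iff_mul_le (Or.inl hJe) (Or.inl hJt), mul_comm]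
    exact hRvol i
  -- good mass
  have hgood : c2 / 2 ≤ volume {x : Fin (k+1+1) → Pt (n+1) | x ∈ cvx (k+1) S ∧ ∀ j i, |g i (x j)| ≤ 4 * J} := by
    apply enn_half_le hc2t
    calc c2 ≤ _ := hmass
      _ ≤ volume ((⋃ j : Fin (k+1), ⋃ i : Fin (n+1),
            {x : Fin (k+1+1) → Pt (n+1) | (x 0, x j.succ) ∈ R i ∧ ∀ l, x l ∈ S}) ∪
            {x : Fin (k+1+1) → Pt (n+1) | x ∈ cvx (k+1) S ∧ ∀ j i, |g i (x j)| ≤ 4 * J}) := by
          apply measure_mono
          rintro x ⟨hx, hx0⟩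
          by_cases hall : ∀ j i, |g i (x j)| ≤ 4 * J
          · exact Or.inr ⟨hx, hall⟩
          · push Not at hall
            obtain ⟨j, i, hji⟩ := hall
            left
            have hj0 : j ≠ 0 := by
              intro h
              subst h
              have := hx0 i
              linarith
            obtain ⟨j', rfl⟩ := Fin.exists_succ_eq.mpr hj0
            simp only [mem_iUnion]
            exact ⟨j', i, ⟨⟨hx0 i, hji⟩, cvx_segment hx 0 _⟩, cvx_mem hx⟩
      _ ≤ volume (⋃ j : Fin (k+1), ⋃ i : Fin (n+1),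
            {x : Fin (k+1+1) → Pt (n+1) | (x 0, x j.succ) ∈ R i ∧ ∀ l, x l ∈ S}) + _ :=
          measure_union_le _ _
      _ ≤ c2 / 2 + _ := by
          gcongr
          calc volume (⋃ j : Fin (k+1), ⋃ i : Fin (n+1),
                {x : Fin (k+1+1) → Pt (n+1) | (x 0, x j.succ) ∈ R i ∧ ∀ l, x l ∈ S})
              ≤ ∑ j : Fin (k+1), volume (⋃ i : Fin (n+1),
                {x : Fin (k+1+1) → Pt (n+1) | (x 0, x j.succ) ∈ R i ∧ ∀ l, x l ∈ S}) :=
                measure_iUnion_fintype_le _ _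
            _ ≤ ∑ j : Fin (k+1), ∑ i : Fin (n+1), volume
                {x : Fin (k+1+1) → Pt (n+1) | (x 0, x j.succ) ∈ R i ∧ ∀ l, x l ∈ S} := by
                gcongr with j
                exact measure_iUnion_fintype_le _ _
            _ ≤ ∑ j : Fin (k+1), ∑ i : Fin (n+1), (2 ^ (n+1) / J : ENNReal) := by
                gcongr with j _ i _
                exact hbad j i
            _ = D / J := by
                simp only [Finset.sum_const, Finset.card_univ, Fintype.card_fin, nsmul_eq_mul, hD]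
                rw [ENNReal.div_eq_inv_mul, ENNReal.div_eq_inv_mul]
                ring
            _ ≤ c2 / 2 := by
                rw [ENNReal.div_le_iff_le_mul (Or.inl hJe) (Or.inl hJt), mul_comm]
                exact hJ.le
  -- rescaled matrix
  have h4J : (0:ℝ) < 4 * J := by positivity
  refine ⟨(4 * (J:ℝ))⁻¹ • A0, p, ?_, ?_, ?_⟩
  · rw [Matrix.det_smul, Fintype.card_fin, abs_mul, abs_of_pos (by positivity)]
    calc (1:ℝ) ≤ |A0.det| * V0 := hA0det
      _ = (4 * (J:ℝ))⁻¹ ^ (n+1) * |A0.det| * (V0 * (4 * J) ^ (n+1)) := by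
        rw [inv_pow]
        field_simp
  · rw [Matrix.det_smul, Fintype.card_fin, abs_mul, abs_of_pos (by positivity)]
    have h1 : (4 * (J:ℝ))⁻¹ ^ (n+1) ≤ 1 := by
      apply pow_le_one₀ (by positivity)
      rw [inv_le_one_iff₀]; right; linarith
    have h2 : c1 ≤ ENNReal.ofReal (|A0.det|⁻¹ * 2 ^ (n+1)) := by
      rw [← box_vol A0 hA0ne p]
      refine hA0.trans (measure_mono ?_)
      intro Q hQ; exact hQ.2
    have h3 : c1.toReal ≤ |A0.det|⁻¹ * 2 ^ (n+1) := ENNReal.toReal_le_of_le_ofReal (by positivity) h2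
    have h4 : 0 < c1.toReal := ENNReal.toReal_pos hc10 hc1t
    have h5 : 0 < |A0.det| := abs_pos.mpr hA0ne
    have h6 : |A0.det| ≤ c1.toReal⁻¹ * 2 ^ (n+1) := by
      rw [inv_mul_eq_div] at h3 ⊢
      rw [le_div_iff₀ h5] at h3
      rw [le_div_iff₀ h4]
      linarith
    calc (4 * (J:ℝ))⁻¹ ^ (n+1) * |A0.det| ≤ 1 * |A0.det| := by gcongr
      _ = |A0.det| := one_mul _
      _ ≤ _ := h6
  · refine hgood.trans (le_of_eq ?_)
    congr 1
    ext x
    simp only [mem_ofPred_eq]
    refine and_congr Iff.rfl ?_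
    refine forall_congr' fun j => forall_congr' fun i => ?_
    simp only [g, Matrix.smul_mulVec, Pi.smul_apply, smul_eq_mul]
    rw [abs_mul, abs_of_pos (by positivity : (0:ℝ) < (4 * (J:ℝ))⁻¹), inv_mul_le_iff₀ h4J, mul_one]

end Pool.Agent.Helper83
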