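import Pool.Agent.Helper83.Chain4

set_option autoImplicit false

open MeasureTheory Set Topology Filter

namespace Pool.Agent.Helper83

/-- The pivoting map. -/
noncomputable def pivMap {n : ℕ} (a : Pt (n+1)) (x : Pt (n+1)) : Pt n :=
  fun i => x i.succ - (x 0 / a 0) * a i.succ

lemma measurable_pivMap {n : ℕ} (a : Pt (n+1)) : Measurable (pivMap a) := by
  unfold pivMap
  fun_prop

lemma det_cons_pivot {n : ℕ} (a : Pt (n+1)) (ha : a 0 ≠ 0) (b : Fin n → Pt (n+1)) :
    Matrix.det (Matrix.of (Fin.cons a b : Fin (n+1) → Pt (n+1))) =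
      a 0 * Matrix.det (Matrix.of (fun j => pivMap a (b j))) := by
  set M : Matrix (Fin (n+1)) (Fin (n+1)) ℝ := Matrix.of (Fin.cons a b : Fin (n+1) → Pt (n+1)) with hM
  set M' : Matrix (Fin (n+1)) (Fin (n+1)) ℝ :=
    Matrix.of (Fin.cons a (fun j => b j - (b j 0 / a 0) • a) : Fin (n+1) → Pt (n+1)) with hM'
  have h1 : M.det = M'.det := by
    apply Matrix.det_eq_of_forall_row_eq_smul_add_const
      (Fin.cons 0 (fun j => b j 0 / a 0) : Fin (n+1) → ℝ) 0 (by simp)
    intro i j
    refine Fin.cases ?_ (fun i => ?_) i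
    · simp [hM, hM']
    · simp [hM, hM']
  rw [h1, Matrix.det_succ_column_zero, Fin.sum_univ_succ]
  have h2 : ∀ i : Fin n, M' i.succ 0 = 0 := by
    intro i
    simp [hM', ha]
  simp only [h2]
  simp only [mul_zero, zero_mul, Finset.sum_const_zero, add_zero, Fin.val_zero, pow_zero, one_mul]
  have h3 : M' 0 0 = a 0 := by simp [hM']
  rw [h3]
  congr 1

lemma mp_comp_equiv {ι : Type} [Fintype ι] {X : Type*} [MeasurableSpace X] (ν : Measure X)
    [SigmaFinite ν] (σ : Equiv.Perm ι) :
    MeasurePreserving (fun a : ι → X => a ∘ σ) (Measure.pi fun _ => ν) (Measure.pi fun _ => ν) := by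
  have hm : Measurable (fun a : ι → X => a ∘ σ) := by
    rw [measurable_pi_iff]; intro i
    exact measurable_pi_apply (σ i)
  refine ⟨hm, ?_⟩
  symm
  apply Measure.pi_eq
  intro s hs
  rw [Measure.map_apply hm (MeasurableSet.univ_pi hs)]
  have : (fun a : ι → X => a ∘ σ) ⁻¹' (Set.pi univ s) = Set.pi univ (fun j => s (σ.symm j)) := by
    ext a
    simp only [mem_preimage, Set.mem_pi, mem_univ, true_implies, Function.comp_apply]
    constructor
    · intro h j
      have := h (σ.symm j)
      simpa using this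
    · intro h i
      have := h (σ i)
      rwa [Equiv.symm_apply_apply] at this
  rw [this, Measure.pi_pi]
  exact Equiv.prod_comp σ.symm (fun i => ν (s i))

lemma pivMap_ac {n : ℕ} (a : Pt (n+1)) (ν : Measure (Pt (n+1))) (hν : ν ≪ volume) :
    ν.map (pivMap a) ≪ (volume : Measure (Pt n)) := by
  have hq : (volume : Measure (Pt (n+1))).map (pivMap a) ≪ (volume : Measure (Pt n)) := by
    refine Measure.AbsolutelyContinuous.mk fun N hN hN0 => ?_
    rw [Measure.map_apply (measurable_pivMap a) hN]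
    have hm := measurable_pivMap a hN
    rw [← (mp_cons (A := ℝ) n).measure_preimage hm.nullMeasurableSet]
    have hprod : (volume : Measure (ℝ × (Fin n → ℝ))) = (volume : Measure ℝ).prod volume := rfl
    rw [hprod, Measure.prod_apply ((mp_cons (A := ℝ) n).measurable hm)]
    rw [lintegral_eq_zero_iff (measurable_measure_prodMk_left ((mp_cons (A := ℝ) n).measurable hm))]
    filter_upwards with s
    show volume (Prod.mk s ⁻¹' ((fun z : ℝ × (Fin n → ℝ) => (Fin.cons z.1 z.2 : Fin (n+1) → ℝ)) ⁻¹' (pivMap a ⁻¹' N))) = 0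
    have : (Prod.mk s ⁻¹' ((fun z : ℝ × (Fin n → ℝ) => (Fin.cons z.1 z.2 : Fin (n+1) → ℝ)) ⁻¹' (pivMap a ⁻¹' N)))
      = (fun y : Pt n => y + (fun i => - (s / a 0 * a i.succ))) ⁻¹' N := by
      ext y
      simp only [mem_preimage]
      have : pivMap a (Fin.cons s y : Fin (n+1) → ℝ) = y + (fun i => - (s / a 0 * a i.succ)) := by
        ext i
        simp [pivMap, sub_eq_add_neg]
      rw [this]
    rw [this, measure_preimage_add_right]
    exact hN0
  exact (hν.map (measurable_pivMap a)).trans hq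

lemma pivot (n : ℕ) : ∃ K : ENNReal, K ≠ 0 ∧ K ≠ ⊤ ∧
    ∀ (ν : Measure (Pt (n+1))) [IsFiniteMeasure ν], ν ≪ volume → ν univ ≤ 1 →
    ∀ (V : ℝ), 0 < V → ∀ c : ENNReal, c ≠ 0 →
    c ≤ (Measure.pi (fun _ : Fin (n+1) => ν)) {a | |Matrix.det (Matrix.of a)| ≤ V} →
    ∃ A : Matrix (Fin (n+1)) (Fin (n+1)) ℝ, 1 ≤ |A.det| * V ∧
      c ≤ K * ν {x | ∀ i, |(A.mulVec x) i| ≤ 1} := by
  induction n with
  | zero =>
    refine ⟨1, one_ne_zero, ENNReal.one_ne_top, ?_⟩
    intro ν _ hν hν1 V hV c hc h
    refine ⟨Matrix.of (fun _ _ => V⁻¹), ?_, ?_⟩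
    · rw [Matrix.det_fin_one]
      simp only [Matrix.of_apply]
      rw [abs_of_pos (by positivity), inv_mul_cancel₀ hV.ne']
    · rw [one_mul]
      refine h.trans (le_of_eq ?_)
      have hmp := measurePreserving_piUnique (fun _ : Fin 1 => ν)
      have hset : {a : Fin 1 → Pt 1 | |Matrix.det (Matrix.of a)| ≤ V} =
          (MeasurableEquiv.piUnique (fun _ : Fin 1 => Pt 1)) ⁻¹' {x | ∀ i, |((Matrix.of (fun _ _ => V⁻¹) : Matrix (Fin 1) (Fin 1) ℝ).mulVec x) i| ≤ 1} := by
        ext a
        simp only [mem_ofPred_eq, mem_preimage, Matrix.det_fin_one, Matrix.of_apply]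
        have : (MeasurableEquiv.piUnique (fun _ : Fin 1 => Pt 1)) a = a 0 := rfl
        rw [this]
        simp only [Matrix.mulVec, dotProduct, Finset.univ_unique, Fin.default_eq_zero, Fin.isValue,
          Matrix.of_apply, Finset.sum_singleton, Fin.forall_fin_one]
        rw [abs_mul, abs_inv, abs_of_pos hV, inv_mul_le_iff₀ hV, mul_one]
      rw [hset]
      have hms : MeasurableSet {x : Pt 1 | ∀ i, |((Matrix.of (fun _ _ => V⁻¹) : Matrix (Fin 1) (Fin 1) ℝ).mulVec x) i| ≤ 1} := by
        apply MeasurableSet.congr (s := ⋂ i, {x : Pt 1 | |((Matrix.of (fun _ _ => V⁻¹) : Matrix (Fin 1) (Fin 1) ℝ).mulVec x) i| ≤ 1})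
        · apply MeasurableSet.iInter
          intro i
          apply measurableSet_le _ measurable_const
          have : Continuous fun x : Pt 1 => |((Matrix.of (fun _ _ => V⁻¹) : Matrix (Fin 1) (Fin 1) ℝ).mulVec x) i| := by
            have : Continuous fun x : Pt 1 => ((Matrix.of (fun _ _ => V⁻¹) : Matrix (Fin 1) (Fin 1) ℝ).mulVec x) := by fun_prop
            exact ((continuous_apply i).comp this).abs
          exact this.measurable
        · ext x; simp
      rw [hmp.measure_preimage hms.nullMeasurableSet]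
  | succ n ih =>
    obtain ⟨K, hK0, hKt, hK⟩ := ih
    refine ⟨2 * (n + 2) * K, ?_, ?_, ?_⟩
    · refine mul_ne_zero (mul_ne_zero (by norm_num) ?_) hK0
      have : ((n : ENNReal) + 2) = ((n + 2 : ℕ) : ENNReal) := by push_cast; ring
      rw [this]; exact_mod_cast (by omega : n + 2 ≠ 0)
    · refine ENNReal.mul_ne_top (ENNReal.mul_ne_top (by norm_num) ?_) hKt
      exact ENNReal.add_ne_top.mpr ⟨ENNReal.natCast_ne_top n, by norm_num⟩
    intro ν _ hν hν1 V hV c hc h
    set N2 : ENNReal := (n : ENNReal) + 2 with hN2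
    have hN2' : N2 = ((n + 2 : ℕ) : ENNReal) := by rw [hN2]; push_cast; ring
    have hN20 : N2 ≠ 0 := by rw [hN2']; exact_mod_cast (by omega : n + 2 ≠ 0)
    have hN2t : N2 ≠ ⊤ := by rw [hN2']; exact ENNReal.natCast_ne_top _
    -- tuples whose 0-th vector has largest first coordinate
    let T : Fin (n+1+1) → Set (Fin (n+1+1) → Pt (n+1+1)) :=
      fun i => {a | |Matrix.det (Matrix.of a)| ≤ V ∧ ∀ j, |a j 0| ≤ |a i 0|}
    have hcdet : Continuous fun a : Fin (n+1+1) → Pt (n+1+1) => |Matrix.det (Matrix.of a)| := by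
      apply Continuous.abs
      apply Continuous.matrix_det
      fun_prop
    have hTm : ∀ i, MeasurableSet (T i) := by
      intro i
      apply MeasurableSet.inter
      · exact measurableSet_le hcdet.measurable measurable_const
      · have : {a : Fin (n+1+1) → Pt (n+1+1) | ∀ j, |a j 0| ≤ |a i 0|} =
          ⋂ j, {a : Fin (n+1+1) → Pt (n+1+1) | |a j 0| ≤ |a i 0|} := by ext a; simp
        change MeasurableSet {a : Fin (n+1+1) → Pt (n+1+1) | ∀ j, |a j 0| ≤ |a i 0|}
        rw [this]
        apply MeasurableSet.iInter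
        intro j
        apply measurableSet_le <;> fun_prop
    have hTsym : ∀ i, (Measure.pi (fun _ : Fin (n+1+1) => ν)) (T i) =
        (Measure.pi (fun _ : Fin (n+1+1) => ν)) (T 0) := by
      intro i
      have hmp := mp_comp_equiv ν (Equiv.swap (0 : Fin (n+1+1)) i)
      rw [← hmp.measure_preimage (hTm 0).nullMeasurableSet]
      congr 1
      ext a
      simp only [T, mem_ofPred_eq, mem_preimage, Function.comp_apply, Equiv.swap_apply_left]
      have hdet : |Matrix.det (Matrix.of (a ∘ (Equiv.swap (0 : Fin (n+1+1)) i)))| =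
          |Matrix.det (Matrix.of a)| := by
        have h1 := Matrix.det_permute (Equiv.swap (0 : Fin (n+1+1)) i) (Matrix.of a)
        have h2 : (Matrix.of a).submatrix (Equiv.swap (0 : Fin (n+1+1)) i) id =
          Matrix.of (a ∘ (Equiv.swap (0 : Fin (n+1+1)) i)) := rfl
        rw [← h2, h1, abs_mul]
        rcases Int.units_eq_one_or (Equiv.Perm.sign (Equiv.swap (0 : Fin (n+1+1)) i)) with h | h <;>
          simp [h]
      rw [hdet]
      constructor
      · rintro ⟨h1, h2⟩
        exact ⟨h1, fun j => h2 _⟩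
      · rintro ⟨h1, h2⟩
        refine ⟨h1, fun j => ?_⟩
        have := h2 ((Equiv.swap (0 : Fin (n+1+1)) i) j)
        simpa using this
    have hc1 : c ≤ N2 * (Measure.pi (fun _ : Fin (n+1+1) => ν)) (T 0) := by
      calc c ≤ _ := h
        _ ≤ (Measure.pi (fun _ : Fin (n+1+1) => ν)) (⋃ i, T i) := by
            apply measure_mono
            intro a ha
            obtain ⟨i, hi⟩ := Finite.exists_max (fun j => |a j 0|)
            exact mem_iUnion.mpr ⟨i, ha, hi⟩
        _ ≤ ∑ i, (Measure.pi (fun _ : Fin (n+1+1) => ν)) (T i) := measure_iUnion_fintype_le _ _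
        _ = ∑ i : Fin (n+1+1), (Measure.pi (fun _ : Fin (n+1+1) => ν)) (T 0) := by
            apply Finset.sum_congr rfl
            intro i _; exact hTsym i
        _ = N2 * (Measure.pi (fun _ : Fin (n+1+1) => ν)) (T 0) := by
            rw [Finset.sum_const, Finset.card_univ, Fintype.card_fin, nsmul_eq_mul, hN2']
    have hct : c ≠ ⊤ := by
      refine ne_top_of_le_ne_top ?_ h
      exact measure_ne_top _ _
    -- Tonelli
    have hmp := (measurePreserving_piFinSuccAbove (fun _ : Fin (n+1+1) => ν) 0).symm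
    rw [← hmp.measure_preimage (hTm 0).nullMeasurableSet] at hc1
    have hTm' := (MeasurableEquiv.measurable
      (MeasurableEquiv.piFinSuccAbove (fun _ : Fin (n+1+1) => Pt (n+1+1)) 0).symm) (hTm 0)
    rw [Measure.prod_apply hTm'] at hc1
    have hex : ∃ a : Pt (n+1+1), a 0 ≠ 0 ∧ c / (2 * N2) <
        (Measure.pi (fun _ : Fin (n+1) => ν)) (Prod.mk a ⁻¹'
          ((MeasurableEquiv.piFinSuccAbove (fun _ : Fin (n+1+1) => Pt (n+1+1)) 0).symm ⁻¹' T 0)) := by
      by_contra hcon
      push Not at hcon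
      have hae : ∀ᵐ a ∂ν, a 0 ≠ 0 := by
        rw [ae_iff]
        simp only [ne_eq, not_not]
        apply hν
        exact Measure.pi_hyperplane (fun _ : Fin (n+1+1) => (volume : Measure ℝ)) 0 0
      have h1 : ∫⁻ a, (Measure.pi (fun _ : Fin (n+1) => ν)) (Prod.mk a ⁻¹'
          ((MeasurableEquiv.piFinSuccAbove (fun _ : Fin (n+1+1) => Pt (n+1+1)) 0).symm ⁻¹' T 0)) ∂ν
          ≤ c / (2 * N2) := by
        calc _ ≤ ∫⁻ a, c / (2 * N2) ∂ν := by
              apply lintegral_mono_ae
              filter_upwards [hae] with a ha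
              exact hcon a ha
          _ = c / (2 * N2) * ν univ := by rw [lintegral_const]
          _ ≤ c / (2 * N2) * 1 := by gcongr
          _ = c / (2 * N2) := mul_one _
      have h2 : c ≤ c / 2 := by
        calc c ≤ _ := hc1
          _ ≤ N2 * (c / (2 * N2)) := by gcongr
          _ = c / 2 := by
            rw [ENNReal.div_eq_inv_mul, ENNReal.div_eq_inv_mul, ENNReal.mul_inv (Or.inl (by norm_num)) (Or.inl (by norm_num))]
            calc N2 * (2⁻¹ * N2⁻¹ * c) = (N2 * N2⁻¹) * (2⁻¹ * c) := by ring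
              _ = 2⁻¹ * c := by rw [ENNReal.mul_inv_cancel hN20 hN2t, one_mul]
      exact absurd (ENNReal.half_lt_self hc hct) (not_lt.mpr h2)
    obtain ⟨a, ha0, ha⟩ := hex
    have ha0' : 0 < |a 0| := abs_pos.mpr ha0
    set H : Set (Pt (n+1+1)) := {x | |x 0| ≤ |a 0|} with hH
    have hHm : MeasurableSet H := by
      apply measurableSet_le <;> fun_prop
    set ν' : Measure (Pt (n+1)) := (ν.restrict H).map (pivMap a) with hν'
    have hpm := measurable_pivMap a
    have hν'ac : ν' ≪ volume := pivMap_ac a _ (Measure.absolutelyContinuous_of_le (Measure.restrict_le_self) |>.trans hν)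
    have hν'1 : ν' univ ≤ 1 := by
      rw [hν', Measure.map_apply hpm MeasurableSet.univ, preimage_univ]
      exact (Measure.restrict_apply_le _ _).trans hν1
    have hfin : IsFiniteMeasure ν' := by
      rw [hν']; infer_instance
    have hkey : (Measure.pi (fun _ : Fin (n+1) => ν)) (Prod.mk a ⁻¹'
          ((MeasurableEquiv.piFinSuccAbove (fun _ : Fin (n+1+1) => Pt (n+1+1)) 0).symm ⁻¹' T 0)) ≤
        (Measure.pi (fun _ : Fin (n+1) => ν')) {b | |Matrix.det (Matrix.of b)| ≤ V / |a 0|} := by
      have hcdet' : Continuous fun a : Fin (n+1) → Pt (n+1) => |Matrix.det (Matrix.of a)| := by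
        apply Continuous.abs
        apply Continuous.matrix_det
        fun_prop
      have hBm : MeasurableSet {b : Fin (n+1) → Pt (n+1) | |Matrix.det (Matrix.of b)| ≤ V / |a 0|} :=
        measurableSet_le hcdet'.measurable measurable_const
      have hmpi : MeasurePreserving (fun (b : Fin (n+1) → Pt (n+1+1)) (i : Fin (n+1)) => pivMap a (b i))
          (Measure.pi (fun _ => ν.restrict H)) (Measure.pi (fun _ => ν')) := by
        apply measurePreserving_pi
        intro i
        exact ⟨hpm, rfl⟩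
      rw [← hmpi.measure_preimage hBm.nullMeasurableSet, ← Measure.restrict_pi_pi,
        Measure.restrict_apply (hmpi.measurable hBm)]
      apply measure_mono
      intro b hb
      have hb' : (MeasurableEquiv.piFinSuccAbove (fun _ : Fin (n+1+1) => Pt (n+1+1)) 0).symm (a, b) ∈ T 0 := hb
      have heq : (MeasurableEquiv.piFinSuccAbove (fun _ : Fin (n+1+1) => Pt (n+1+1)) 0).symm (a, b) =
        (Fin.cons a b : Fin (n+1+1) → Pt (n+1+1)) := by
        simp [MeasurableEquiv.piFinSuccAbove, Fin.insertNthEquiv]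
      rw [heq] at hb'
      obtain ⟨h1, h2⟩ := hb'
      constructor
      · simp only [mem_preimage, mem_ofPred_eq]
        rw [det_cons_pivot a ha0 b, abs_mul] at h1
        rw [le_div_iff₀ ha0', mul_comm]
        exact h1
      · intro j _
        have := h2 j.succ
        simpa [hH] using this
    have hc2 : c / (2 * N2) ≠ 0 := ENNReal.div_ne_zero.mpr ⟨hc, ENNReal.mul_ne_top (by norm_num) hN2t⟩
    obtain ⟨A', hA'det, hA'⟩ := hK ν' hν'ac hν'1 (V / |a 0|) (by positivity) (c / (2 * N2)) hc2
      (ha.le.trans hkey)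
    -- the new matrix
    set A : Matrix (Fin (n+1+1)) (Fin (n+1+1)) ℝ := Matrix.of
      (Fin.cons (Fin.cons (1 / |a 0|) 0 : Pt (n+1+1)) (fun i => (Fin.cons
        (-(∑ j, A' i j * a j.succ) / a 0) (A' i) : Pt (n+1+1))) : Fin (n+1+1) → Pt (n+1+1)) with hA
    have hAx0 : ∀ x, (A.mulVec x) 0 = x 0 / |a 0| := by
      intro x
      simp [hA, Matrix.mulVec, dotProduct, Fin.sum_univ_succ]
      ring
    have hAxs : ∀ x (i : Fin (n+1)), (A.mulVec x) i.succ = (A'.mulVec (pivMap a x)) i := by
      intro x i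
      simp only [hA, Matrix.mulVec, dotProduct, Fin.sum_univ_succ (n := n+1), Matrix.of_apply,
        Fin.cons_succ, Fin.cons_zero, pivMap]
      simp only [mul_sub, Finset.sum_sub_distrib]
      have : ∑ j, A' i j * (x 0 / a 0 * a j.succ) = (∑ j, A' i j * a j.succ) * (x 0 / a 0) := by
        rw [Finset.sum_mul]
        apply Finset.sum_congr rfl
        intro j _; ring
      rw [this]
      ring
    refine ⟨A, ?_, ?_⟩
    · have hdet : A.det = 1 / |a 0| * A'.det := by
        rw [Matrix.det_succ_row_zero, Fin.sum_univ_succ]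
        have h2 : ∀ j : Fin (n+1), A 0 j.succ = 0 := by
          intro j; simp [hA]
        simp only [h2, mul_zero, zero_mul, Finset.sum_const_zero, add_zero, Fin.val_zero, pow_zero,
          one_mul]
        have h3 : A 0 0 = 1 / |a 0| := by simp [hA]
        rw [h3]
        congr 1
      rw [hdet, abs_mul, abs_of_nonneg (by positivity : (0:ℝ) ≤ 1 / |a 0|)]
      calc (1:ℝ) ≤ |A'.det| * (V / |a 0|) := hA'det
        _ = 1 / |a 0| * |A'.det| * V := by ring
    · have hms : MeasurableSet {x : Pt (n+1) | ∀ i, |(A'.mulVec x) i| ≤ 1} := by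
        have : {x : Pt (n+1) | ∀ i, |(A'.mulVec x) i| ≤ 1} =
          ⋂ i, {x : Pt (n+1) | |(A'.mulVec x) i| ≤ 1} := by ext x; simp
        rw [this]
        apply MeasurableSet.iInter
        intro i
        apply measurableSet_le _ measurable_const
        have : Continuous fun x : Pt (n+1) => (A'.mulVec x) := by fun_prop
        exact (((continuous_apply i).comp this).abs).measurable
      have h1 : ν' {x | ∀ i, |(A'.mulVec x) i| ≤ 1} ≤ ν {x | ∀ i, |(A.mulVec x) i| ≤ 1} := by
        rw [hν', Measure.map_apply hpm hms, Measure.restrict_apply (hpm hms)]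
        apply measure_mono
        rintro x ⟨hx1, hx2⟩
        intro i
        refine Fin.cases ?_ (fun i => ?_) i
        · rw [hAx0, abs_div, abs_abs, div_le_one ha0']
          exact hx2
        · rw [hAxs]; exact hx1 i
      have h20 : (2 * N2) ≠ 0 := mul_ne_zero (by norm_num) hN20
      have h2t : (2 * N2) ≠ ⊤ := ENNReal.mul_ne_top (by norm_num) hN2t
      calc c = (2 * N2) * (c / (2 * N2)) := by rw [ENNReal.mul_div_cancel h20 h2t]
        _ ≤ (2 * N2) * (K * ν' {x | ∀ i, |(A'.mulVec x) i| ≤ 1}) := by gcongr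
        _ ≤ (2 * N2) * (K * ν {x | ∀ i, |(A.mulVec x) i| ≤ 1}) := by gcongr
        _ = 2 * N2 * K * ν {x | ∀ i, |(A.mulVec x) i| ≤ 1} := by ring

end Pool.Agent.Helper83
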