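import Pool.Agent.Helper83.UM

set_option autoImplicit false

open MeasureTheory Set Topology Filter

namespace Pool.Agent.Helper83

/-- Pairs of points that see each other in `S`. -/
lemma um_vis {d : ℕ} {S : Set (Fin d → ℝ)} (hS : MeasurableSet S) :
    UM {p : (Fin d → ℝ) × (Fin d → ℝ) | segment ℝ p.1 p.2 ⊆ S} := by
  have h := um_conv (ι := Fin 2) hS
  have h2 := h.preimage (f := fun p : (Fin d → ℝ) × (Fin d → ℝ) => ![p.1, p.2]) (by
    rw [measurable_pi_iff]
    intro i
    fin_cases i
    · exact measurable_fst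
    · exact measurable_snd)
  convert h2 using 1
  ext p
  simp [Matrix.range_cons, Matrix.range_empty, convexHull_pair, segment_symm ℝ p.2 p.1]

lemma star_slab {d : ℕ} {S : Set (Fin d → ℝ)} (hS : MeasurableSet S) (hS1 : volume S ≤ 1)
    (g : (Fin d → ℝ) → ℝ) (hgm : Measurable g)
    (hg : ∀ (a : ℝ) (P Q : Fin d → ℝ), g ((1 - a) • P + a • Q) = (1 - a) * g P + a * g Q)
    {J : ℕ} (hJ : 0 < J) (Q : Fin d → ℝ) (hQ : 4 * (J : ℝ) < |g Q|) :
    (J : ENNReal) * volume {P | |g P| ≤ 1 ∧ segment ℝ P Q ⊆ S} ≤ 2 ^ d := by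
  set T : Set (Fin d → ℝ) := {P | |g P| ≤ 1 ∧ segment ℝ P Q ⊆ S} with hT
  have hTum : UM T := by
    have h1 : UM {P : Fin d → ℝ | |g P| ≤ 1} :=
      UM.of_measurable (measurableSet_le (hgm.abs) measurable_const)
    have h2 : UM {P : Fin d → ℝ | segment ℝ P Q ⊆ S} :=
      (um_vis hS).preimage (f := fun P => (P, Q)) (by fun_prop)
    exact h1.inter h2
  have hJr : (0 : ℝ) < J := by exact_mod_cast hJ
  let a : ℕ → ℝ := fun j => j / (2 * J)
  have ha0 : ∀ j, 0 ≤ a j := fun j => by positivity
  have ha1 : ∀ j, j < J → a j ≤ 1 / 2 := by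
    intro j hj
    have : (j : ℝ) ≤ J := by exact_mod_cast hj.le
    simp only [a]
    rw [div_le_div_iff₀ (by positivity) (by norm_num)]
    linarith
  let U : ℕ → Set (Fin d → ℝ) := fun j => (fun P => (1 - a j) • P + a j • Q) '' T
  have hUhom : ∀ j, U j = AffineMap.homothety Q (1 - a j) '' T := by
    intro j
    apply Set.image_congr
    intro P _
    simp [AffineMap.homothety_apply]
    ext i
    simp
    ring
  have hUmeas : ∀ j, j < J → (2 : ENNReal)⁻¹ ^ d * volume T ≤ volume (U j) := by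
    intro j hj
    rw [hUhom, Measure.addHaar_image_homothety]
    gcongr
    have h1 : (1/2 : ℝ) ≤ 1 - a j := by linarith [ha1 j hj]
    rw [Module.finrank_fin_fun, abs_of_nonneg (by positivity)]
    have h2 : (2 : ENNReal)⁻¹ = ENNReal.ofReal (1/2) := by
      rw [ENNReal.ofReal_div_of_pos (by norm_num)]; simp
    rw [h2, ← ENNReal.ofReal_pow (by norm_num)]
    apply ENNReal.ofReal_le_ofReal
    gcongr
  have hUS : ∀ j, j < J → U j ⊆ S := by
    rintro j hj _ ⟨P, hP, rfl⟩
    apply hP.2
    refine ⟨1 - a j, a j, ?_, ha0 j, by ring, rfl⟩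
    linarith [ha1 j hj]
  have hUum : ∀ j, j < J → UM (U j) := by
    intro j hj
    have h1 : (1 - a j) ≠ 0 := by linarith [ha1 j hj]
    have : U j = (fun x => (1 - a j)⁻¹ • (x - a j • Q)) ⁻¹' T := by
      ext x
      constructor
      · rintro ⟨P, hP, rfl⟩
        simpa [smul_smul, inv_mul_cancel₀ h1] using hP
      · intro hx
        refine ⟨_, hx, ?_⟩
        simp [smul_smul, mul_inv_cancel₀ h1]
    rw [this]
    apply hTum.preimage
    fun_prop
  have hdisj : ∀ i < J, ∀ j < J, i ≠ j → Disjoint (U i) (U j) := by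
    intro i hi j hj hij
    rw [Set.disjoint_left]
    rintro _ ⟨P, hP, rfl⟩ ⟨P', hP', h⟩
    have h1 := congrArg g h
    rw [hg, hg] at h1
    have hp := abs_le.mp hP.1
    have hp' := abs_le.mp hP'.1
    have hai := ha0 i
    have haj := ha0 j
    have hai1 := ha1 i hi
    have haj1 := ha1 j hj
    have hdiff : 1 / (2 * (J:ℝ)) ≤ |a i - a j| := by
      simp only [a]
      rw [← sub_div, abs_div, abs_of_pos (show (0:ℝ) < 2 * J by positivity)]
      gcongr
      have : (1 : ℤ) ≤ |(i : ℤ) - j| := by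
        rw [← Int.zero_add 1]
        apply Int.add_one_le_of_lt
        apply abs_pos.mpr
        omega
      exact_mod_cast this
    have hbig : 2 < |a i - a j| * |g Q| := by
      calc (2:ℝ) = 1 / (2 * (J:ℝ)) * (4 * J) := by field_simp; norm_num
        _ < |a i - a j| * |g Q| := by
            have h3 : 0 < 1 / (2 * (J:ℝ)) := by positivity
            nlinarith [abs_nonneg (a i - a j), abs_nonneg (g Q)]
    have heq : (a i - a j) * g Q = (1 - a j) * g P' - (1 - a i) * g P := by linarith
    rw [← abs_mul, heq] at hbig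
    have h4 : |(1 - a j) * g P' - (1 - a i) * g P| ≤ 2 := by
      rw [abs_le]
      constructor
      · nlinarith [hp.1, hp.2, hp'.1, hp'.2]
      · nlinarith [hp.1, hp.2, hp'.1, hp'.2]
    linarith
  have hsum : volume (⋃ j ∈ Finset.range J, U j) = ∑ j ∈ Finset.range J, volume (U j) := by
    apply measure_biUnion_finset₀
    · intro i hi j hj hij
      simp only [Finset.coe_range, mem_Iio] at hi hj
      exact (hdisj i hi j hj hij).aedisjoint
    · intro j hj
      exact (hUum j (Finset.mem_range.mp hj)) volume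
  have hle : ∑ j ∈ Finset.range J, volume (U j) ≤ 1 := by
    rw [← hsum]
    refine le_trans (measure_mono ?_) hS1
    intro x hx
    simp only [mem_iUnion, Finset.mem_range] at hx
    obtain ⟨j, hj, hx⟩ := hx
    exact hUS j hj hx
  have hlow : (J : ENNReal) * ((2 : ENNReal)⁻¹ ^ d * volume T) ≤ 1 := by
    refine le_trans ?_ hle
    have : ∑ j ∈ Finset.range J, ((2 : ENNReal)⁻¹ ^ d * volume T) = (J : ENNReal) * ((2 : ENNReal)⁻¹ ^ d * volume T) := by
      simp
    rw [← this]
    apply Finset.sum_le_sum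
    intro j hj
    exact hUmeas j (Finset.mem_range.mp hj)
  calc (J : ENNReal) * volume T = 2 ^ d * ((J : ENNReal) * ((2 : ENNReal)⁻¹ ^ d * volume T)) := by
        have h5 : (2 : ENNReal) ^ d * (2 : ENNReal)⁻¹ ^ d = 1 := by
          rw [← mul_pow, ENNReal.mul_inv_cancel (by norm_num) (by norm_num), one_pow]
        calc (J : ENNReal) * volume T = (2 ^ d * (2 : ENNReal)⁻¹ ^ d) * ((J : ENNReal) * volume T) := by
              rw [h5, one_mul]
          _ = _ := by ring
    _ ≤ 2 ^ d * 1 := by gcongr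
    _ = 2 ^ d := mul_one _

end Pool.Agent.Helper83
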