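import Pool.Agent.Helper83.GenPos

set_option autoImplicit false

open MeasureTheory Set Topology Filter

namespace Pool.Agent.Helper83

/-- Glueing horizontal and vertical coordinates. -/
def glue {k m : ℕ} (z : (Fin (k+1) → Pt k) × (Fin (k+1) → Pt m)) : Fin (k+1) → Sp k m :=
  fun j => Sum.elim (z.1 j) (z.2 j)

lemma mp_glue (k m : ℕ) : MeasurePreserving (glue (k := k) (m := m)) volume volume := by
  have h1 := (volume_measurePreserving_arrowProdEquivProdArrow (Pt k) (Pt m) (Fin (k+1))).symm
  have h2 : MeasurePreserving (fun (a : Fin (k+1) → Pt k × Pt m) (i : Fin (k+1)) =>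
      (MeasurableEquiv.sumPiEquivProdPi (fun _ : Fin k ⊕ Fin m => ℝ)).symm (a i)) volume volume :=
    volume_preserving_pi (fun i => volume_measurePreserving_sumPiEquivProdPi_symm (fun _ : Fin k ⊕ Fin m => ℝ))
  have h3 := h2.comp h1
  have heq : (glue (k := k) (m := m)) = ((fun (a : Fin (k+1) → Pt k × Pt m) (i : Fin (k+1)) =>
      (MeasurableEquiv.sumPiEquivProdPi (fun _ : Fin k ⊕ Fin m => ℝ)).symm (a i)) ∘
      ⇑(MeasurableEquiv.arrowProdEquivProdArrow (Pt k) (Pt m) (Fin (k + 1))).symm) := by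
    funext z j x
    rcases x with c | l <;> rfl
  rw [heq]
  exact h3

/-- The affine map. -/
noncomputable def bigMat {k m : ℕ} (u : Fin (k+1) → Pt k) (y : Fin (k+1) → Pt m) (s : ℝ) :
    Matrix (Fin k ⊕ Fin m) (Fin k ⊕ Fin m) ℝ :=
  Matrix.fromBlocks (Matrix.of fun j : Fin k => u j.succ - u 0).transpose 0
    (Matrix.of fun j : Fin k => y j.succ - y 0).transpose (s • (1 : Matrix (Fin m) (Fin m) ℝ))

lemma bigMat_det {k m : ℕ} (u : Fin (k+1) → Pt k) (y : Fin (k+1) → Pt m) (s : ℝ) :
    (bigMat u y s).det = (Matrix.of fun j : Fin k => u j.succ - u 0).det * s ^ m := by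
  rw [bigMat, Matrix.det_fromBlocks_zero₁₂, Matrix.det_transpose, Matrix.det_smul]
  simp

/-- The image points. -/
noncomputable def imgPt {k m : ℕ} (u : Fin (k+1) → Pt k) (y : Fin (k+1) → Pt m) (s : ℝ)
    (i : Fin (k+m+1)) : Sp k m :=
  (bigMat u y s).mulVec (refPt k m i) + glue (u, y) 0

lemma imgPt_inl {k m : ℕ} (u : Fin (k+1) → Pt k) (y : Fin (k+1) → Pt m) (s : ℝ)
    (i : Fin (k+m+1)) (c : Fin k) : imgPt u y s i (Sum.inl c) = ∑ j, bc k m i j * u j c := by
  have hb : bc k m i 0 = 1 - ∑ j : Fin k, bc k m i j.succ := by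
    have := bc_sum k m i
    rw [Fin.sum_univ_succ] at this
    linarith
  rw [Fin.sum_univ_succ, hb]
  simp only [imgPt, bigMat, refPt, glue, Pi.add_apply, Matrix.fromBlocks_mulVec,
    Sum.elim_inl, Matrix.mulVec, dotProduct, Matrix.transpose_apply, Matrix.of_apply,
    Pi.sub_apply, Matrix.zero_apply, zero_mul, Finset.sum_const_zero, add_zero, Function.comp_apply]
  have : ∑ x : Fin k, (u x.succ c - u 0 c) * bc k m i x.succ =
    ∑ x : Fin k, bc k m i x.succ * u x.succ c - (∑ x : Fin k, bc k m i x.succ) * u 0 c := by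
    rw [Finset.sum_mul, ← Finset.sum_sub_distrib]
    apply Finset.sum_congr rfl
    intro x _; ring
  rw [this]; ring

lemma imgPt_inr {k m : ℕ} (u : Fin (k+1) → Pt k) (y : Fin (k+1) → Pt m) (s : ℝ)
    (i : Fin (k+m+1)) (l : Fin m) : imgPt u y s i (Sum.inr l) =
      ∑ j, bc k m i j * y j l + s * ht k m i l := by
  have hb : bc k m i 0 = 1 - ∑ j : Fin k, bc k m i j.succ := by
    have := bc_sum k m i
    rw [Fin.sum_univ_succ] at this
    linarith
  rw [Fin.sum_univ_succ, hb]
  simp only [imgPt, bigMat, refPt, glue, Pi.add_apply, Matrix.fromBlocks_mulVec,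
    Sum.elim_inr, Matrix.mulVec, dotProduct, Matrix.transpose_apply, Matrix.of_apply,
    Pi.sub_apply, Function.comp_apply, Sum.elim_inl, Matrix.smul_apply, smul_eq_mul]
  have h1 : ∑ x : Fin k, (y x.succ l - y 0 l) * bc k m i x.succ =
    ∑ x : Fin k, bc k m i x.succ * y x.succ l - (∑ x : Fin k, bc k m i x.succ) * y 0 l := by
    rw [Finset.sum_mul, ← Finset.sum_sub_distrib]
    apply Finset.sum_congr rfl
    intro x _; ring
  have h2 : ∑ x : Fin m, s * (1 : Matrix (Fin m) (Fin m) ℝ) l x * ht k m i x = s * ht k m i l := by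
    simp [Matrix.one_apply]
  rw [h1, h2]; ring

lemma imgPt_mem {k m : ℕ} (u : Fin (k+1) → Pt k) (y : Fin (k+1) → Pt m) (s : ℝ)
    (I : Finset (Fin (k+m+1))) (hI : I.card = k + 1) (i : Fin (k+m+1)) (hi : i ∈ I) :
    imgPt u y s i ∈ convexHull ℝ (Set.range (glue (u, y + s • shft k m I))) := by
  rw [convexHull_range_eq_image]
  refine ⟨bc k m i, ⟨bc_nonneg k m i, bc_sum k m i⟩, ?_⟩
  funext x
  rcases x with c | l
  · rw [imgPt_inl]
    simp [Finset.sum_apply, glue]
  · rw [imgPt_inr, ← shft_spec k m I hI i hi l]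
    simp only [Finset.sum_apply, Pi.smul_apply, glue, Sum.elim_inr, Pi.add_apply, smul_eq_mul]
    rw [Finset.mul_sum, ← Finset.sum_add_distrib]
    apply Finset.sum_congr rfl
    intro j _; ring

/-- The affine map as an affine map. -/
noncomputable def bigAff {k m : ℕ} (u : Fin (k+1) → Pt k) (y : Fin (k+1) → Pt m) (s : ℝ) :
    Sp k m →ᵃ[ℝ] Sp k m :=
  (Matrix.toLin' (bigMat u y s)).toAffineMap + AffineMap.const ℝ _ (glue (u, y) 0)

lemma bigAff_apply {k m : ℕ} (u : Fin (k+1) → Pt k) (y : Fin (k+1) → Pt m) (s : ℝ) (x : Sp k m) :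
    bigAff u y s x = (bigMat u y s).mulVec x + glue (u, y) 0 := by
  simp [bigAff]

lemma imgPt_affInd {k m : ℕ} (u : Fin (k+1) → Pt k) (y : Fin (k+1) → Pt m) (s : ℝ)
    (hdet : (bigMat u y s).det ≠ 0) : AffineIndependent ℝ (imgPt u y s) := by
  have h1 : imgPt u y s = bigAff u y s ∘ refPt k m := by
    funext i
    rw [Function.comp_apply, bigAff_apply]; rfl
  rw [h1]
  apply (refPt_affineIndependent k m).map'
  intro a b hab
  rw [bigAff_apply, bigAff_apply] at hab
  have h2 := add_right_cancel hab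
  exact Matrix.mulVec_injective_iff_isUnit.mpr ((Matrix.isUnit_iff_isUnit_det _).mpr (isUnit_iff_ne_zero.mpr hdet)) h2

lemma imgPt_vol {k m : ℕ} (u : Fin (k+1) → Pt k) (y : Fin (k+1) → Pt m) (s : ℝ) :
    volume (convexHull ℝ (Set.range (imgPt u y s))) =
      ENNReal.ofReal |(bigMat u y s).det| * volume (convexHull ℝ (Set.range (refPt k m))) := by
  have h1 : Set.range (imgPt u y s) = bigAff u y s '' Set.range (refPt k m) := by
    rw [← Set.range_comp]
    have : imgPt u y s = bigAff u y s ∘ refPt k m := by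
      funext i
      rw [Function.comp_apply, bigAff_apply]; rfl
    rw [this]
  rw [h1, ← AffineMap.image_convexHull]
  have h2 : (bigAff u y s : Sp k m → Sp k m) '' (convexHull ℝ (Set.range (refPt k m))) =
      (fun x => x + (- glue (u, y) 0)) ⁻¹' (Matrix.toLin' (bigMat u y s) '' (convexHull ℝ (Set.range (refPt k m)))) := by
    ext x
    simp only [mem_image, mem_preimage, bigAff_apply, Matrix.toLin'_apply]
    constructor
    · rintro ⟨a, ha, rfl⟩
      exact ⟨a, ha, by simp⟩
    · rintro ⟨a, ha, hx⟩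
      exact ⟨a, ha, by rw [hx]; simp⟩
  rw [h2, measure_preimage_add_right, Measure.addHaar_image_linearMap, LinearMap.det_toLin']

theorem thmB (hDHJ : DHJStatement) (k m : ℕ) (R : ℝ) (hR : 0 ≤ R) (c : ENNReal) (hc : c ≠ 0)
    (hct : c ≠ ⊤) :
    ∃ δ : ℝ, 0 < δ ∧ ∀ S : Set (Sp k m), MeasurableSet S →
      c ≤ volume {x : Fin (k+1) → Sp k m | convexHull ℝ (Set.range x) ⊆ S ∧ ∀ j i, |x j i| ≤ R} →
      ∃ X : Fin (k+m+1) → Sp k m, AffineIndependent ℝ X ∧
        ENNReal.ofReal δ ≤ volume (convexHull ℝ (Set.range X)) ∧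
        ∀ I : Finset (Fin (k+m+1)), I.card = k + 1 → convexHull ℝ (X '' (I : Set (Fin (k+m+1)))) ⊆ S := by
  classical
  set Bu : Set (Fin (k+1) → Pt k) := Metric.closedBall 0 R with hBu
  set By : Set (Fin (k+1) → Pt m) := Metric.closedBall 0 R with hBy
  set βu := volume Bu with hβu
  set βy := volume By with hβy
  have hβut : βu ≠ ⊤ := (isCompact_closedBall _ _).measure_lt_top.ne
  have hβyt : βy ≠ ⊤ := (isCompact_closedBall _ _).measure_lt_top.ne
  let D : (Fin (k+1) → Pt k) → ℝ := fun u => Matrix.det (Matrix.of fun j : Fin k => u j.succ - u 0)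
  have hDcont : Continuous D := by
    apply Continuous.matrix_det
    apply continuous_pi; intro j
    apply continuous_pi; intro c
    simp only [Matrix.of_apply, Pi.sub_apply]
    fun_prop
  let E : ℕ → Set (Fin (k+1) → Pt k) := fun n => Bu ∩ {u | |D u| < 1 / ((n:ℝ) + 1)}
  have hEm : ∀ n, MeasurableSet (E n) := by
    intro n
    exact Metric.isClosed_closedBall.measurableSet.inter
      (measurableSet_lt (hDcont.abs).measurable measurable_const)
  have hEanti : Antitone E := by
    intro n n' h u hu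
    have hu2 : |D u| < 1 / ((n':ℝ) + 1) := hu.2
    have : (n:ℝ) ≤ n' := by exact_mod_cast h
    have h3 : 1 / ((n':ℝ) + 1) ≤ 1 / ((n:ℝ) + 1) := by gcongr
    exact ⟨hu.1, lt_of_lt_of_le hu2 h3⟩
  have hElim : Tendsto (fun n => volume (E n) * βy) atTop (𝓝 0) := by
    have h1 : volume (⋂ n, E n) = 0 := by
      refine measure_mono_null ?_ (ae_iff.mp (ae_det k))
      intro u hu
      simp only [ne_eq, not_not, mem_ofPred_eq]
      by_contra hne
      have hpos : 0 < |D u| := abs_pos.mpr hne
      obtain ⟨n, hn⟩ := exists_nat_one_div_lt hpos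
      have := (mem_iInter.mp hu n).2
      simp only [mem_ofPred_eq] at this
      linarith
    have h2 : Tendsto (volume ∘ E) atTop (𝓝 (volume (⋂ n, E n))) := by
      apply tendsto_measure_iInter_atTop (fun n => (hEm n).nullMeasurableSet) hEanti
      exact ⟨0, ((measure_mono inter_subset_left).trans_lt hβut.lt_top).ne⟩
    rw [h1] at h2
    have h3 := ENNReal.Tendsto.mul_const (b := βy) h2 (Or.inr hβyt)
    rw [zero_mul] at h3
    exact h3
  have hc4 : c / 4 ≠ 0 := ENNReal.div_ne_zero.mpr ⟨hc, by norm_num⟩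
  have hc4t : c / 4 ≠ ⊤ := (ENNReal.div_lt_top hct (by norm_num)).ne
  obtain ⟨N, hN⟩ := (hElim.eventually (gt_mem_nhds (pos_iff_ne_zero.mpr hc4))).exists
  set τ : ℝ := 1 / ((N:ℝ) + 1) with hτ
  have hτpos : 0 < τ := by positivity
  have hβu1 : βu + 1 ≠ 0 := by simp
  have hβu1t : βu + 1 ≠ ⊤ := ENNReal.add_ne_top.mpr ⟨hβut, ENNReal.one_ne_top⟩
  set q : ENNReal := c / 4 / (βu + 1) with hq
  have hq0 : q ≠ 0 := ENNReal.div_ne_zero.mpr ⟨hc4, hβu1t⟩
  have hqt : q ≠ ⊤ := (ENNReal.div_lt_top hc4t hβu1).ne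
  -- the index type
  let α : Type := {I : Finset (Fin (k+m+1)) // I.card = k + 1}
  have hαne : Nonempty α := by
    obtain ⟨I, _, hI⟩ := Finset.exists_subset_card_eq (s := (Finset.univ : Finset (Fin (k+m+1)))) (n := k+1) (by simp)
    exact ⟨⟨I, hI⟩⟩
  obtain ⟨s0, hs0, hhom⟩ := homothetic hDHJ (volume : Measure (Fin (k+1) → Pt m)) α
    (fun I => shft k m I.1) R q hq0 hqt
  set v0 := volume (convexHull ℝ (Set.range (refPt k m))) with hv0
  have hv0pos : 0 < v0 := refPt_hull_pos k m
  have hv0t : v0 ≠ ⊤ := by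
    have : IsCompact (convexHull ℝ (Set.range (refPt k m))) :=
      (Set.finite_range _).isCompact_convexHull (𝕜 := ℝ)
    exact this.measure_lt_top.ne
  have hv0r : 0 < v0.toReal := ENNReal.toReal_pos hv0pos.ne' hv0t
  refine ⟨τ * s0 ^ m * v0.toReal, by positivity, ?_⟩
  intro S hS hmass
  set C : Set (Fin (k+1) → Sp k m) := {x | convexHull ℝ (Set.range x) ⊆ S ∧ ∀ j i, |x j i| ≤ R} with hC
  have hCum : UM C := by
    apply UM.inter (um_conv hS)
    have : {x : Fin (k+1) → Sp k m | ∀ j i, |x j i| ≤ R} =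
      ⋂ j, ⋂ i, {x : Fin (k+1) → Sp k m | |x j i| ≤ R} := by ext x; simp
    change UM {x : Fin (k+1) → Sp k m | ∀ j i, |x j i| ≤ R}
    rw [this]
    apply UM.iInter; intro j
    apply UM.iInter; intro i
    apply UM.of_measurable
    apply measurableSet_le _ measurable_const
    have : Continuous fun x : Fin (k+1) → Sp k m => |x j i| := by fun_prop
    exact this.measurable
  have hCum' : UM (glue (k := k) (m := m) ⁻¹' C) := hCum.preimage (mp_glue k m).measurable
  rw [← (mp_glue k m).measure_preimage (hCum volume)] at hmass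
  have hprod : (volume : Measure ((Fin (k+1) → Pt k) × (Fin (k+1) → Pt m))) =
    (volume : Measure (Fin (k+1) → Pt k)).prod volume := rfl
  rw [hprod, prod_apply_um _ _ (hCum' _)] at hmass
  have hCu : ∀ u y, glue (u, y) ∈ C → u ∈ Bu := by
    intro u y h
    rw [hBu, mem_closedBall_zero_iff, pi_norm_le_iff_of_nonneg hR]
    intro j
    rw [pi_norm_le_iff_of_nonneg hR]
    intro c
    exact h.2 j (Sum.inl c)
  have hCy : ∀ u y, glue (u, y) ∈ C → y ∈ By := by
    intro u y h
    rw [hBy, mem_closedBall_zero_iff, pi_norm_le_iff_of_nonneg hR]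
    intro j
    rw [pi_norm_le_iff_of_nonneg hR]
    intro c
    exact h.2 j (Sum.inr c)
  have hex : ∃ u : Fin (k+1) → Pt k, τ ≤ |D u| ∧ q ≤ volume (Prod.mk u ⁻¹' (glue (k := k) (m := m) ⁻¹' C)) := by
    by_contra hcon
    push Not at hcon
    have h1 : c ≤ c / 4 + c / 4 := by
      calc c ≤ _ := hmass
        _ ≤ ∫⁻ u, ((E N).indicator (fun _ => βy) u + Bu.indicator (fun _ => q) u) := by
            apply lintegral_mono
            intro u
            show volume (Prod.mk u ⁻¹' (glue (k := k) (m := m) ⁻¹' C)) ≤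
              (E N).indicator (fun _ => βy) u + Bu.indicator (fun _ => q) u
            by_cases hne : (Prod.mk u ⁻¹' (glue (k := k) (m := m) ⁻¹' C)).Nonempty
            · obtain ⟨y, hy⟩ := hne
              have huB : u ∈ Bu := hCu u y hy
              by_cases hD : τ ≤ |D u|
              · refine le_trans (hcon u hD).le ?_
                rw [indicator_of_mem huB]
                exact le_add_self
              · push Not at hD
                rw [indicator_of_mem (show u ∈ E N from ⟨huB, hD⟩)]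
                refine le_trans (measure_mono ?_) le_self_add
                intro y' hy'
                exact hCy u y' hy'
            · rw [Set.not_nonempty_iff_eq_empty.mp hne]; simp
        _ = βy * volume (E N) + q * βu := by
            rw [lintegral_add_left (measurable_const.indicator (hEm N)),
              lintegral_indicator_const (hEm N),
              lintegral_indicator_const Metric.isClosed_closedBall.measurableSet]
        _ ≤ c / 4 + c / 4 := by
            gcongr
            · rw [mul_comm]; exact hN.le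
            · rw [hq]
              calc c / 4 / (βu + 1) * βu ≤ c / 4 / (βu + 1) * (βu + 1) := by gcongr; exact le_self_add
                _ = c / 4 := ENNReal.div_mul_cancel hβu1 hβu1t
    have h2 : c / 4 + c / 4 = c / 2 := by
      have : c / 4 = c / 2 / 2 := by
        rw [ENNReal.div_eq_inv_mul, ENNReal.div_eq_inv_mul, ENNReal.div_eq_inv_mul, ← mul_assoc]
        congr 1
        rw [← ENNReal.mul_inv (Or.inl (by norm_num)) (Or.inl (by norm_num))]
        norm_num
      rw [this, ENNReal.add_halves]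
    rw [h2] at h1
    exact absurd (ENNReal.half_lt_self hc hct) (not_lt.mpr h1)
  obtain ⟨u, huD, huq⟩ := hex
  have hMnull : NullMeasurableSet (Prod.mk u ⁻¹' (glue (k := k) (m := m) ⁻¹' C))
      (volume : Measure (Fin (k+1) → Pt m)) :=
    (hCum'.preimage (f := fun y => (u, y)) (by fun_prop)) volume
  obtain ⟨y, s, hs, hys⟩ := hhom _ hMnull (fun y hy => hCy u y hy) huq
  have hspos : 0 < s := lt_of_lt_of_le hs0 hs
  have hdet : τ * s0 ^ m ≤ |(bigMat u y s).det| := by
    rw [bigMat_det, abs_mul, abs_of_nonneg (pow_nonneg hspos.le m)]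
    gcongr
  refine ⟨imgPt u y s, ?_, ?_, ?_⟩
  · apply imgPt_affInd
    intro h
    rw [h, abs_zero] at hdet
    have : 0 < τ * s0 ^ m := by positivity
    linarith
  · rw [imgPt_vol]
    calc ENNReal.ofReal (τ * s0 ^ m * v0.toReal) = ENNReal.ofReal (τ * s0 ^ m) * v0 := by
          rw [ENNReal.ofReal_mul (by positivity), ENNReal.ofReal_toReal hv0t]
      _ ≤ ENNReal.ofReal |(bigMat u y s).det| * v0 := by gcongr
  · intro I hI
    have h1 : glue (u, y + s • shft k m I) ∈ C := hys ⟨I, hI⟩
    refine Set.Subset.trans ?_ h1.1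
    apply convexHull_min _ (convex_convexHull ℝ _)
    rintro _ ⟨i, hi, rfl⟩
    exact imgPt_mem u y s I hI i hi

end Pool.Agent.Helper83
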