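import Pool.Agent.Helper83.Analytic

set_option autoImplicit false

open MeasureTheory Set Topology Filter

namespace Pool.Agent.Helper83

/-- Universally measurable sets: null-measurable for every s-finite measure. -/
def UM {α : Type*} [MeasurableSpace α] (s : Set α) : Prop :=
  ∀ (μ : Measure α) [SFinite μ], NullMeasurableSet s μ

namespace UM

variable {α β : Type*} [MeasurableSpace α] [MeasurableSpace β]

lemma null {s : Set α} (h : UM s) (μ : Measure α) [SFinite μ] : NullMeasurableSet s μ := h μ

lemma of_measurable {s : Set α} (h : MeasurableSet s) : UM s := fun _ _ => h.nullMeasurableSet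

lemma preimage {s : Set β} (h : UM s) {f : α → β} (hf : Measurable f) : UM (f ⁻¹' s) := by
  intro μ _
  exact (h (μ.map f)).preimage (hf.quasiMeasurePreserving μ)

lemma compl {s : Set α} (h : UM s) : UM sᶜ := fun μ _ => (h μ).compl

lemma inter {s t : Set α} (h : UM s) (h' : UM t) : UM (s ∩ t) := fun μ _ => (h μ).inter (h' μ)

lemma union {s t : Set α} (h : UM s) (h' : UM t) : UM (s ∪ t) := fun μ _ => (h μ).union (h' μ)

lemma diff {s t : Set α} (h : UM s) (h' : UM t) : UM (s \ t) := h.inter h'.compl

lemma iInter {ι : Type*} [Countable ι] {s : ι → Set α} (h : ∀ i, UM (s i)) : UM (⋂ i, s i) :=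
  fun μ _ => NullMeasurableSet.iInter fun i => h i μ

lemma iUnion {ι : Type*} [Countable ι] {s : ι → Set α} (h : ∀ i, UM (s i)) : UM (⋃ i, s i) :=
  fun μ _ => NullMeasurableSet.iUnion fun i => h i μ

lemma of_analytic [TopologicalSpace α] [PolishSpace α] [BorelSpace α] {s : Set α}
    (h : AnalyticSet s) : UM s := fun μ _ => nullMeasurableSet_of_analytic μ h

lemma univ : UM (Set.univ : Set α) := of_measurable MeasurableSet.univ

end UM

/-- Tonelli for universally measurable sets. -/
lemma prod_apply_um {α β : Type*} [MeasurableSpace α] [MeasurableSpace β] (μ : Measure α)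
    (ν : Measure β) [SFinite μ] [SFinite ν] {s : Set (α × β)} (hs : NullMeasurableSet s (μ.prod ν)) :
    (μ.prod ν) s = ∫⁻ x, ν (Prod.mk x ⁻¹' s) ∂μ := by
  obtain ⟨t, hts, htm, hae⟩ := hs.exists_measurable_superset_ae_eq
  rw [← measure_congr hae, Measure.prod_apply htm]
  apply lintegral_congr_ae
  have h1 : ∀ᵐ x ∂μ, ∀ᵐ y ∂ν, (x, y) ∈ t ↔ (x, y) ∈ s := by
    have := Measure.ae_ae_of_ae_prod (μ := μ) (ν := ν) (p := fun z => z ∈ t ↔ z ∈ s)
      (by filter_upwards [hae] with z hz; exact iff_of_eq hz)
    exact this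
  filter_upwards [h1] with x hx
  apply measure_congr
  filter_upwards [hx] with y hy
  exact propext hy

/-- Tonelli, with the roles swapped. -/
lemma prod_apply_symm_um {α β : Type*} [MeasurableSpace α] [MeasurableSpace β] (μ : Measure α)
    (ν : Measure β) [SFinite μ] [SFinite ν] {s : Set (α × β)} (hs : NullMeasurableSet s (μ.prod ν)) :
    (μ.prod ν) s = ∫⁻ y, μ ((fun x => (x, y)) ⁻¹' s) ∂ν := by
  have h : (μ.prod ν) s = (ν.prod μ) (Prod.swap ⁻¹' s) := by
    rw [← Measure.prod_swap]
    rw [Measure.map_apply₀ measurable_swap.aemeasurable]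
    rwa [Measure.prod_swap]
  rw [h, prod_apply_um]
  · rfl
  · exact hs.preimage (Measure.measurePreserving_swap.quasiMeasurePreserving)

lemma convexHull_range_eq_image {ι : Type*} [Fintype ι] {E : Type*} [AddCommGroup E] [Module ℝ E]
    (x : ι → E) :
    convexHull ℝ (Set.range x) = (fun w : ι → ℝ => ∑ i, w i • x i) '' stdSimplex ℝ ι := by
  classical
  rw [← convexHull_rangle_single_eq_stdSimplex]
  let L : (ι → ℝ) →ₗ[ℝ] E := Fintype.linearCombination ℝ x
  have hL : (fun w : ι → ℝ => ∑ i, w i • x i) = L := by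
    ext w; simp [L, Fintype.linearCombination_apply]
  rw [hL, LinearMap.image_convexHull, ← Set.range_comp]
  congr 2
  ext i
  simp [L, Fintype.linearCombination_apply]

/-- The set of configurations whose convex hull lies in `S` is universally measurable. -/
lemma um_conv {ι : Type*} [Fintype ι] {E : Type*} [AddCommGroup E] [Module ℝ E]
    [TopologicalSpace E] [PolishSpace E] [MeasurableSpace E] [BorelSpace E]
    [ContinuousAdd E] [ContinuousSMul ℝ E] {S : Set E} (hS : MeasurableSet S) :
    UM {x : ι → E | convexHull ℝ (Set.range x) ⊆ S} := by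
  have hset : {x : ι → E | convexHull ℝ (Set.range x) ⊆ S} =
      (Prod.fst '' {p : (ι → E) × (ι → ℝ) | p.2 ∈ stdSimplex ℝ ι ∧ (∑ i, p.2 i • p.1 i) ∉ S})ᶜ := by
    ext x
    simp only [mem_compl_iff, mem_image, mem_ofPred_eq, Prod.exists, exists_and_right,
      exists_eq_right, not_exists, not_and, not_not]
    rw [convexHull_range_eq_image]
    constructor
    · intro h w hw
      exact h ⟨w, hw, rfl⟩
    · rintro h y ⟨w, hw, rfl⟩
      exact h w hw
  rw [hset]
  apply UM.compl
  apply UM.of_analytic
  have hm : MeasurableSet {p : (ι → E) × (ι → ℝ) | p.2 ∈ stdSimplex ℝ ι ∧ (∑ i, p.2 i • p.1 i) ∉ S} := by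
    apply MeasurableSet.inter
    · exact (isClosed_stdSimplex ℝ ι).measurableSet.preimage measurable_snd
    · apply MeasurableSet.compl
      have hc : Continuous (fun p : (ι → E) × (ι → ℝ) => ∑ i, p.2 i • p.1 i) := by fun_prop
      exact hc.measurable hS
  exact (hm.analyticSet).image_of_continuous continuous_fst

end Pool.Agent.Helper83
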